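import Pool.Agent.Lib.MP_e426f4_ag.WAD.ApxOne

/-!
# ApxAll: the residue class modulo `N` of a system of `p`-adic zeros

For every prime `p` let `ζ_p` be `z p` if `p ≤ w`, otherwise a zero of norm one (`zer_one`).  For `p ∣ N` choose integers `b_{p,i}` with
`‖b_{p,i} - ζ_{p,i}‖ ≤ p^(-v_p(N))`; Chinese remainder theorem for the pairwise coprime moduli `p^(v_p(N))`, `p ∣ N` (e.g.
`Nat.chineseRemainderOfFinset`, or induction), gives `r_i ∈ [0, N)` with `r_i ≡ b_{p,i} mod p^(v_p(N))`.  For `p ∤ N` the condition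
is `‖r_i - ζ_i‖ ≤ 1`.  `apx_one` for all `p`.
-/

set_option autoImplicit false

namespace Pool.Agent.Lib.MP_e426f4_ag.WAD

open Finset MvPolynomial
open Pool.Agent.Lib.MP_e426f4_ag.DP

private theorem apxAll_int {p : ℕ} [Fact p.Prime] (x : ℚ_[p]) (hx : ‖x‖ ≤ 1) (m : ℕ) :
    ∃ b : ℕ, ‖(b : ℚ_[p]) - x‖ ≤ (p : ℝ) ^ (-(m : ℤ)) := by
  let y : ℤ_[p] := ⟨x, hx⟩
  refine ⟨PadicInt.appr y m, ?_⟩
  have h := (PadicInt.norm_le_pow_iff_mem_span_pow _ _).mpr (PadicInt.appr_spec m y)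
  rw [← norm_neg]
  have e : -(((PadicInt.appr y m : ℕ) : ℚ_[p]) - x) =
      ((y - (PadicInt.appr y m : ℤ_[p]) : ℤ_[p]) : ℚ_[p]) := by
    push_cast
    ring
  rw [e, ← PadicInt.norm_def]
  exact h

theorem apx_all {d s : ℕ} (w N : ℕ) (hN : 1 ≤ N) (F : Pol s) (hF : F.IsHomogeneous d)
    (hz : ∀ (p : ℕ) [Fact p.Prime], Zer ℚ_[p] F)
    (z : (p : ℕ) → [Fact p.Prime] → Fin s → ℚ_[p])
    (hz' : ∀ (p : ℕ) [Fact p.Prime], p ≤ w → ‖z p‖ = 1 ∧ aeval (z p) F = 0) :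
    ∃ r : Fin s → ℤ, (∀ p : ℕ, p.Prime → ApxP p (N.factorization p) r F) ∧
      ∀ (p : ℕ) [Fact p.Prime], p ≤ w → ∀ i,
        ‖(r i : ℚ_[p]) - z p i‖ ≤ (p : ℝ) ^ (-(N.factorization p : ℤ)) := by
  have hZ : ∀ (p : ℕ) [Fact p.Prime], ∃ ζ : Fin s → ℚ_[p],
      ‖ζ‖ = 1 ∧ aeval ζ F = 0 ∧ (p ≤ w → ζ = z p) := by
    intro p _
    by_cases hp : p ≤ w
    · exact ⟨z p, (hz' p hp).1, (hz' p hp).2, fun _ => rfl⟩
    · obtain ⟨ζ, h1, h2⟩ := zer_one F hF (hz p)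
      exact ⟨ζ, h1, h2, fun h => absurd h hp⟩
  choose Z hZ1 hZ2 hZ3 using hZ
  have hB : ∀ (p : ℕ) [Fact p.Prime], ∀ i : Fin s, ∃ b : ℕ,
      ‖(b : ℚ_[p]) - Z p i‖ ≤ (p : ℝ) ^ (-(N.factorization p : ℤ)) := by
    intro p _ i
    exact apxAll_int _ ((norm_le_pi_norm (Z p) i).trans (hZ1 p).le) _
  choose B hB using hB
  let a : Fin s → ℕ → ℕ := fun i p =>
    if h : p.Prime then (haveI : Fact p.Prime := ⟨h⟩; B p i) else 0
  have hcop : Set.Pairwise (N.primeFactors : Set ℕ)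
      (Function.onFun Nat.Coprime fun p => p ^ N.factorization p) := by
    intro p hp q hq hpq
    exact Nat.Coprime.pow _ _ ((Nat.coprime_primes (Nat.prime_of_mem_primeFactors hp)
      (Nat.prime_of_mem_primeFactors hq)).mpr hpq)
  have hk : ∀ i : Fin s, ∃ k : ℕ, ∀ p ∈ N.primeFactors, k ≡ a i p [MOD p ^ N.factorization p] := by
    intro i
    obtain ⟨k, hk⟩ := Nat.chineseRemainderOfFinset (a i) (fun p => p ^ N.factorization p)
      N.primeFactors (fun p hp => pow_ne_zero _ (Nat.prime_of_mem_primeFactors hp).ne_zero) hcop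
    exact ⟨k, hk⟩
  choose k hk using hk
  have hmain : ∀ (p : ℕ) [Fact p.Prime], ∀ i,
      ‖(((k i : ℕ) : ℤ) : ℚ_[p]) - Z p i‖ ≤ (p : ℝ) ^ (-(N.factorization p : ℤ)) := by
    intro p hp i
    have hmod : k i ≡ B p i [MOD p ^ N.factorization p] := by
      by_cases hpN : p ∈ N.primeFactors
      · have h := hk i p hpN
        have e : a i p = B p i := by
          simp only [a]
          rw [dif_pos hp.out]
        rwa [e] at h
      · have h0 : N.factorization p = 0 := by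
          rw [← Finsupp.notMem_support_iff, Nat.support_factorization]
          exact hpN
        rw [h0, pow_zero]
        exact Nat.modEq_one
    have h1 : ‖((((k i : ℕ) : ℤ) - ((B p i : ℕ) : ℤ) : ℤ) : ℚ_[p])‖ ≤
        (p : ℝ) ^ (-(N.factorization p : ℤ)) := by
      rw [Padic.norm_int_le_pow_iff_dvd]
      have := (Nat.modEq_iff_dvd.mp hmod.symm)
      exact_mod_cast this
    have h2 := hB p i
    have e : (((k i : ℕ) : ℤ) : ℚ_[p]) - Z p i =
        ((((k i : ℕ) : ℤ) - ((B p i : ℕ) : ℤ) : ℤ) : ℚ_[p]) + (((B p i : ℕ) : ℚ_[p]) - Z p i) := by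
      push_cast
      ring
    rw [e]
    exact (Padic.nonarchimedean _ _).trans (max_le h1 h2)
  refine ⟨fun i => ((k i : ℕ) : ℤ), ?_, ?_⟩
  · intro p hp
    haveI : Fact p.Prime := ⟨hp⟩
    exact apx_one F (Z p) (hZ1 p) (hZ2 p) _ _ (hmain p)
  · intro p _ hpw i
    have h := hmain p i
    rw [hZ3 p hpw] at h
    exact h

end Pool.Agent.Lib.MP_e426f4_ag.WAD
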