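import Pool.Agent.Lib.MP_e426f4_ag.WAD.Defs
import Pool.Agent.Lib.MP_e426f4_ag.DP.Basic

/-!
# ApxOne: a `p`-adic zero of norm one gives primitive zeros modulo all powers of `p` (compare `exists_approx` in `DP/PadicExcG.lean`)

`ζ_i ∈ ℤ_p` as `‖ζ‖ = 1` (sup norm), some `‖ζ_i‖ = 1`.  For given `n` let `M = max n m + 1` and `x_i ∈ ℤ` with `x_i ≡ ζ_i mod p^M`
(`PadicInt.toZModPow` or `appr`).  `x` is primitive, `p^n ∣ F(x)`, and `x_i ≡ r_i mod p^m` because `‖r_i - ζ_i‖ ≤ p^(-m)`.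
-/

set_option autoImplicit false

namespace Pool.Agent.Lib.MP_e426f4_ag.WAD

open Finset MvPolynomial
open Pool.Agent.Lib.MP_e426f4_ag.DP

private theorem aeval_homW {s : ℕ} {R S : Type} [CommRing R] [CommRing S] (y : Fin s → R)
    (φ : R →+* S) (F : Pol s) : φ (aeval y F) = aeval (fun i => φ (y i)) F := by
  rw [aeval_def, aeval_def, eval₂_eq', eval₂_eq', map_sum]
  refine Finset.sum_congr rfl (fun m _ => ?_)
  simp [map_prod]

private theorem aeval_smul_homW {s d : ℕ} {K : Type} [Field K] (F : Pol s)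
    (hF : F.IsHomogeneous d) (c : K) (x : Fin s → K) :
    aeval (fun i => c * x i) F = c ^ d * aeval x F := by
  rw [aeval_def, aeval_def, eval₂_eq', eval₂_eq', Finset.mul_sum]
  refine Finset.sum_congr rfl (fun m hm => ?_)
  have h1 : ∏ i, (c * x i) ^ m i = c ^ d * ∏ i, x i ^ m i := by
    simp only [mul_pow]
    rw [Finset.prod_mul_distrib, Finset.prod_pow_eq_pow_sum]
    have h2 : ∑ i, m i = d := by
      have h3 := hF (mem_support_iff.1 hm)
      have h4 : (Finsupp.weight (1 : Fin s → ℕ)) m = Finsupp.degree m :=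
        (DFunLike.congr_fun Finsupp.degree_eq_weight_one m).symm
      rw [h4, Finsupp.degree_eq_sum] at h3
      exact h3
    rw [h2]
  rw [h1]
  ring

/-- the sup norm is attained -/
private theorem exists_norm_eq {s p : ℕ} [Fact p.Prime] (ζ : Fin s → ℚ_[p]) (h1 : ‖ζ‖ = 1) :
    ∃ i, ‖ζ i‖ = 1 := by
  by_contra hcon
  push Not at hcon
  have h2 : ∀ i, ‖ζ i‖ < 1 := fun i => lt_of_le_of_ne (h1 ▸ norm_le_pi_norm ζ i) (hcon i)
  have h3 : ‖ζ‖ < 1 := (pi_norm_lt_iff one_pos).2 h2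
  rw [h1] at h3
  exact lt_irrefl _ h3

theorem apx_one {s p : ℕ} [Fact p.Prime] (F : Pol s) (ζ : Fin s → ℚ_[p]) (h1 : ‖ζ‖ = 1)
    (h0 : aeval ζ F = 0) (m : ℕ) (r : Fin s → ℤ)
    (hr : ∀ i, ‖(r i : ℚ_[p]) - ζ i‖ ≤ (p : ℝ) ^ (-(m : ℤ))) : ApxP p m r F := by
  intro n
  have hp : p.Prime := Fact.out
  set M : ℕ := max n m + 1 with hM
  have hy : ∀ i, ‖ζ i‖ ≤ 1 := fun i => h1 ▸ norm_le_pi_norm ζ i
  set y : Fin s → ℤ_[p] := fun i => ⟨ζ i, hy i⟩ with hydef
  have hyF : aeval y F = 0 := by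
    have h2 : ((aeval y F : ℤ_[p]) : ℚ_[p]) = aeval (fun i => ((y i : ℤ_[p]) : ℚ_[p])) F :=
      aeval_homW y (PadicInt.Coe.ringHom (p := p)) F
    have h3 : (fun i => ((y i : ℤ_[p]) : ℚ_[p])) = ζ := rfl
    rw [h3, h0] at h2
    exact Subtype.ext h2
  have : NeZero (p ^ M) := ⟨pow_ne_zero M hp.ne_zero⟩
  set z : Fin s → ℤ := fun i => ((PadicInt.toZModPow M (y i)).val : ℤ) with hzdef
  have hz : ∀ i, ((z i : ℤ) : ZMod (p ^ M)) = PadicInt.toZModPow M (y i) := by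
    intro i
    simp [hzdef]
  have hzn : ∀ i, ‖((z i : ℤ) : ℤ_[p]) - y i‖ ≤ (p : ℝ) ^ (-(M : ℤ)) := by
    intro i
    rw [PadicInt.norm_le_pow_iff_mem_span_pow, ← PadicInt.ker_toZModPow, RingHom.mem_ker,
      map_sub, map_intCast, hz i, sub_self]
  refine ⟨z, ?_, fun i => ?_, ?_⟩
  · obtain ⟨i0, hi0⟩ := exists_norm_eq ζ h1
    refine ⟨i0, fun hdvd => ?_⟩
    have h2 : ‖((z i0 : ℤ) : ℤ_[p])‖ < 1 := (PadicInt.norm_int_lt_one_iff_dvd _).2 hdvd
    have h3 : ‖((z i0 : ℤ) : ℤ_[p]) - y i0‖ < 1 := by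
      refine lt_of_le_of_lt (hzn i0) ?_
      rw [zpow_neg, zpow_natCast]
      apply inv_lt_one_of_one_lt₀
      exact one_lt_pow₀ (by exact_mod_cast hp.one_lt) (by omega)
    have h4 : ‖y i0‖ < 1 := by
      have h5 : y i0 = ((z i0 : ℤ) : ℤ_[p]) + -(((z i0 : ℤ) : ℤ_[p]) - y i0) := by ring
      rw [h5]
      refine lt_of_le_of_lt (PadicInt.nonarchimedean _ _) ?_
      rw [norm_neg]
      exact max_lt h2 h3
    have h6 : ‖y i0‖ = 1 := hi0
    rw [h6] at h4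
    exact lt_irrefl _ h4
  · have h2 : ‖((r i : ℤ) : ℤ_[p]) - y i‖ ≤ (p : ℝ) ^ (-(m : ℤ)) := by
      have h3 := hr i
      have h4 : ‖((r i : ℤ) : ℤ_[p]) - y i‖ = ‖(r i : ℚ_[p]) - ζ i‖ := by
        rw [PadicInt.norm_def]
        simp [hydef]
      rw [h4]
      exact h3
    have hMm : (p : ℝ) ^ (-(M : ℤ)) ≤ (p : ℝ) ^ (-(m : ℤ)) := by
      apply zpow_le_zpow_right₀ (by exact_mod_cast hp.one_lt.le)
      have := le_max_right n m
      omega
    have h5 : ‖((r i - z i : ℤ) : ℤ_[p])‖ ≤ (p : ℝ) ^ (-(m : ℤ)) := by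
      have h6 : ((r i - z i : ℤ) : ℤ_[p]) =
          (((r i : ℤ) : ℤ_[p]) - y i) + -(((z i : ℤ) : ℤ_[p]) - y i) := by
        push_cast
        ring
      rw [h6]
      refine le_trans (PadicInt.nonarchimedean _ _) ?_
      rw [norm_neg]
      exact max_le h2 (le_trans (hzn i) hMm)
    rw [PadicInt.norm_int_le_pow_iff_dvd] at h5
    exact Int.modEq_iff_dvd.2 (by exact_mod_cast h5)
  · have h2 : ((evZ F z : ℤ) : ZMod (p ^ M)) = PadicInt.toZModPow M (aeval y F) := by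
      have h2 := aeval_homW y (PadicInt.toZModPow M) F
      rw [h2]
      have h3 : (fun i => PadicInt.toZModPow M (y i)) = fun i => ((z i : ℤ) : ZMod (p ^ M)) := by
        funext i
        exact (hz i).symm
      rw [h3]
      have h4 := aeval_homW z (Int.castRingHom (ZMod (p ^ M))) F
      have h5 : evZ F z = aeval z F := by
        unfold evZ
        rw [aeval_def, eval₂_eq', eval_eq']
        rfl
      rw [h5]
      exact h4
    rw [hyF, map_zero, ZMod.intCast_zmod_eq_zero_iff_dvd] at h2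
    have h3 : (p : ℤ) ^ n ∣ (p : ℤ) ^ M := pow_dvd_pow _ (by
      have := le_max_left n m
      omega)
    exact dvd_trans h3 (by exact_mod_cast h2)

/-- scaling a zero to norm one -/
theorem zer_one {d s p : ℕ} [Fact p.Prime] (F : Pol s) (hF : F.IsHomogeneous d)
    (h : Zer ℚ_[p] F) : ∃ ζ : Fin s → ℚ_[p], ‖ζ‖ = 1 ∧ aeval ζ F = 0 := by
  obtain ⟨x, hx0, hx⟩ := h
  have hne : (Finset.univ : Finset (Fin s)).Nonempty := by
    by_contra hcon
    rw [Finset.not_nonempty_iff_eq_empty] at hcon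
    apply hx0
    funext i
    exact absurd (Finset.mem_univ i) (by rw [hcon]; simp)
  obtain ⟨i0, -, hi0⟩ := Finset.exists_max_image Finset.univ (fun i => ‖x i‖) hne
  have hxi0 : x i0 ≠ 0 := by
    intro h0
    apply hx0
    funext i
    have h1 := hi0 i (Finset.mem_univ i)
    rw [h0, norm_zero] at h1
    exact norm_le_zero_iff.1 h1
  have hy : ∀ i, ‖(x i0)⁻¹ * x i‖ ≤ 1 := by
    intro i
    rw [norm_mul, norm_inv]
    have h1 := hi0 i (Finset.mem_univ i)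
    have h2 : 0 < ‖x i0‖ := norm_pos_iff.2 hxi0
    rw [inv_mul_le_iff₀ h2, mul_one]
    exact h1
  refine ⟨fun i => (x i0)⁻¹ * x i, le_antisymm ?_ ?_, ?_⟩
  · exact (pi_norm_le_iff_of_nonneg zero_le_one).2 hy
  · have h1 := norm_le_pi_norm (fun i => (x i0)⁻¹ * x i) i0
    simp only [inv_mul_cancel₀ hxi0, norm_one] at h1
    exact h1
  · rw [aeval_smul_homW F hF, hx, mul_zero]

end Pool.Agent.Lib.MP_e426f4_ag.WAD
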