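import Pool.Agent.Lib.MP_e426f4_ag.WAD.Defs
import Pool.Agent.Lib.MP_e426f4_ag.DP.Basic

/-!
# CountTau: classes modulo `W N` (adapt `MavgLowG_card_tau` and `MavgLowG_count_split` of `DP/MavgLowG.lean`)

`Tau = {x ∈ range(W N)^s | W ∣ F(x l), x_i l_i ≡ r_i mod N}`; multiplication by the inverses of the `l_i` modulo `W N` is an injection of
the set counted by `nuC W N r F` into `Tau`.  For `t ≡ tau mod W N`, `tau ∈ Tau`: `W ∣ F(t l)` and `t_i l_i ≡ r_i mod N`.
`Q` is an arbitrary further condition on `t`.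
-/

set_option autoImplicit false

namespace Pool.Agent.Lib.MP_e426f4_ag.WAD

open Finset MvPolynomial
open Pool.Agent.Lib.MP_e426f4_ag.DP

/-- classes modulo `W N` after multiplication by units -/
private theorem countTau_card {s : ℕ} (W N : ℕ) (hW : 1 ≤ W) (hN : 1 ≤ N) (F : Pol s)
    (r : Fin s → ℤ) (l : Fin s → ℕ) (hl : ∀ i, Nat.Coprime (l i) (W * N)) :
    nuC W N r F ≤ (((Fintype.piFinset fun _ : Fin s => range (W * N)).filter
      fun x : Fin s → ℕ => (W : ℤ) ∣ evN F (fun i => x i * l i) ∧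
        ∀ i, ((x i * l i : ℕ) : ℤ) ≡ r i [ZMOD N]).card : ℝ) := by
  classical
  have hWN : 1 ≤ W * N := Nat.mul_pos hW hN
  have hu : ∀ i, ∃ u : ℕ, l i * u ≡ 1 [MOD W * N] := by
    intro i
    obtain ⟨u, -, hu⟩ := Nat.exists_mul_mod_eq_of_coprime 1 (hl i) (by omega)
    exact ⟨u, hu⟩
  choose u hu using hu
  unfold nuC
  rw [Nat.cast_le]
  have hkey : ∀ (x : Fin s → ℕ) (i : Fin s), (x i * u i) % (W * N) * l i ≡ x i [MOD W * N] := by
    intro x i
    calc (x i * u i) % (W * N) * l i ≡ (x i * u i) * l i [MOD W * N] :=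
          (Nat.mod_modEq _ _).mul_right _
      _ = x i * (l i * u i) := by ring
      _ ≡ x i * 1 [MOD W * N] := (hu i).mul_left _
      _ = x i := mul_one _
  refine card_le_card_of_injOn (fun x i => (x i * u i) % (W * N)) ?_ ?_
  · intro x hx
    rw [mem_coe, mem_filter, Fintype.mem_piFinset] at hx
    rw [mem_coe, mem_filter, Fintype.mem_piFinset]
    refine ⟨fun i => mem_range.2 (Nat.mod_lt _ (by omega)), ?_, ?_⟩
    · have h1 : evN F (fun i => (x i * u i) % (W * N) * l i) ≡ evN F x [ZMOD W] := by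
        unfold evN
        exact evZ_congr F _ _ _ fun i => Int.natCast_modEq_iff.2 ((hkey x i).of_mul_right N)
      exact (Int.modEq_zero_iff_dvd.1 (h1.trans (Int.modEq_zero_iff_dvd.2 hx.2.1)))
    · intro i
      exact (Int.natCast_modEq_iff.2 ((hkey x i).of_mul_left W)).trans (hx.2.2 i)
  · intro x hx y hy hxy
    rw [mem_coe, mem_filter, Fintype.mem_piFinset] at hx hy
    funext i
    have h1 := hkey x i
    have h2 := hkey y i
    have h3 : (x i * u i) % (W * N) = (y i * u i) % (W * N) := congrFun hxy i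
    rw [h3] at h1
    have h4 : x i ≡ y i [MOD W * N] := h1.symm.trans h2
    have hx1 := mem_range.1 (hx.1 i)
    have hy1 := mem_range.1 (hy.1 i)
    have h5 : x i % (W * N) = y i % (W * N) := h4
    rwa [Nat.mod_eq_of_lt hx1, Nat.mod_eq_of_lt hy1] at h5

open Classical in
theorem count_tau {s : ℕ} (W N : ℕ) (hW : 1 ≤ W) (hN : 1 ≤ N) (F : Pol s) (r : Fin s → ℤ)
    (l : Fin s → ℕ) (hl : ∀ i, Nat.Coprime (l i) (W * N)) (I : Finset ℕ)
    (Q : (Fin s → ℕ) → Prop) (lo c0 : ℝ) (hlo : 0 ≤ lo) (hc0 : c0 ≤ nuC W N r F)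
    (h : ∀ tau : Fin s → ℕ, lo ≤ (((Fintype.piFinset fun _ : Fin s => I).filter
        fun t : Fin s → ℕ => (∀ i, t i ≡ tau i [MOD W * N]) ∧ Q t).card : ℝ)) :
    c0 * lo ≤ (((Fintype.piFinset fun _ : Fin s => I).filter fun t : Fin s → ℕ =>
        ((W : ℤ) ∣ evN F (fun i => t i * l i) ∧ ∀ i, ((t i * l i : ℕ) : ℤ) ≡ r i [ZMOD N]) ∧
          Q t).card : ℝ) := by
  set Tau := ((Fintype.piFinset fun _ : Fin s => range (W * N)).filter fun x : Fin s → ℕ =>
      (W : ℤ) ∣ evN F (fun i => x i * l i) ∧ ∀ i, ((x i * l i : ℕ) : ℤ) ≡ r i [ZMOD N]) with hTau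
  set A : (Fin s → ℕ) → Finset (Fin s → ℕ) := fun tau =>
    ((Fintype.piFinset fun _ : Fin s => I).filter
        fun t : Fin s → ℕ => (∀ i, t i ≡ tau i [MOD W * N]) ∧ Q t) with hA
  have h1 : c0 * lo ≤ ∑ tau ∈ Tau, ((A tau).card : ℝ) := by
    calc c0 * lo ≤ (Tau.card : ℝ) * lo :=
          mul_le_mul_of_nonneg_right (hc0.trans (countTau_card W N hW hN F r l hl)) hlo
      _ = ∑ tau ∈ Tau, lo := by rw [sum_const, nsmul_eq_mul]
      _ ≤ _ := sum_le_sum fun tau _ => h tau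
  refine h1.trans ?_
  rw [← Nat.cast_sum, Nat.cast_le, ← card_sigma]
  refine card_le_card_of_injOn (fun z => z.2) ?_ ?_
  · rintro ⟨tau, t⟩ hz
    rw [mem_coe, mem_sigma] at hz
    obtain ⟨ht1, ht2⟩ := hz
    simp only [hTau, hA, mem_filter, Fintype.mem_piFinset] at ht1 ht2
    rw [mem_coe, mem_filter, Fintype.mem_piFinset]
    refine ⟨ht2.1, ⟨?_, ?_⟩, ht2.2.2⟩
    · have h2 : evN F (fun i => t i * l i) ≡ evN F (fun i => tau i * l i) [ZMOD W] := by
        unfold evN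
        exact evZ_congr F _ _ _ fun i =>
          Int.natCast_modEq_iff.2 (((ht2.2.1 i).of_mul_right N).mul_right (l i))
      exact (Int.modEq_zero_iff_dvd.1 (h2.trans (Int.modEq_zero_iff_dvd.2 ht1.2.1)))
    · intro i
      exact (Int.natCast_modEq_iff.2 (((ht2.2.1 i).of_mul_left W).mul_right (l i))).trans
        (ht1.2.2 i)
  · rintro ⟨tau, t⟩ hz ⟨tau', t'⟩ hz' heq
    rw [mem_coe, mem_sigma] at hz hz'
    simp only [hTau, hA, mem_filter, Fintype.mem_piFinset] at hz hz'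
    dsimp only at heq
    subst heq
    have : tau = tau' := by
      funext i
      have h4 : tau i ≡ tau' i [MOD W * N] := (hz.2.2.1 i).symm.trans (hz'.2.2.1 i)
      have h5 : tau i % (W * N) = tau' i % (W * N) := h4
      rwa [Nat.mod_eq_of_lt (mem_range.1 (hz.1.1 i)), Nat.mod_eq_of_lt (mem_range.1 (hz'.1.1 i))] at h5
    subst this
    rfl

end Pool.Agent.Lib.MP_e426f4_ag.WAD
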