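import Pool.Agent.Lib.MP_e426f4_ag.DP.Defs

/-!
# Weak approximation for random members of the cosets `G + ∑ a_i x_i ^ d`: definitions

The notation is that of `DP.Defs` (`Pol`, `fm`, `Cb`, `evZ`, `evN`, `evR`, `nuF`, `twist`, `Sgn`, ...).
-/

set_option autoImplicit false

namespace Pool.Agent.Lib.MP_e426f4_ag.WAD

open Finset MvPolynomial
open Pool.Agent.Lib.MP_e426f4_ag.DP
open Pool.Agent.Lib.MP_e426f4_ag.DK (Su)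

/-- as `PosR`, the two points being within `rho` of the point `c` -/
def PosC {s : ℕ} (eta rho : ℝ) (H : ℕ) (c : Fin s → ℝ) (F : Pol s) : Prop :=
  ∃ (j : Fin s) (z z' : Fin s → ℝ), (∀ i, eta ≤ z i ∧ z i ≤ 1) ∧ (∀ i, eta ≤ z' i ∧ z' i ≤ 1) ∧
    (∀ i, i ≠ j → z i = z' i) ∧ (∀ i, |z i - c i| ≤ rho ∧ |z' i - c i| ≤ rho) ∧
    evR F z ≤ -(eta * H) ∧ eta * H ≤ evR F z'

/-- the number of the `x` modulo `W N` with `W ∣ F(x)` and `x ≡ r mod N` -/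
noncomputable def nuC {s : ℕ} (W N : ℕ) (r : Fin s → ℤ) (F : Pol s) : ℝ :=
  (((Fintype.piFinset fun _ : Fin s => range (W * N)).filter fun x : Fin s → ℕ =>
    (W : ℤ) ∣ evN F x ∧ ∀ i, (x i : ℤ) ≡ r i [ZMOD N]).card : ℝ)

/-- a non-trivial integral zero with `|x_i| ^ e ≤ H`, `x ≡ r mod N`, near the half line through `c` -/
def SmallC {s : ℕ} (e H N : ℕ) (rho : ℝ) (r : Fin s → ℤ) (c : Fin s → ℝ) (F : Pol s) : Prop :=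
  ∃ x : Fin s → ℤ, x ≠ 0 ∧ evZ F x = 0 ∧ (∀ i, |x i| ^ e ≤ (H : ℤ)) ∧
    (∀ i, x i ≡ r i [ZMOD N]) ∧ ∃ t : ℝ, 0 < t ∧ ∀ i, |(x i : ℝ) - t * c i| ≤ rho * t

/-- no primitive integral vector is singular modulo `p ^ (k + 1)` -/
def NsP {s : ℕ} (p k : ℕ) (F : Pol s) : Prop :=
  ∀ x : Fin s → ℤ, (∃ i, ¬ (p : ℤ) ∣ x i) → ∃ i, ¬ (p : ℤ) ^ (k + 1) ∣ evZ (pderiv i F) x

/-- primitive zeros modulo all the powers of `p`, congruent to `r` modulo `p ^ m` -/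
def ApxP {s : ℕ} (p m : ℕ) (r : Fin s → ℤ) (F : Pol s) : Prop :=
  ∀ n : ℕ, ∃ x : Fin s → ℤ, (∃ i, ¬ (p : ℤ) ∣ x i) ∧ (∀ i, x i ≡ r i [ZMOD (p : ℤ) ^ m]) ∧
    (p : ℤ) ^ n ∣ evZ F x

/-- all zeros of norm one over `ℝ` and over the `ℚ_p`, `p ≤ w`, are within `1 / w` of one integral zero `x` with
`|x_i| ^ e ≤ H` -/
def WAx {s : ℕ} (w e H : ℕ) (F : Pol s) : Prop :=
  ∀ (y : Fin s → ℝ) (z : (p : ℕ) → [Fact p.Prime] → Fin s → ℚ_[p]), ‖y‖ = 1 → aeval y F = 0 →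
    (∀ (p : ℕ) [Fact p.Prime], p ≤ w → ‖z p‖ = 1 ∧ aeval (z p) F = 0) →
    ∃ x : Fin s → ℤ, x ≠ 0 ∧ evZ F x = 0 ∧ (∀ i, |x i| ^ e ≤ (H : ℤ)) ∧
      (∃ t : ℝ, 0 < t ∧ ∀ i, |(x i : ℝ) / t - y i| ≤ 1 / (w : ℝ)) ∧
      ∀ (p : ℕ) [Fact p.Prime], p ≤ w → ∀ i, ‖(x i : ℚ_[p]) - z p i‖ ≤ 1 / (w : ℝ)

/-- the scale `W ^ u T / 2` of the variables -/
noncomputable def Ysc {d s u l e m w E : ℕ} (S : Su d s u l e m w E) : ℝ :=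
  ((S.W ^ u : ℕ) : ℝ) * (S.T : ℝ) / 2

open Classical in
/-- the variables `y ∈ X` with `y ≡ r_i mod N` and `y / Y` within `2 rho` of `c_i` -/
noncomputable def XC {d s u l e m w E : ℕ} (S : Su d s u l e m w E) (N : ℕ) (rho : ℝ)
    (r : Fin s → ℤ) (c : Fin s → ℝ) (i : Fin s) : Finset ℕ :=
  S.X.filter fun y : ℕ => |(y : ℝ) - Ysc S * c i| ≤ 2 * rho * Ysc S ∧ (y : ℤ) ≡ r i [ZMOD N]

end Pool.Agent.Lib.MP_e426f4_ag.WAD
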