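import Pool.Agent.Lib.MP_e426f4_ag.WAD.UniC

/-!
# DiagW: weak approximation up to `w(H) → ∞`

For `k ≥ 1` let `h k` be the `H0` of `uni_C` for `w = k`, `eps = 1/k`, and `h' k = k + ∑_{j ≤ k} h j` (monotone, `≥ k`, `≥ h k`).  Let `w H` be the greatest
`k ≤ H` with `h' k ≤ H` (`Nat.findGreatest`; `0` if there is none).  `w H ≥ k` for `H ≥ h' k`, so `w → ∞`; for `eps > 0` take
`k0 ≥ max 1 (1/eps)` and `H ≥ h' k0`: `w H ≥ k0 ≥ 1`, `h (w H) ≤ H`, and the count is `≤ H^s / w H ≤ eps H^s`.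
-/

set_option autoImplicit false

namespace Pool.Agent.Lib.MP_e426f4_ag.WAD

open Finset MvPolynomial Filter
open Pool.Agent.Lib.MP_e426f4_ag.DP
open Pool.Agent.Lib.MP_e426f4_ag.DG (box)

open Classical in
theorem exists_w (d s u l e e' : ℕ) (hP : Par d s u l e e') :
    ∃ w : ℕ → ℕ, Tendsto w atTop atTop ∧ ∀ eps : ℝ, 0 < eps →
    ∃ H0 : ℕ, ∀ H : ℕ, H0 ≤ H → ∀ G : Pol s, Cb d (2 * H) G →
    (((box s H).filter fun a : Fin s → ℤ =>
      (∀ (p : ℕ) [Fact p.Prime], Zer ℚ_[p] (fm d G a)) ∧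
      ¬ WAx (w H) e' H (fm d G a)).card : ℝ) ≤ eps * (H : ℝ) ^ s := by
  have key : ∀ k : ℕ, ∃ H0 : ℕ, 1 ≤ k → ∀ H : ℕ, H0 ≤ H → ∀ G : Pol s, Cb d (2 * H) G →
      (((box s H).filter fun a : Fin s → ℤ =>
        (∀ (p : ℕ) [Fact p.Prime], Zer ℚ_[p] (fm d G a)) ∧
        ¬ WAx k e' H (fm d G a)).card : ℝ) ≤ 1 / (k : ℝ) * (H : ℝ) ^ s := by
    intro k
    rcases Nat.eq_zero_or_pos k with h0 | hk
    · exact ⟨0, fun h1 => absurd h1 (by omega)⟩
    · have hkR : (0 : ℝ) < (k : ℝ) := by exact_mod_cast hk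
      obtain ⟨H0, h⟩ := uni_C d s u l e e' hP k hk (1 / (k : ℝ)) (by positivity)
      exact ⟨H0, fun _ => h⟩
  choose h hh using key
  let h' : ℕ → ℕ := fun k => k + ∑ j ∈ range (k + 1), h j
  have hle1 : ∀ k, k ≤ h' k := fun k => Nat.le_add_right _ _
  have hle2 : ∀ k, h k ≤ h' k := by
    intro k
    have h1 : h k ≤ ∑ j ∈ range (k + 1), h j :=
      Finset.single_le_sum (f := h) (fun _ _ => Nat.zero_le _) (Finset.mem_range.2 (by omega))
    exact h1.trans (Nat.le_add_left _ _)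
  have hw : ∀ k H, h' k ≤ H → k ≤ Nat.findGreatest (fun k => h' k ≤ H) H := by
    intro k H hk
    exact Nat.le_findGreatest ((hle1 k).trans hk) hk
  refine ⟨fun H => Nat.findGreatest (fun k => h' k ≤ H) H, ?_, ?_⟩
  · rw [tendsto_atTop]
    intro b
    filter_upwards [eventually_ge_atTop (h' b)] with H hH
    exact hw b H hH
  · intro eps heps
    refine ⟨h' (max 1 ⌈1 / eps⌉₊), ?_⟩
    intro H hH G hG
    have h1 := hw _ H hH
    have h2 : h' (Nat.findGreatest (fun k => h' k ≤ H) H) ≤ H :=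
      Nat.findGreatest_spec (P := fun k => h' k ≤ H) ((hle1 _).trans hH) hH
    have h3 : 1 ≤ Nat.findGreatest (fun k => h' k ≤ H) H := (le_max_left _ _).trans h1
    have h4 : 1 / eps ≤ (Nat.findGreatest (fun k => h' k ≤ H) H : ℝ) := by
      refine (Nat.le_ceil (1 / eps)).trans ?_
      exact_mod_cast (le_max_right 1 ⌈1 / eps⌉₊).trans h1
    refine (hh _ h3 H ((hle2 _).trans h2) G hG).trans ?_
    have h5 : 1 / (Nat.findGreatest (fun k => h' k ≤ H) H : ℝ) ≤ eps := by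
      have h6 : (0 : ℝ) < (Nat.findGreatest (fun k => h' k ≤ H) H : ℝ) := by exact_mod_cast h3
      rw [div_le_iff₀ h6]
      rw [div_le_iff₀ heps] at h4
      linarith
    exact mul_le_mul_of_nonneg_right h5 (by positivity)

end Pool.Agent.Lib.MP_e426f4_ag.WAD
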