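import Pool.Agent.Lib.MP_e426f4_ag.WAD.Defs
import Pool.Agent.Lib.MP_e426f4_ag.DP.Basic

/-!
# RealCountC: lattice points near a real sign change, near `c` (adapt `DP/RealCountG.lean`)

The same proof with `δ = min (eta / (6 CL)) (min (eta / 2) rho)`.  With `v_i = t_i l_i / Y`, `Y = L T / 2`: `z_i - δ ≤ v_i ≤ z_i` for
`i ≠ j`, and `v_j` lies between `z_j` and `z'_j` (`rg_line` gives `a ≤ t ≤ b`, `a = min(z_j, z'_j)/r_j`, `b = max(..)/r_j`);
`z`, `z'` are within `rho` of `c`, so `|v_i - c_i| ≤ rho + δ ≤ 2 rho` for all `i`.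
-/

set_option autoImplicit false

namespace Pool.Agent.Lib.MP_e426f4_ag.WAD

open Finset MvPolynomial
open Pool.Agent.Lib.MP_e426f4_ag.DP

/-- a discrete sign change: the number of small values -/
private theorem rg_disc (g : ℕ → ℝ) (m : ℕ) (st e : ℝ) (hst : 0 < st) (he : 0 ≤ e)
    (hstep : ∀ k < m, |g (k + 1) - g k| ≤ st) (h0 : g 0 ≤ 0) (hm : e < g m) :
    ⌊e / st⌋₊ ≤ ((range (m + 1)).filter fun k => |g k| ≤ e).card := by
  classical
  have hex : ∃ k, 0 < g k := ⟨m, lt_of_le_of_lt he hm⟩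
  obtain ⟨k0, hk0, hk0', hk0m⟩ : ∃ k0, 0 < g k0 ∧ (∀ k < k0, g k ≤ 0) ∧ k0 ≤ m :=
    ⟨Nat.find hex, Nat.find_spec hex, fun k hk => not_lt.1 (Nat.find_min hex hk),
      Nat.find_min' hex (lt_of_le_of_lt he hm)⟩
  have hk00 : k0 ≠ 0 := by
    rintro rfl
    linarith
  have hcl : ∀ i : ℕ, ((i : ℝ) + 1) * st ≤ e →
      k0 + i ≤ m ∧ |g (k0 + i)| ≤ ((i : ℝ) + 1) * st := by
    intro i
    induction i with
    | zero =>
      intro _
      refine ⟨by omega, ?_⟩
      obtain ⟨k1, rfl⟩ : ∃ k1, k0 = k1 + 1 := ⟨k0 - 1, by omega⟩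
      have h1 := hstep k1 (by omega)
      have h2 := hk0' k1 (by omega)
      have h3 := (abs_le.1 h1).2
      rw [add_zero, abs_of_pos hk0]
      push_cast
      linarith
    | succ i ih =>
      intro h
      push_cast at h
      have h1 : ((i : ℝ) + 1) * st ≤ e := by linarith
      obtain ⟨h2, h3⟩ := ih h1
      have h4 : k0 + i ≠ m := by
        intro h5
        rw [h5] at h3
        have := le_abs_self (g m)
        linarith
      have h5 := hstep (k0 + i) (by omega)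
      refine ⟨by omega, ?_⟩
      have h6 : g (k0 + (i + 1)) = (g (k0 + i + 1) - g (k0 + i)) + g (k0 + i) := by
        rw [← add_assoc]
        ring
      rw [h6]
      refine (abs_add_le _ _).trans ?_
      push_cast
      linarith
  have h1 : ⌊e / st⌋₊ = (range ⌊e / st⌋₊).card := (card_range _).symm
  conv_lhs => rw [h1]
  apply Finset.card_le_card_of_injOn (fun i => k0 + i)
  · intro i hi
    have hi : i < ⌊e / st⌋₊ := by simpa using hi
    have h2 : (((i + 1 : ℕ)) : ℝ) ≤ e / st := by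
      refine le_trans ?_ (Nat.floor_le (by positivity))
      exact_mod_cast hi
    rw [le_div_iff₀ hst] at h2
    push_cast at h2
    obtain ⟨h3, h4⟩ := hcl i h2
    rw [Finset.mem_coe, Finset.mem_filter, Finset.mem_range]
    exact ⟨Nat.lt_succ_of_le h3, h4.trans h2⟩
  · intro i _ k _ hik
    simp only at hik
    omega

private theorem rg_disc' (g : ℕ → ℝ) (m : ℕ) (st e : ℝ) (hst : 0 < st) (he : 0 ≤ e)
    (hstep : ∀ k < m, |g (k + 1) - g k| ≤ st)
    (h : (g 0 ≤ 0 ∧ e < g m) ∨ (0 ≤ g 0 ∧ g m < -e)) :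
    ⌊e / st⌋₊ ≤ ((range (m + 1)).filter fun k => |g k| ≤ e).card := by
  rcases h with ⟨h1, h2⟩ | ⟨h1, h2⟩
  · exact rg_disc g m st e hst he hstep h1 h2
  · have h3 := rg_disc (fun k => -g k) m st e hst he (fun k hk => by
      have h4 := hstep k hk
      rw [← abs_neg] at h4
      refine le_trans (le_of_eq ?_) h4
      congr 1
      ring) (by linarith) (by linarith)
    simp only [abs_neg] at h3
    exact h3

/-- an arithmetic progression which fills an interval -/
private theorem rg_ap (a b : ℝ) (ha : 0 ≤ a) (W tau : ℕ) (hW : 1 ≤ W) (hab : a + W ≤ b) :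
    ∃ t0 m : ℕ, t0 ≡ tau [MOD W] ∧ a ≤ t0 ∧ (t0 : ℝ) ≤ a + W ∧ (t0 : ℝ) + m * W ≤ b ∧
      b ≤ (t0 : ℝ) + m * W + W := by
  have hW0 : (0 : ℝ) < W := by exact_mod_cast hW
  set m0 := ⌈a⌉₊ with hm0
  have hm1 : a ≤ m0 := Nat.le_ceil a
  have hm2 : (m0 : ℝ) < a + 1 := Nat.ceil_lt_add_one ha
  set e := (tau + (W - 1) * m0) % W with he
  have heW : e < W := Nat.mod_lt _ (by omega)
  have hme : m0 + e ≡ tau [MOD W] := by
    have h1 : e ≡ tau + (W - 1) * m0 [MOD W] := Nat.mod_modEq _ _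
    have h2 : m0 + e ≡ m0 + (tau + (W - 1) * m0) [MOD W] := h1.add_left m0
    have h3 : m0 + (tau + (W - 1) * m0) = tau + W * m0 := by
      obtain ⟨w, rfl⟩ : ∃ w, W = w + 1 := ⟨W - 1, by omega⟩
      simp only [Nat.add_sub_cancel]; ring
    rw [h3] at h2
    have h4 : tau + W * m0 ≡ tau [MOD W] := by
      unfold Nat.ModEq
      rw [Nat.add_mul_mod_self_left]
    exact h2.trans h4
  have her : (e : ℝ) + 1 ≤ W := by exact_mod_cast heW
  have ht0 : ((m0 + e : ℕ) : ℝ) ≤ a + W := by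
    push_cast
    linarith
  have hnn : 0 ≤ (b - ((m0 + e : ℕ) : ℝ)) / W := div_nonneg (by linarith) hW0.le
  refine ⟨m0 + e, ⌊(b - ((m0 + e : ℕ) : ℝ)) / W⌋₊, hme, ?_, ht0, ?_, ?_⟩
  · push_cast
    have : (0 : ℝ) ≤ e := Nat.cast_nonneg _
    linarith
  · have h1 := Nat.floor_le hnn
    rw [le_div_iff₀ hW0] at h1
    linarith
  · have h1 := (Nat.lt_floor_add_one ((b - ((m0 + e : ℕ) : ℝ)) / W)).le
    rw [div_le_iff₀ hW0] at h1
    linarith

/-- integers of a residue class in an interval -/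
private theorem rg_class (a b : ℝ) (ha : 0 < a) (W tau T : ℕ) (hW : 1 ≤ W)
    (hab : a + 2 * W ≤ b) (hT : b ≤ T) :
    (b - a) / (2 * W) ≤ ((((Icc 1 T).filter fun t : ℕ => a ≤ t ∧ (t : ℝ) ≤ b ∧
      t ≡ tau [MOD W]).card : ℕ) : ℝ) := by
  have hW0 : (0 : ℝ) < W := by exact_mod_cast hW
  obtain ⟨t0, m, h1, h2, h3, h4, h5⟩ := rg_ap a b ha.le W tau hW (by linarith)
  have hcard : m + 1 ≤ ((Icc 1 T).filter fun t : ℕ => a ≤ t ∧ (t : ℝ) ≤ b ∧
      t ≡ tau [MOD W]).card := by
    have h6 : m + 1 = (range (m + 1)).card := (card_range _).symm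
    conv_lhs => rw [h6]
    apply Finset.card_le_card_of_injOn (fun k => t0 + k * W)
    · intro k hk
      have hk : k < m + 1 := by simpa using hk
      have hkm : (k : ℝ) ≤ m := by exact_mod_cast (by omega : k ≤ m)
      have hup : ((t0 + k * W : ℕ) : ℝ) ≤ b := by
        push_cast
        have : (k : ℝ) * W ≤ m * W := mul_le_mul_of_nonneg_right hkm hW0.le
        linarith
      have hlo : a ≤ ((t0 + k * W : ℕ) : ℝ) := by
        push_cast
        have : (0 : ℝ) ≤ (k : ℝ) * W := by positivity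
        linarith
      simp only [Finset.coe_filter, Finset.mem_Icc]
      refine ⟨⟨?_, ?_⟩, hlo, hup, ?_⟩
      · have : (0 : ℝ) < ((t0 + k * W : ℕ) : ℝ) := by linarith
        have h7 : 0 < t0 + k * W := by exact_mod_cast this
        omega
      · have : ((t0 + k * W : ℕ) : ℝ) ≤ T := hup.trans hT
        exact_mod_cast this
      · have h7 : t0 + k * W ≡ t0 [MOD W] := by
          unfold Nat.ModEq
          rw [Nat.add_mul_mod_self_right]
        exact h7.trans h1
    · intro k _ k' _ hkk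
      simp only at hkk
      have : k * W = k' * W := by omega
      exact Nat.eq_of_mul_eq_mul_right (by omega) this
  have h6 : ((m : ℝ) + 1) ≤ ((((Icc 1 T).filter fun t : ℕ => a ≤ t ∧ (t : ℝ) ≤ b ∧
      t ≡ tau [MOD W]).card : ℕ) : ℝ) := by exact_mod_cast hcard
  refine le_trans ?_ h6
  rw [div_le_iff₀ (by positivity)]
  nlinarith

/-- the values along a line -/
private theorem rg_line {d s : ℕ} {CL : ℝ} (hCL : 0 < CL)
    (hlip : ∀ (K : ℕ) (F : Pol s), Cb d K F →
      ∀ (x y : Fin s → ℝ) (δ : ℝ), 0 ≤ δ → (∀ i, |x i| ≤ 1 ∧ |y i| ≤ 1 ∧ |x i - y i| ≤ δ) →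
      |evR F x - evR F y| ≤ CL * K * δ)
    (H W tau : ℕ) (hW : 1 ≤ W) (F : Pol s) (hF : Cb d (3 * H) F)
    (j : Fin s) (v : Fin s → ℝ) (hv : ∀ i, i ≠ j → |v i| ≤ 1) (r : ℝ) (hr : 0 < r) (a b : ℝ)
    (ha : 0 ≤ a) (hb : b * r ≤ 1) (A e st : ℝ) (hst0 : 0 < st)
    (hst : CL * (3 * H) * (W * r) ≤ st) (he : 0 ≤ e) (hA : e + st < A) (hab : a ≤ b)
    (hend : (evR F (Function.update v j (a * r)) ≤ -A ∧ A ≤ evR F (Function.update v j (b * r))) ∨
      (A ≤ evR F (Function.update v j (a * r)) ∧ evR F (Function.update v j (b * r)) ≤ -A)) :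
    ∃ B : Finset ℕ, ⌊e / st⌋₊ ≤ B.card ∧ ∀ t ∈ B, t ≡ tau [MOD W] ∧ a ≤ t ∧ (t : ℝ) ≤ b ∧
      |evR F (Function.update v j (t * r))| ≤ e := by
  classical
  have hW0 : (0 : ℝ) < W := by exact_mod_cast hW
  -- Lipschitz condition
  have hL : ∀ x y : ℝ, 0 ≤ x → x ≤ b → 0 ≤ y → y ≤ b → |x - y| ≤ W →
      |evR F (Function.update v j (x * r)) - evR F (Function.update v j (y * r))| ≤ st := by
    intro x y hx hxb hy hyb hxy
    have h1 := hlip (3 * H) F hF (Function.update v j (x * r)) (Function.update v j (y * r))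
      (W * r) (by positivity) (by
        intro i
        by_cases hi : i = j
        · subst hi
          rw [Function.update_self, Function.update_self]
          have hxr : x * r ≤ b * r := mul_le_mul_of_nonneg_right hxb hr.le
          have hyr : y * r ≤ b * r := mul_le_mul_of_nonneg_right hyb hr.le
          refine ⟨?_, ?_, ?_⟩
          · rw [abs_of_nonneg (by positivity)]
            linarith
          · rw [abs_of_nonneg (by positivity)]
            linarith
          · rw [← sub_mul, abs_mul, abs_of_pos hr]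
            exact mul_le_mul_of_nonneg_right hxy hr.le
        · rw [Function.update_of_ne hi, Function.update_of_ne hi]
          refine ⟨hv i hi, hv i hi, ?_⟩
          rw [sub_self, abs_zero]
          positivity)
    push_cast at h1
    exact h1.trans hst
  have hb0 : 0 ≤ b := ha.trans hab
  have haW : a + W ≤ b := by
    by_contra hc
    push Not at hc
    have h1 := hL a b ha hab hb0 le_rfl (by rw [abs_sub_comm, abs_of_nonneg] <;> linarith)
    obtain ⟨h2, h3⟩ := abs_le.1 h1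
    rcases hend with ⟨h4, h5⟩ | ⟨h4, h5⟩ <;> linarith
  obtain ⟨t0, m, g1, g2, g3, g4, g5⟩ := rg_ap a b ha W tau hW haW
  have hkb : ∀ k : ℕ, k ≤ m → (t0 : ℝ) + k * W ≤ b := by
    intro k hk
    have h1 : (k : ℝ) ≤ m := by exact_mod_cast hk
    have h2 : (k : ℝ) * W ≤ m * W := mul_le_mul_of_nonneg_right h1 hW0.le
    linarith
  have hka : ∀ k : ℕ, a ≤ (t0 : ℝ) + k * W := by
    intro k
    have h1 : (0 : ℝ) ≤ (k : ℝ) * W := by positivity
    linarith
  obtain ⟨g, hg⟩ : ∃ g : ℕ → ℝ, g = fun k : ℕ =>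
    evR F (Function.update v j (((t0 : ℝ) + k * W) * r)) := ⟨_, rfl⟩
  have hstep : ∀ k < m, |g (k + 1) - g k| ≤ st := by
    intro k hk
    rw [hg]
    refine hL _ _ (ha.trans (hka _)) (hkb _ (by omega)) (ha.trans (hka _)) (hkb _ hk.le) ?_
    push_cast
    rw [abs_of_nonneg] <;> nlinarith
  have h0 : |g 0 - evR F (Function.update v j (a * r))| ≤ st := by
    rw [hg]
    refine hL _ _ (ha.trans (hka _)) (hkb _ (Nat.zero_le _)) ha hab ?_
    push_cast
    rw [zero_mul, add_zero, abs_of_nonneg] <;> linarith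
  have hm : |evR F (Function.update v j (b * r)) - g m| ≤ st := by
    rw [hg]
    refine hL _ _ hb0 le_rfl (ha.trans (hka _)) (hkb _ le_rfl) ?_
    rw [abs_of_nonneg] <;> linarith
  obtain ⟨h01, h02⟩ := abs_le.1 h0
  obtain ⟨hm1, hm2⟩ := abs_le.1 hm
  have hcnt := rg_disc' g m st e hst0 he hstep (by
    rcases hend with ⟨h4, h5⟩ | ⟨h4, h5⟩
    · left
      constructor <;> linarith
    · right
      constructor <;> linarith)
  refine ⟨((range (m + 1)).filter fun k => |g k| ≤ e).image fun k => t0 + k * W, ?_, ?_⟩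
  · rw [card_image_of_injective]
    · exact hcnt
    · intro k k' hkk
      simp only at hkk
      have : k * W = k' * W := by omega
      exact Nat.eq_of_mul_eq_mul_right (by omega) this
  · intro t ht
    obtain ⟨k, hk, rfl⟩ := mem_image.1 ht
    rw [mem_filter, mem_range] at hk
    have hcast : ((t0 + k * W : ℕ) : ℝ) = (t0 : ℝ) + k * W := by push_cast; ring
    rw [hcast]
    refine ⟨?_, hka k, hkb k (by omega), ?_⟩
    · have h7 : t0 + k * W ≡ t0 [MOD W] := by
        unfold Nat.ModEq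
        rw [Nat.add_mul_mod_self_right]
      exact h7.trans g1
    · have h8 := hk.2
      rw [hg] at h8
      exact h8

/-- the injection `(u, t) ↦ update u j0 t` -/
private theorem rg_inj {s : ℕ} (j0 : Fin s) (B : Finset (Fin s → ℕ))
    (A : (Fin s → ℕ) → Finset ℕ) (S : Finset (Fin s → ℕ)) (hB : ∀ u ∈ B, u j0 = 0)
    (h : ∀ u ∈ B, ∀ t ∈ A u, Function.update u j0 t ∈ S) :
    ∑ u ∈ B, (A u).card ≤ S.card := by
  rw [← Finset.card_sigma]
  apply Finset.card_le_card_of_injOn (fun z : (_ : Fin s → ℕ) × ℕ => Function.update z.1 j0 z.2)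
  · rintro ⟨u, t⟩ hut
    rw [Finset.mem_coe, Finset.mem_sigma] at hut
    exact h u hut.1 t hut.2
  · rintro ⟨u, t⟩ hut ⟨u', t'⟩ hut' heq
    rw [Finset.mem_coe, Finset.mem_sigma] at hut hut'
    simp only at heq
    have h1 : t = t' := by
      have := congrFun heq j0
      simpa using this
    have h2 : u = u' := by
      funext k
      by_cases hk : k = j0
      · rw [hk, hB u hut.1, hB u' hut'.1]
      · have := congrFun heq k
        simpa [Function.update_of_ne hk] using this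
    subst h1 h2
    rfl

theorem real_countC (d s Fc : ℕ) (hd : 1 ≤ d) (hs : 1 ≤ s) (hF : 1 ≤ Fc) (eta rho : ℝ)
    (heta : 0 < eta) (heta1 : eta ≤ 1) (hrho : 0 < rho) :
    ∃ (E : ℕ) (c3 e1 : ℝ), 2 ≤ E ∧ 0 < c3 ∧ 0 < e1 ∧ ∀ (W : ℕ) (eps : ℝ), 1 ≤ W → 0 < eps →
    eps ≤ e1 →
    ∃ T0 : ℕ, ∀ (T L H : ℕ) (K : ℝ), T0 ≤ T → 1 ≤ L → 1 ≤ H →
    K = eps * H * (Fc * (L : ℝ) * T) ^ d → ∀ (F : Pol s), Cb d (3 * H) F → ∀ c : Fin s → ℝ,
    PosC eta rho H c F →
    ∀ (l : Fin s → ℕ), (∀ i, L < l i ∧ l i ≤ Fc * L) → ∀ (tau : Fin s → ℕ),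
    c3 * eps * ((T : ℝ) / W) ^ s ≤
      (((Fintype.piFinset fun _ : Fin s => (Icc 1 T).filter fun t => T < E * t).filter
        fun t : Fin s → ℕ => (∀ i, t i ≡ tau i [MOD W]) ∧
          (∀ i, |(t i : ℝ) * (l i : ℝ) - (L : ℝ) * (T : ℝ) / 2 * c i| ≤
            2 * rho * ((L : ℝ) * (T : ℝ) / 2)) ∧
          |evR F (fun i => (t i : ℝ) * (l i : ℝ))| ≤ K).card : ℝ) := by
  classical
  obtain ⟨CL, hCL, hlip⟩ := ev_lip d s
  have hFc0 : (1 : ℝ) ≤ (Fc : ℝ) := by exact_mod_cast hF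
  obtain ⟨δ, hδ⟩ : ∃ δ, δ = min (eta / (6 * CL)) (min (eta / 2) rho) := ⟨_, rfl⟩
  have hδ0 : 0 < δ := by
    rw [hδ]; exact lt_min (by positivity) (lt_min (by positivity) hrho)
  have hδ1 : δ ≤ eta / 2 := by
    rw [hδ]; exact (min_le_right _ _).trans (min_le_left _ _)
  have hδr : δ ≤ rho := by
    rw [hδ]; exact (min_le_right _ _).trans (min_le_right _ _)
  have hδ2 : CL * (3 * δ) ≤ eta / 2 := by
    have h1 : δ ≤ eta / (6 * CL) := by rw [hδ]; exact min_le_left _ _
    rw [le_div_iff₀ (by positivity)] at h1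
    linarith
  obtain ⟨E, hE⟩ : ∃ E : ℕ, E = ⌈4 * (Fc : ℝ) / eta⌉₊ + 1 := ⟨_, rfl⟩
  have hE1 : 4 * (Fc : ℝ) / eta < E := by
    rw [hE]; push_cast
    have := Nat.le_ceil (4 * (Fc : ℝ) / eta)
    linarith
  have hE2 : 2 ≤ E := by
    have : 0 < ⌈4 * (Fc : ℝ) / eta⌉₊ := Nat.ceil_pos.2 (by positivity)
    omega
  refine ⟨E, (δ / (4 * Fc)) ^ (s - 1) / (12 * CL * Fc), eta / 8, hE2, by positivity,
    by positivity, ?_⟩
  intro W eps hW heps hepse
  have hW0 : (1 : ℝ) ≤ W := by exact_mod_cast hW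
  refine ⟨⌈48 * CL * W * Fc / eta⌉₊ + ⌈4 * W * Fc / δ⌉₊ + ⌈6 * CL * W * Fc / eps⌉₊ + 1, ?_⟩
  intro T L H K hT hL hH hK F hFC c hpos l hl tau
  have hTa : 48 * CL * W * Fc / eta ≤ T := by
    have h1 := Nat.le_ceil (48 * CL * W * Fc / eta)
    have h2' : ⌈48 * CL * W * Fc / eta⌉₊ ≤ T := by omega
    have h2 : ((⌈48 * CL * W * Fc / eta⌉₊ : ℕ) : ℝ) ≤ T := Nat.cast_le.2 h2'
    linarith
  have hTb : 4 * W * Fc / δ ≤ T := by
    have h1 := Nat.le_ceil (4 * W * Fc / δ)
    have h2' : ⌈4 * W * Fc / δ⌉₊ ≤ T := by omega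
    have h2 : ((⌈4 * W * Fc / δ⌉₊ : ℕ) : ℝ) ≤ T := Nat.cast_le.2 h2'
    linarith
  have hTc : 6 * CL * W * Fc / eps ≤ T := by
    have h1 := Nat.le_ceil (6 * CL * W * Fc / eps)
    have h2' : ⌈6 * CL * W * Fc / eps⌉₊ ≤ T := by omega
    have h2 : ((⌈6 * CL * W * Fc / eps⌉₊ : ℕ) : ℝ) ≤ T := Nat.cast_le.2 h2'
    linarith
  have hT0 : (0 : ℝ) < T := by exact_mod_cast (by omega : 0 < T)
  rw [div_le_iff₀ (by positivity)] at hTa hTb hTc
  have hL0 : (1 : ℝ) ≤ L := by exact_mod_cast hL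
  have hH0 : (1 : ℝ) ≤ H := by exact_mod_cast hH
  obtain ⟨j, z, z', hz, hz', hzz, hzc, hFz, hFz'⟩ := hpos
  obtain ⟨Y, hY⟩ : ∃ Y : ℝ, Y = L * T / 2 := ⟨_, rfl⟩
  have hY0 : 0 < Y := by rw [hY]; positivity
  obtain ⟨r, hr⟩ : ∃ r : Fin s → ℝ, r = fun i => (l i : ℝ) / Y := ⟨_, rfl⟩
  have hlr : ∀ k, (L : ℝ) < l k ∧ (l k : ℝ) ≤ Fc * L := fun k =>
    ⟨by exact_mod_cast (hl k).1, by exact_mod_cast (hl k).2⟩
  have hr0 : ∀ i, 0 < r i := fun i => by
    rw [hr]
    exact div_pos (by linarith [(hlr i).1]) hY0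
  have hrT : ∀ i, 2 ≤ r i * T := fun i => by
    rw [hr]
    show 2 ≤ (l i : ℝ) / Y * T
    rw [div_mul_eq_mul_div, le_div_iff₀ hY0, hY]
    nlinarith [(hlr i).1]
  have hrF : ∀ i, r i * T ≤ 2 * Fc := fun i => by
    rw [hr]
    show (l i : ℝ) / Y * T ≤ 2 * Fc
    rw [div_mul_eq_mul_div, div_le_iff₀ hY0, hY]
    nlinarith [(hlr i).2]
  -- the base sets
  let Bs : Fin s → Finset ℕ := fun k =>
    if k = j then {0} else (Icc 1 T).filter fun t : ℕ =>
      (z k - δ) / r k ≤ t ∧ (t : ℝ) ≤ z k / r k ∧ t ≡ tau k [MOD W]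
  have hzT : ∀ x : ℝ, x ≤ 1 → ∀ i, x / r i ≤ T := by
    intro x hx i
    rw [div_le_iff₀ (hr0 i), mul_comm]
    linarith [hrT i]
  have hzE : ∀ x : ℝ, eta / 2 ≤ x → ∀ i, eta * T / (4 * Fc) ≤ x / r i := by
    intro x hx i
    rw [div_le_div_iff₀ (by positivity) (hr0 i)]
    have h1 := hrF i
    calc eta * T * r i = eta * (r i * T) := by ring
      _ ≤ eta * (2 * Fc) := by gcongr
      _ = (eta / 2) * (4 * Fc) := by ring
      _ ≤ x * (4 * Fc) := by gcongr
  have hlen : ∀ i, δ * T / (2 * Fc) ≤ δ / r i := by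
    intro i
    rw [div_le_div_iff₀ (by positivity) (hr0 i)]
    have h1 := hrF i
    calc δ * T * r i = δ * (r i * T) := by ring
      _ ≤ δ * (2 * Fc) := by gcongr
  have hlenW : 2 * (W : ℝ) ≤ δ * T / (2 * Fc) := by
    rw [le_div_iff₀ (by positivity)]
    linarith
  have hBs : ∀ k, k ≠ j → δ * T / (4 * Fc * W) ≤ ((Bs k).card : ℝ) := by
    intro k hk
    have hzk := hz k
    have h0 : z k / r k - (z k - δ) / r k = δ / r k := by ring
    have h1 := rg_class ((z k - δ) / r k) (z k / r k)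
      (div_pos (by linarith) (hr0 k)) W (tau k) T hW (by linarith [hlen k]) (hzT _ hzk.2 k)
    simp only [Bs, if_neg hk]
    refine le_trans ?_ h1
    rw [h0]
    have h2 : δ * T / (4 * Fc * W) = (δ * T / (2 * Fc)) / (2 * W) := by
      field_simp
      norm_num
    rw [h2]
    exact div_le_div_of_nonneg_right (hlen k) (by positivity)
  have hmem : ∀ u ∈ Fintype.piFinset Bs, ∀ k, k ≠ j → u k ∈ Icc 1 T ∧ (z k - δ) / r k ≤ u k ∧
      (u k : ℝ) ≤ z k / r k ∧ u k ≡ tau k [MOD W] := by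
    intro u hu k hk
    have h1 := Fintype.mem_piFinset.1 hu k
    simp only [Bs, if_neg hk, Finset.mem_filter] at h1
    exact h1
  have hmem0 : ∀ u ∈ Fintype.piFinset Bs, u j = 0 := by
    intro u hu
    have h1 := Fintype.mem_piFinset.1 hu j
    simpa [Bs] using h1
  -- the constants of the last variable
  obtain ⟨st, hst⟩ : ∃ st : ℝ, st = 6 * CL * H * W * Fc / T := ⟨_, rfl⟩
  have hst0 : 0 < st := by rw [hst]; positivity
  have hst1 : st ≤ eta * H / 8 := by
    rw [hst, div_le_iff₀ hT0]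
    nlinarith
  have hst2 : CL * (3 * H) * (W * r j) ≤ st := by
    rw [hst, le_div_iff₀ hT0]
    calc CL * (3 * H) * (W * r j) * T = 3 * CL * H * W * (r j * T) := by ring
      _ ≤ 3 * CL * H * W * (2 * Fc) := by
          refine mul_le_mul_of_nonneg_left (hrF j) (by positivity)
      _ = _ := by ring
  have hfloor : eps * T / (12 * CL * Fc * W) ≤ (⌊eps * H / st⌋₊ : ℝ) := by
    have h1 : eps * H / st = eps * T / (6 * CL * Fc * W) := by
      rw [hst]
      field_simp
    have h2 : 1 ≤ eps * T / (6 * CL * Fc * W) := by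
      rw [le_div_iff₀ (by positivity)]
      linarith
    have h3 := Nat.lt_floor_add_one (eps * H / st)
    rw [h1] at h3 ⊢
    have h4 : eps * T / (6 * CL * Fc * W) = 2 * (eps * T / (12 * CL * Fc * W)) := by
      field_simp
      norm_num
    have h5 : (1 : ℝ) ≤ (⌊eps * T / (6 * CL * Fc * W)⌋₊ : ℝ) := by
      have : 1 ≤ ⌊eps * T / (6 * CL * Fc * W)⌋₊ := Nat.one_le_floor_iff _ |>.2 h2
      exact_mod_cast this
    rw [h4] at h3 h5 ⊢
    linarith
  have hstepj : ∀ u ∈ Fintype.piFinset Bs, ∃ A : Finset ℕ, eps * T / (12 * CL * Fc * W) ≤ A.card ∧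
      ∀ t ∈ A, t ≡ tau j [MOD W] ∧ eta / 2 / r j ≤ t ∧ (t : ℝ) ≤ T ∧
      |(t : ℝ) * r j - c j| ≤ 2 * rho ∧
      |evR F (fun i => ((Function.update u j t i : ℕ) : ℝ) * (l i : ℝ))| ≤ K := by
    intro u hu
    obtain ⟨v, hv⟩ : ∃ v : Fin s → ℝ, v = fun i => (u i : ℝ) * r i := ⟨_, rfl⟩
    have hvi : ∀ i, i ≠ j → z i - δ ≤ v i ∧ v i ≤ z i := by
      intro i hi
      obtain ⟨-, h2, h3, -⟩ := hmem u hu i hi
      rw [div_le_iff₀ (hr0 i)] at h2
      rw [le_div_iff₀ (hr0 i)] at h3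
      rw [hv]
      exact ⟨h2, h3⟩
    have hv1 : ∀ i, i ≠ j → |v i| ≤ 1 := by
      intro i hi
      have h1 := hvi i hi
      have h2 := hz i
      rw [abs_le]
      constructor <;> linarith
    -- comparison with the values of `PosR`
    have hcmp : ∀ x : Fin s → ℝ, (∀ i, eta ≤ x i ∧ x i ≤ 1) → (∀ i, i ≠ j → x i = z i) →
        |evR F (Function.update v j (x j)) - evR F x| ≤ eta * H / 2 := by
      intro x hx hxz
      have h1 := hlip (3 * H) F hFC (Function.update v j (x j)) x δ hδ0.le (by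
        intro i
        have h2 := hx i
        by_cases hi : i = j
        · subst hi
          rw [Function.update_self, sub_self, abs_zero]
          refine ⟨?_, ?_, hδ0.le⟩ <;> rw [abs_le] <;> constructor <;> linarith
        · rw [Function.update_of_ne hi]
          have h3 := hvi i hi
          have h4 := hxz i hi
          refine ⟨hv1 i hi, ?_, ?_⟩ <;> rw [abs_le] <;> constructor <;> linarith)
      refine h1.trans ?_
      push_cast
      nlinarith
    have hc1 := abs_le.1 (hcmp z hz (fun i _ => rfl))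
    have hc2 := abs_le.1 (hcmp z' hz' (fun i hi => (hzz i hi).symm))
    have hrj := hr0 j
    have hdm : ∀ x : ℝ, x / r j * r j = x := fun x => div_mul_cancel₀ x hrj.ne'
    have hmin1 : eta ≤ min (z j) (z' j) := le_min (hz j).1 (hz' j).1
    have hmax1 : max (z j) (z' j) ≤ 1 := max_le (hz j).2 (hz' j).2
    obtain ⟨A, hA1, hA2⟩ := rg_line hCL hlip H W (tau j) hW F hFC j v hv1 (r j) hrj
      (min (z j) (z' j) / r j) (max (z j) (z' j) / r j)
      (div_nonneg (by linarith) hrj.le) (by rw [hdm]; exact hmax1) (eta * H / 2) (eps * H) st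
      hst0 hst2 (by positivity) (by nlinarith)
      (div_le_div_of_nonneg_right (min_le_max) hrj.le) (by
        rw [hdm, hdm]
        rcases le_total (z j) (z' j) with h | h
        · left
          rw [min_eq_left h, max_eq_right h]
          constructor <;> linarith
        · right
          rw [min_eq_right h, max_eq_left h]
          constructor <;> linarith)
    refine ⟨A, hfloor.trans (by exact_mod_cast hA1), ?_⟩
    intro t ht
    obtain ⟨q1, q2, q3, q4⟩ := hA2 t ht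
    refine ⟨q1, ?_, q3.trans (hzT _ hmax1 j), ?_, ?_⟩
    · refine le_trans ?_ q2
      exact div_le_div_of_nonneg_right (by linarith) hrj.le
    · rw [div_le_iff₀ hrj] at q2
      rw [le_div_iff₀ hrj] at q3
      obtain ⟨w1, w2⟩ := abs_le.1 (hzc j).1
      obtain ⟨w3, w4⟩ := abs_le.1 (hzc j).2
      have hm1 : c j - rho ≤ min (z j) (z' j) := le_min (by linarith) (by linarith)
      have hm2 : max (z j) (z' j) ≤ c j + rho := max_le (by linarith) (by linarith)
      rw [abs_le]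
      constructor <;> linarith
    · have h1 : (fun i => ((Function.update u j t i : ℕ) : ℝ) * (l i : ℝ)) =
          fun i => Y * Function.update v j (t * r j) i := by
        funext i
        by_cases hi : i = j
        · subst hi
          rw [Function.update_self, Function.update_self, hr]
          field_simp
        · rw [Function.update_of_ne hi, Function.update_of_ne hi, hv, hr]
          field_simp
      rw [h1, evR_smul hFC.1, abs_mul, abs_of_pos (pow_pos hY0 d), hK]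
      have h2 : Y ^ d ≤ (Fc * (L : ℝ) * T) ^ d := by
        refine pow_le_pow_left₀ hY0.le ?_ d
        rw [hY]
        have h3 : (0 : ℝ) < L * T := by positivity
        nlinarith
      calc Y ^ d * |evR F (Function.update v j (t * r j))|
          ≤ (Fc * (L : ℝ) * T) ^ d * (eps * H) :=
            mul_le_mul h2 q4 (abs_nonneg _) (by positivity)
        _ = _ := by ring
  choose! A hA1 hA2 using hstepj
  have hETbig : ∀ v : ℕ, eta * T / (4 * Fc) ≤ v → 1 ≤ v ∧ T < E * v := by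
    intro v hv
    have h0 : 0 < eta * T / (4 * Fc) := by positivity
    have h1 : (T : ℝ) < E * v := by
      calc (T : ℝ) = (4 * (Fc : ℝ) / eta) * (eta * T / (4 * Fc)) := by field_simp
        _ < E * (eta * T / (4 * Fc)) := mul_lt_mul_of_pos_right hE1 h0
        _ ≤ E * v := by gcongr
    refine ⟨?_, by exact_mod_cast h1⟩
    have h2 : (0 : ℝ) < v := lt_of_lt_of_le h0 hv
    exact_mod_cast h2
  have hcount : ∑ u ∈ Fintype.piFinset Bs, (A u).card ≤
      ((Fintype.piFinset fun _ : Fin s => (Icc 1 T).filter fun t => T < E * t).filter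
        fun t : Fin s → ℕ => (∀ i, t i ≡ tau i [MOD W]) ∧
          (∀ i, |(t i : ℝ) * (l i : ℝ) - (L : ℝ) * (T : ℝ) / 2 * c i| ≤
            2 * rho * ((L : ℝ) * (T : ℝ) / 2)) ∧
          |evR F (fun i => (t i : ℝ) * (l i : ℝ))| ≤ K).card := by
    apply rg_inj j (Fintype.piFinset Bs) A _ hmem0
    intro u hu t ht
    obtain ⟨g1, g2, g3, g5, g4⟩ := hA2 u hu t ht
    rw [Finset.mem_filter, Fintype.mem_piFinset]
    refine ⟨fun k => ?_, fun k => ?_, fun k => ?_, g4⟩
    · rw [Finset.mem_filter, Finset.mem_Icc]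
      by_cases hk : k = j
      · rw [hk, Function.update_self]
        have h1 := hETbig t ((hzE (eta / 2) le_rfl j).trans g2)
        exact ⟨⟨h1.1, by exact_mod_cast g3⟩, h1.2⟩
      · rw [Function.update_of_ne hk]
        obtain ⟨h1, h2, -, -⟩ := hmem u hu k hk
        rw [Finset.mem_Icc] at h1
        exact ⟨h1, (hETbig _ ((hzE (z k - δ) (by linarith [(hz k).1]) k).trans h2)).2⟩
    · by_cases hk : k = j
      · rw [hk, Function.update_self]; exact g1
      · rw [Function.update_of_ne hk]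
        exact (hmem u hu k hk).2.2.2
    · have hYL : (L : ℝ) * (T : ℝ) / 2 = Y := hY.symm
      rw [hYL]
      have hkey : ∀ q : ℝ, |q * r k - c k| ≤ 2 * rho → |q * (l k : ℝ) - Y * c k| ≤ 2 * rho * Y := by
        intro q hq
        have h1 : q * (l k : ℝ) - Y * c k = Y * (q * r k - c k) := by
          rw [hr]
          field_simp
        rw [h1, abs_mul, abs_of_pos hY0, mul_comm]
        exact mul_le_mul_of_nonneg_right hq hY0.le
      apply hkey
      by_cases hk : k = j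
      · rw [hk, Function.update_self]; exact g5
      · rw [Function.update_of_ne hk]
        obtain ⟨-, h2, h3, -⟩ := hmem u hu k hk
        rw [div_le_iff₀ (hr0 k)] at h2
        rw [le_div_iff₀ (hr0 k)] at h3
        obtain ⟨w1, w2⟩ := abs_le.1 (hzc k).1
        rw [abs_le]
        constructor <;> linarith
  have hcount' : ((∑ u ∈ Fintype.piFinset Bs, (A u).card : ℕ) : ℝ) ≤
      ((((Fintype.piFinset fun _ : Fin s => (Icc 1 T).filter fun t => T < E * t).filter
        fun t : Fin s → ℕ => (∀ i, t i ≡ tau i [MOD W]) ∧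
          (∀ i, |(t i : ℝ) * (l i : ℝ) - (L : ℝ) * (T : ℝ) / 2 * c i| ≤
            2 * rho * ((L : ℝ) * (T : ℝ) / 2)) ∧
          |evR F (fun i => (t i : ℝ) * (l i : ℝ))| ≤ K).card : ℕ) : ℝ) := by
    exact_mod_cast hcount
  refine le_trans ?_ hcount'
  have hprod : (δ * T / (4 * Fc * W)) ^ (s - 1) ≤ ((Fintype.piFinset Bs).card : ℝ) := by
    rw [Fintype.card_piFinset, Nat.cast_prod, ← Finset.mul_prod_erase univ _ (Finset.mem_univ j)]
    have h1 : ((Bs j).card : ℝ) = 1 := by simp [Bs]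
    rw [h1, one_mul]
    calc (δ * T / (4 * Fc * W)) ^ (s - 1) = ∏ _k ∈ univ.erase j, (δ * T / (4 * Fc * W)) := by
          rw [Finset.prod_const, Finset.card_erase_of_mem (Finset.mem_univ j), Finset.card_univ,
            Fintype.card_fin]
      _ ≤ ∏ k ∈ univ.erase j, ((Bs k).card : ℝ) := by
          apply Finset.prod_le_prod
          · intro k _; positivity
          · intro k hk; exact hBs k (Finset.ne_of_mem_erase hk)
  obtain ⟨ρ, hρ⟩ : ∃ ρ : ℝ, ρ = eps * T / (12 * CL * Fc * W) := ⟨_, rfl⟩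
  have hρ0 : 0 ≤ ρ := by rw [hρ]; positivity
  have hsum : ((Fintype.piFinset Bs).card : ℝ) * ρ ≤
      ((∑ u ∈ Fintype.piFinset Bs, (A u).card : ℕ) : ℝ) := by
    push_cast
    calc ((Fintype.piFinset Bs).card : ℝ) * ρ = ∑ _u ∈ Fintype.piFinset Bs, ρ := by
          rw [Finset.sum_const, nsmul_eq_mul]
      _ ≤ ∑ u ∈ Fintype.piFinset Bs, ((A u).card : ℝ) :=
          Finset.sum_le_sum fun u hu => by rw [hρ]; exact hA1 u hu
  refine le_trans ?_ hsum
  calc (δ / (4 * Fc)) ^ (s - 1) / (12 * CL * Fc) * eps * ((T : ℝ) / W) ^ s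
      = (δ * T / (4 * Fc * W)) ^ (s - 1) * ρ := by
        have hs1 : s = (s - 1) + 1 := by omega
        have h1 : ((T : ℝ) / W) ^ s = ((T : ℝ) / W) ^ (s - 1) * (T / W) := by
          conv_lhs => rw [hs1, pow_succ]
        have h2 : δ * T / (4 * Fc * W) = (δ / (4 * Fc)) * (T / W) := by field_simp
        rw [h1, h2, mul_pow, hρ]
        field_simp
    _ ≤ ((Fintype.piFinset Bs).card : ℝ) * ρ := by gcongr

end Pool.Agent.Lib.MP_e426f4_ag.WAD
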