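import Pool.Agent.Lib.MP_e426f4_ag.WAD.MavgAC
import Pool.Agent.Lib.MP_e426f4_ag.WAD.CountTau
import Pool.Agent.Lib.MP_e426f4_ag.WAD.RealCountC

/-!
# MavgLowC: the lower bound of the average (adapt `Mavgg_lower` of `DP/MavgLowG.lean`)

`real_countC` with the modulus `W N`, `W = om!`, and `Fc = 4^u`, `L = S.W^u` (`Ysc S = L T / 2` by definition), `count_tau` with
`Q t = (real condition) ∧ |evR ..| ≤ W J`, `MavgC_ge`.  The additional factor `N^{-s}` of `(T / (W N))^s` goes into `c3`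
(`c3 := c3' / (6 N^s)` with the `c3'` of `real_countC`).  The primes dividing the `l_i` are `> S.W ≥ S.R ≥ om + N`, so `l_i` is prime
to `om! N`.
-/

set_option autoImplicit false

namespace Pool.Agent.Lib.MP_e426f4_ag.WAD

open Finset MvPolynomial
open Pool.Agent.Lib.MP_e426f4_ag.DP
open Pool.Agent.Lib.MP_e426f4_ag.DK (Su)

theorem MavgC_lower (d s u N : ℕ) (hd : 1 ≤ d) (hs : 1 ≤ s) (hN : 1 ≤ N) (eta rho : ℝ)
    (heta : 0 < eta) (heta1 : eta ≤ 1) (hrho : 0 < rho) :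
    ∃ (E : ℕ) (c3 e1 : ℝ), 2 ≤ E ∧ 0 < c3 ∧ 0 < e1 ∧
    ∀ (om l e m w : ℕ) (eps : ℝ), 1 ≤ om → 0 < eps → eps ≤ e1 →
    ∃ R0 : ℕ, ∀ (S : Su d s u l e m w E) (J : ℕ), R0 ≤ S.R →
    J = ⌊eps * S.H * (S.B : ℝ) ^ d / om.factorial⌋₊ →
    ∀ (G : Pol s) (a : Fin s → ℤ) (c0 : ℝ) (r : Fin s → ℤ) (c : Fin s → ℝ), 0 < c0 →
    Cb d (2 * S.H) G → (∀ i, |a i| ≤ (S.H : ℤ)) → PosC eta rho S.H c (fm d G a) →
    c0 * ((om.factorial : ℕ) : ℝ) ^ (s - 1) ≤ nuC om.factorial N r (fm d G a) →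
    c0 * c3 * S.XX ^ s / ((S.H : ℝ) * (S.B : ℝ) ^ d) ≤
      Mavgg S.P d om.factorial J (XC S N rho r c) (gP S.P G)
        (fun i => ((a i : ℤ) : ZMod S.P)) := by
  classical
  obtain ⟨E, c3', e1, hE, hc3', he1, hcount⟩ := real_countC d s (4 ^ u) hd hs
    (Nat.one_le_pow _ _ (by norm_num)) eta rho heta heta1 hrho
  have hNr : (1 : ℝ) ≤ N := by exact_mod_cast hN
  have hNs : (0 : ℝ) < (N : ℝ) ^ s := by positivity
  obtain ⟨c3, hc3def⟩ : ∃ c3 : ℝ, c3 = c3' / (N : ℝ) ^ s := ⟨_, rfl⟩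
  have hc3 : 0 < c3 := by rw [hc3def]; positivity
  refine ⟨E, c3 / 6, min e1 1, hE, by positivity, by positivity, ?_⟩
  intro om l e m w eps hom heps heps1
  set W := om.factorial with hWdef
  have hW : 1 ≤ W := Nat.factorial_pos om
  have hWN : 1 ≤ W * N := Nat.mul_pos hW hN
  obtain ⟨T0, hT0⟩ := hcount (W * N) (eps / 2) hWN (by positivity)
    ((by linarith : eps / 2 ≤ eps).trans (heps1.trans (min_le_left _ _)))
  refine ⟨T0 + om + N + ⌈2 * (W : ℝ) / eps⌉₊ + 1, ?_⟩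
  intro S J hR hJ G a c0 r c hc0 hG ha hpos hnu
  obtain ⟨-, -, hel, hlu, -, hum, hmw, -, -⟩ := S.nums
  have hHpos : 0 < S.H := S.n_facts.2.2.2.2.2.2
  have hH1 : (1 : ℝ) ≤ S.H := by exact_mod_cast hHpos
  have hRpos : 1 ≤ S.R := S.R_pos
  have hWr : (1 : ℝ) ≤ W := by exact_mod_cast hW
  have hBR : S.R ≤ S.B := by
    have h1 : S.R ≤ S.R ^ (w * u + m) := Nat.le_self_pow (by omega) _
    have h2 : S.B = 4 ^ u * S.R ^ (w * u + m) := rfl
    rw [h2]
    exact h1.trans (Nat.le_mul_of_pos_left _ (by positivity))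
  have hBr : (S.R : ℝ) ≤ (S.B : ℝ) ^ d := by
    have h1 : S.R ≤ S.B ^ d := hBR.trans (Nat.le_self_pow (by omega) _)
    exact_mod_cast h1
  set Y : ℝ := (S.H : ℝ) * (S.B : ℝ) ^ d with hY
  have hYR : (S.R : ℝ) ≤ Y := by
    calc (S.R : ℝ) ≤ (S.B : ℝ) ^ d := hBr
      _ = 1 * (S.B : ℝ) ^ d := (one_mul _).symm
      _ ≤ Y := mul_le_mul_of_nonneg_right hH1 (by positivity)
  have hYpos : 0 < Y := lt_of_lt_of_le (by exact_mod_cast hRpos) hYR
  have hbig : 2 * (W : ℝ) ≤ eps * Y := by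
    have h1 : 2 * (W : ℝ) / eps ≤ S.R := by
      refine (Nat.le_ceil _).trans ?_
      exact_mod_cast (by omega : ⌈2 * (W : ℝ) / eps⌉₊ ≤ S.R)
    have h2 : 2 * (W : ℝ) / eps ≤ Y := h1.trans hYR
    rw [div_le_iff₀ heps] at h2
    linarith
  have hJ1 : (J : ℝ) ≤ eps * Y / W := by
    rw [hJ]
    have : eps * S.H * (S.B : ℝ) ^ d / (W : ℝ) = eps * Y / W := by rw [hY]; ring
    rw [this]
    exact Nat.floor_le (by positivity)
  have hJ2 : eps * Y / W - 1 ≤ (J : ℝ) := by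
    rw [hJ]
    have : eps * S.H * (S.B : ℝ) ^ d / (W : ℝ) = eps * Y / W := by rw [hY]; ring
    rw [this]
    have := Nat.lt_floor_add_one (eps * Y / W)
    linarith
  have hWJ2 : eps / 2 * Y ≤ (W : ℝ) * J := by
    have h1 := mul_le_mul_of_nonneg_left hJ2 (by linarith : (0 : ℝ) ≤ W)
    rw [mul_sub, mul_div_cancel₀ _ (by linarith : (W : ℝ) ≠ 0), mul_one] at h1
    linarith
  have hCb : Cb d (3 * S.H) (fm d G a) := by
    have h1 := Cb_fm hd hG a ha
    have h2 : 2 * S.H + S.H = 3 * S.H := by ring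
    rwa [h2] at h1
  have hmain := MavgC_ge S W J hW G a N rho r c
  -- lower bound for each l
  have hBMLT : (S.B : ℝ) = ((4 ^ u : ℕ) : ℝ) * ((S.W ^ u : ℕ) : ℝ) * (S.T : ℝ) := by
    rw [S.B_eq]
    push_cast
    ring
  have hWR : S.R ≤ S.W := Nat.le_self_pow (by omega) _
  have hlow : ∀ l ∈ Fintype.piFinset (fun _ : Fin s => S.LM),
      (c0 * (W : ℝ) ^ (s - 1)) * (c3' * (eps / 2) * ((S.T : ℝ) / (W * N : ℕ)) ^ s) ≤
      (((Fintype.piFinset fun _ : Fin s => S.I).filter fun t : Fin s → ℕ =>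
        ((W : ℤ) ∣ evN (fm d G a) (fun i => t i * l i) ∧
          ∀ i, ((t i * l i : ℕ) : ℤ) ≡ r i [ZMOD N]) ∧
        (∀ i, |(t i : ℝ) * (l i : ℝ) - Ysc S * c i| ≤ 2 * rho * Ysc S) ∧
          |evR (fm d G a) (fun i => (t i : ℝ) * (l i : ℝ))| ≤ (W : ℝ) * J).card : ℝ) := by
    intro l hl
    rw [Fintype.mem_piFinset] at hl
    have hcop : ∀ i, Nat.Coprime (l i) (W * N) := by
      intro i
      obtain ⟨z, hz, hzl⟩ := (S.LM_mem _).1 (hl i)
      rw [hWdef, hzl]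
      refine Nat.Coprime.prod_left ?_
      intro c _
      have h1 := S.hPS c c.2 _ ((S.PF_mem u z).1 hz c)
      have h3 : om + N < z c := by
        have h4 : S.W < z c := h1.2.1
        omega
      refine Nat.Coprime.mul_right ?_ ?_
      · exact (Nat.coprime_factorial_iff h1.1.ne_one).2 (by rw [h1.1.minFac_eq]; omega)
      · exact (Nat.Prime.coprime_iff_not_dvd h1.1).2 fun hdv => by
          have := Nat.le_of_dvd (by omega) hdv
          omega
    have hct := count_tau W N hW hN (fm d G a) r l hcop S.I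
      (fun t => (∀ i, |(t i : ℝ) * (l i : ℝ) - Ysc S * c i| ≤ 2 * rho * Ysc S) ∧
          |evR (fm d G a) (fun i => (t i : ℝ) * (l i : ℝ))| ≤ (W : ℝ) * J)
      (c3' * (eps / 2) * ((S.T : ℝ) / (W * N : ℕ)) ^ s) (c0 * (W : ℝ) ^ (s - 1))
      (by positivity) hnu ?_
    · refine hct.trans (le_of_eq ?_)
      congr!
    · intro tau
      have hTR : S.R ≤ S.T := Nat.le_self_pow (by omega) _
      refine (hT0 S.T (S.W ^ u) S.H _ (by omega) (Nat.one_le_pow _ _ S.W_pos) hHpos rfl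
        (fm d G a) hCb c hpos l (fun i => S.LM_bounds _ (hl i)) tau).trans ?_
      rw [Nat.cast_le]
      refine card_le_card fun t ht => ?_
      obtain ⟨ht1, ht2, ht3, ht4⟩ := mem_filter.1 ht
      refine (@mem_filter _ _ (_) _ _).2 ⟨ht1, ht2, ht3, ht4.trans ?_⟩
      have : eps / 2 * S.H * (((4 ^ u : ℕ) : ℝ) * ((S.W ^ u : ℕ) : ℝ) * (S.T : ℝ)) ^ d =
          eps / 2 * Y := by
        rw [hY, hBMLT]
        ring
      rw [this]
      exact hWJ2
  -- the number of the products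
  have hTcard := S.I_card_ge
  have hTpos := S.T_pos
  set C0 : ℝ := (S.p : ℝ) ^ u with hC0
  have hLMcard : (S.LM.card : ℝ) = C0 := S.LM_card
  have hC0nn : 0 ≤ C0 := by rw [hC0]; positivity
  have hsum : C0 ^ s *
      ((c0 * (W : ℝ) ^ (s - 1)) * (c3' * (eps / 2) * ((S.T : ℝ) / (W * N : ℕ)) ^ s)) ≤
      (2 * J + 1) * Mavgg S.P d W J (XC S N rho r c) (gP S.P G)
        (fun i => ((a i : ℤ) : ZMod S.P)) := by
    refine le_trans ?_ hmain
    have h1 := sum_le_sum hlow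
    rw [sum_const, nsmul_eq_mul, Fintype.card_piFinset] at h1
    refine le_trans (le_of_eq ?_) h1
    congr 1
    push_cast
    rw [prod_congr rfl (fun i _ => hLMcard), prod_const, card_univ, Fintype.card_fin]
  -- the final estimate
  have hXX : S.XX ≤ (S.T : ℝ) * C0 := by
    unfold Su.XX
    rw [← hC0]
    refine mul_le_mul_of_nonneg_right ?_ hC0nn
    exact_mod_cast S.I_card_le
  have hXX0 : 0 ≤ S.XX := by unfold Su.XX; positivity
  have hXXs : S.XX ^ s ≤ ((S.T : ℝ) * C0) ^ s :=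
    pow_le_pow_left₀ hXX0 hXX s
  clear_value C0
  have hWne : (W : ℝ) ≠ 0 := by linarith
  have hWs : (W : ℝ) ^ s = (W : ℝ) ^ (s - 1) * W := by
    rw [← pow_succ]; congr 1; omega
  have hL : c0 * (c3 * (eps / 2)) * S.XX ^ s / W ≤
      (2 * J + 1) * Mavgg S.P d W J (XC S N rho r c) (gP S.P G)
        (fun i => ((a i : ℤ) : ZMod S.P)) := by
    refine le_trans ?_ hsum
    have : C0 ^ s *
      ((c0 * (W : ℝ) ^ (s - 1)) * (c3' * (eps / 2) * ((S.T : ℝ) / (W * N : ℕ)) ^ s)) =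
      c0 * (c3 * (eps / 2)) * ((S.T : ℝ) * C0) ^ s / W := by
      rw [hc3def]
      push_cast
      rw [div_pow, mul_pow (W : ℝ), hWs, mul_pow]
      have : (W : ℝ) ^ (s - 1) ≠ 0 := pow_ne_zero _ hWne
      have : (N : ℝ) ^ s ≠ 0 := hNs.ne'
      field_simp
    rw [this]
    gcongr
  have h2J : (2 * (J : ℝ) + 1) ≤ 3 * (eps * Y / W) := by
    have h1 : 1 ≤ eps * Y / W := by
      rw [le_div_iff₀ (by linarith)]
      linarith
    linarith
  have hMavg0 : 0 ≤ Mavgg S.P d W J (XC S N rho r c) (gP S.P G)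
        (fun i => ((a i : ℤ) : ZMod S.P)) := by
    unfold Mavgg
    refine div_nonneg (sum_nonneg fun j _ => ?_) (by linarith [Nat.cast_nonneg (α := ℝ) J])
    exact Nat.cast_nonneg _
  have hfin := hL.trans (mul_le_mul_of_nonneg_right h2J hMavg0)
  rw [div_le_iff₀ hYpos]
  have h3 : c0 * (c3 * (eps / 2)) * S.XX ^ s / W = (eps / W) * 3 * (c0 * (c3 / 6) * S.XX ^ s) := by
    ring
  have h4 : 3 * (eps * Y / W) * Mavgg S.P d W J (XC S N rho r c) (gP S.P G)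
        (fun i => ((a i : ℤ) : ZMod S.P)) =
      (eps / W) * 3 * (Mavgg S.P d W J (XC S N rho r c) (gP S.P G)
        (fun i => ((a i : ℤ) : ZMod S.P)) * Y) := by
    ring
  rw [h3, h4] at hfin
  exact le_of_mul_le_mul_left hfin (by positivity)

end Pool.Agent.Lib.MP_e426f4_ag.WAD
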