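import Pool.Agent.Lib.MP_e426f4_ag.WAD.Defs
import Pool.Agent.Lib.MP_e426f4_ag.DG.Ker1

/-!
# RhsMono: the right-hand side is monotone in the sets

`FF P n d X b b' = ∑_{x, x' ∈ X} wh(..)` with `wh ≥ 0` (`DG.wh_nonneg`) is monotone in `X`; products and sums of non-negative terms.
-/

set_option autoImplicit false

namespace Pool.Agent.Lib.MP_e426f4_ag.WAD

open Finset
open Pool.Agent.Lib.MP_e426f4_ag.DG (FF FZ wh)
open Pool.Agent.Lib.MP_e426f4_ag.DH (rhsG)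

theorem rhsG_mono {s : ℕ} (P : ℕ) [NeZero P] (n d : ℕ) (X Y : Fin s → Finset ℕ)
    (h : ∀ i, X i ⊆ Y i) (φ : ZMod P → ℝ) (hφ : ∀ b, 0 ≤ φ b) :
    rhsG P n d X φ ≤ rhsG P n d Y φ := by
  have hFZ : ∀ (Z Z' : Finset (ℕ × ℕ)), Z ⊆ Z' → ∀ b b' : ZMod P,
      FZ P n d Z b b' ≤ FZ P n d Z' b b' := by
    intro Z Z' hZ b b'
    unfold FZ
    exact Finset.sum_le_sum_of_subset_of_nonneg hZ fun z _ _ => DG.wh_nonneg n _
  have hFZ0 : ∀ (Z : Finset (ℕ × ℕ)) (b b' : ZMod P), 0 ≤ FZ P n d Z b b' := by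
    intro Z b b'
    unfold FZ
    exact Finset.sum_nonneg fun z _ => DG.wh_nonneg n _
  unfold rhsG
  refine mul_le_mul_of_nonneg_left ?_ (by positivity)
  refine Finset.sum_le_sum fun b _ => Finset.sum_le_sum fun b' _ => ?_
  refine mul_le_mul_of_nonneg_left ?_ (mul_nonneg (hφ b) (hφ b'))
  refine Finset.prod_le_prod (fun i _ => hFZ0 _ _ _) fun i _ => ?_
  exact hFZ _ _ (Finset.product_subset_product (h i) (h i)) _ _

end Pool.Agent.Lib.MP_e426f4_ag.WAD
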