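import Pool.Agent.Lib.MP_e426f4_ag.WAD.NZeroC
import Pool.Agent.Lib.MP_e426f4_ag.WAD.MavgLowC
import Pool.Agent.Lib.MP_e426f4_ag.WAD.RhsMono
import Pool.Agent.Lib.MP_e426f4_ag.DP.SuG
import Pool.Agent.Lib.MP_e426f4_ag.DL.RhsL
import Pool.Agent.Lib.MP_e426f4_ag.DP.BadG

/-!
# FinalC: few forms with good local conditions in a cell have no small zero there (adapt `DP/FinalW.lean`)

As `final_W` with `MavgC_lower`, `NNC_eq_zero`, `XC S N rho r c` in place of the constant family `S.X`, and `rhsG_mono`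
(`XC ⊆ S.X`) after `bad_countG`.
-/

set_option autoImplicit false

namespace Pool.Agent.Lib.MP_e426f4_ag.WAD

open Finset MvPolynomial
open Pool.Agent.Lib.MP_e426f4_ag.DP
open Pool.Agent.Lib.MP_e426f4_ag.DG (box)

open Classical in
theorem final_C (d s u l e e' N : ℕ) (hP : Par d s u l e e') (eta rho c0 eps : ℝ)
    (heta : 0 < eta) (heta1 : eta ≤ 1) (hrho : 0 < rho) (hN : 1 ≤ N) (hc0 : 0 < c0)
    (heps : 0 < eps) :
    ∃ om : ℕ, 1 ≤ om ∧ ∃ H0 : ℕ, ∀ H : ℕ, H0 ≤ H → ∀ G : Pol s, Cb d (2 * H) G →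
    ∀ (r : Fin s → ℤ) (c : Fin s → ℝ),
    (((box s H).filter fun a : Fin s → ℤ => PosC eta rho H c (fm d G a) ∧
      c0 * ((om.factorial : ℕ) : ℝ) ^ (s - 1) ≤ nuC om.factorial N r (fm d G a) ∧
      ¬ SmallC e' H N (2 * rho) r c (fm d G a)).card : ℝ) ≤ eps * (H : ℝ) ^ s := by
  obtain ⟨hd, hs, hle, hlu, hul, hC, he', he'd⟩ := hP
  have hd1 : 1 ≤ d := by omega
  obtain ⟨E, c3, e1, hE, hc3, he1, hMl⟩ := MavgC_lower d s u N hd1 (by omega) hN eta rho heta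
    heta1 hrho
  obtain ⟨om, e0, R0, hom, he0, hrhs⟩ := DL.rhs_smallL d s u l e E hC
    (eps * (c0 * c3) ^ 2 / (3 * 16 ^ s)) (by positivity)
  obtain ⟨Cst, hNN⟩ := NNC_eq_zero d s hd1
  have hm : 4 * u + 20 ≤ 4 * DK.m4v d u := by
    unfold DK.m4v
    have h1 : 1 * (2 * u + 4) ≤ (d + 1) * (d + 1) * (2 * u + 4) :=
      Nat.mul_le_mul_right _ (Nat.mul_pos (Nat.succ_pos d) (Nat.succ_pos d))
    have h2 : 64 * (d + 1) * (d + 1) * (2 * u + 4) = 64 * ((d + 1) * (d + 1) * (2 * u + 4)) := by ring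
    rw [h2]
    omega
  have hmw : DK.cW d s u * (4 * DK.m4v d u) ≤ DK.wv d s u := le_rfl
  obtain ⟨R1, hR1⟩ := hMl om l e (4 * DK.m4v d u) (DK.wv d s u) (min e0 e1) hom (lt_min he0 he1)
    (min_le_right _ _)
  obtain ⟨H3, hH3⟩ := exists_suG d s u l e (4 * DK.m4v d u) (DK.wv d s u) E (max R0 R1) Cst hd
    (by omega) hle hlu hul hm hmw hE
  refine ⟨om, hom, H3, fun H hH G hG r c => ?_⟩
  obtain ⟨S, hSH, hSR, hSP⟩ := hH3 H hH
  subst hSH
  have hR0 : R0 ≤ S.R := le_trans (le_max_left _ _) hSR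
  have hR1' : R1 ≤ S.R := le_trans (le_max_right _ _) hSR
  set J : ℕ := ⌊min e0 e1 * S.H * (S.B : ℝ) ^ d / om.factorial⌋₊ with hJ
  have hfac : (0 : ℝ) < om.factorial := by exact_mod_cast Nat.factorial_pos om
  obtain ⟨hn0, hnP, hnH, hP8, hPB, h2H, hHpos⟩ := S.n_facts
  have hJle : (om.factorial : ℝ) * J ≤ e0 * S.H * (S.B : ℝ) ^ d := by
    have : (J : ℝ) ≤ min e0 e1 * S.H * (S.B : ℝ) ^ d / om.factorial :=
      Nat.floor_le (by positivity)
    calc (om.factorial : ℝ) * J ≤ om.factorial * (min e0 e1 * S.H * (S.B : ℝ) ^ d / om.factorial) := by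
          gcongr
      _ = min e0 e1 * S.H * (S.B : ℝ) ^ d := by field_simp
      _ ≤ e0 * S.H * (S.B : ℝ) ^ d := by
          gcongr
          exact min_le_left _ _
  obtain ⟨φ1, φ2, φ3, hφ1, hφ2, hφ3, hφ, hr⟩ := hrhs J S hR0 hJle
  have hHpos' : (0 : ℝ) < S.H := by exact_mod_cast hHpos
  have hB1 := S.B_pos
  have hBpos : (0 : ℝ) < S.B := by exact_mod_cast hB1
  obtain ⟨hXl, hXu⟩ := S.XX_bounds
  have hRpos : (0 : ℝ) < S.R := by exact_mod_cast S.R_pos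
  have hXpos : 0 < S.XX := lt_of_lt_of_le (by positivity) hXl
  -- the cell is contained in the full box
  have hsub : ∀ i : Fin s, XC S N rho r c i ⊆ S.X := fun i => Finset.filter_subset _ _
  -- the bad set
  set A := (box s S.H).filter (fun a : Fin s → ℤ => PosC eta rho S.H c (fm d G a) ∧
      c0 * ((om.factorial : ℕ) : ℝ) ^ (s - 1) ≤ nuC om.factorial N r (fm d G a) ∧
      ¬ SmallC e' S.H N (2 * rho) r c (fm d G a)) with hAd
  have hbox : ∀ a ∈ A, ∀ i, |a i| ≤ (S.H : ℤ) := by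
    intro a ha
    rw [hAd, Finset.mem_filter] at ha
    exact (mem_box s S.H a).1 ha.1
  have hcount : (A.card : ℝ) * (c0 * c3 * S.XX ^ s / ((S.H : ℝ) * (S.B : ℝ) ^ d)) ^ 2 ≤
      2 ^ s * (3 * (DH.rhsG S.P S.n d (XC S N rho r c) φ1 +
        DH.rhsG S.P S.n d (XC S N rho r c) φ2 + DH.rhsG S.P S.n d (XC S N rho r c) φ3)) := by
    refine bad_countG S.P S.n d om.factorial J S.H hn0 hnH h2H (XC S N rho r c) (gP S.P G) A
      hbox _ (by positivity) ?_ ?_ φ1 φ2 φ3 hφ1 hφ2 hφ3 hφ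
    · intro a ha
      have ha' := ha
      rw [hAd, Finset.mem_filter] at ha'
      exact hNN u l e (4 * DK.m4v d u) (DK.wv d s u) E e' S he' he'd hSP G a N rho r c hG
        (hbox a ha) ha'.2.2.2
    · intro a ha
      have ha' := ha
      rw [hAd, Finset.mem_filter] at ha'
      exact hR1 S J hR1' hJ G a c0 r c hc0 hG (hbox a ha) ha'.2.1 ha'.2.2.1
  have hmono : DH.rhsG S.P S.n d (XC S N rho r c) φ1 +
        DH.rhsG S.P S.n d (XC S N rho r c) φ2 + DH.rhsG S.P S.n d (XC S N rho r c) φ3 ≤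
      DH.rhsG S.P S.n d (fun _ : Fin s => S.X) φ1 +
        DH.rhsG S.P S.n d (fun _ : Fin s => S.X) φ2 + DH.rhsG S.P S.n d (fun _ : Fin s => S.X) φ3 :=
    add_le_add (add_le_add
      (rhsG_mono S.P S.n d (XC S N rho r c) (fun _ : Fin s => S.X) hsub φ1 hφ2)
      (rhsG_mono S.P S.n d (XC S N rho r c) (fun _ : Fin s => S.X) hsub φ2 hφ3))
      (rhsG_mono S.P S.n d (XC S N rho r c) (fun _ : Fin s => S.X) hsub φ3 hφ)
  have h3 : (A.card : ℝ) * (c0 * c3 * S.XX ^ s / ((S.H : ℝ) * (S.B : ℝ) ^ d)) ^ 2 ≤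
      2 ^ s * (3 * ((eps * (c0 * c3) ^ 2 / (3 * 16 ^ s)) * S.main)) := by
    refine hcount.trans ?_
    have := hmono.trans hr
    gcongr
  have h4 : 2 ^ s * (3 * ((eps * (c0 * c3) ^ 2 / (3 * 16 ^ s)) * S.main)) =
      (eps * (S.H : ℝ) ^ s) * (c0 * c3 * S.XX ^ s / ((S.H : ℝ) * (S.B : ℝ) ^ d)) ^ 2 := by
    unfold DK.Su.main
    have h16 : (16 : ℝ) ^ s = 2 ^ s * 8 ^ s := by rw [← mul_pow]; norm_num
    rw [h16, mul_pow, mul_pow]
    field_simp
    ring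
  rw [h4] at h3
  exact le_of_mul_le_mul_right h3 (by positivity)

end Pool.Agent.Lib.MP_e426f4_ag.WAD
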