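import Pool.Agent.Lib.MP_e426f4_ag.WAD.Defs
import Pool.Agent.Lib.MP_e426f4_ag.DP.Basic

/-!
# NuProdC: product of the lower bounds at the primes (adapt `DP/NuProd.lean`)

Multiplicativity: `nuC W1 N1 r F * nuC W2 N2 r F ≤ nuC (W1 W2) (N1 N2) r F` if `W1 N1` and `W2 N2` are coprime (Chinese remainder, as `nu_mulG`).
Factor `om! = ∏ p^(e p)`, `N = ∏ p^(m p)` over the primes `p ≤ max om p0` (or over the prime factors of `om! N`);
`m p = 0` for `p > p0`, and `nuC (p^e) 1 r F = nuF (p^e) F`.  For `p ≤ p0` use `hsmall` (also with `e = 0`), for `p > p0` `hbig`.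
-/

set_option autoImplicit false

namespace Pool.Agent.Lib.MP_e426f4_ag.WAD

open Finset MvPolynomial
open Pool.Agent.Lib.MP_e426f4_ag.DP

private theorem NuProdC_dvd {s m : ℕ} (F : Pol s) {x z : Fin s → ℕ}
    (h : ∀ i, z i ≡ x i [MOD m]) (hx : (m : ℤ) ∣ evN F x) : (m : ℤ) ∣ evN F z := by
  have h1 : evZ F (fun i => (z i : ℤ)) ≡ evZ F (fun i => (x i : ℤ)) [ZMOD m] :=
    evZ_congr F _ _ _ fun i => (Int.natCast_modEq_iff).mpr (h i)
  have hx' : (m : ℤ) ∣ evZ F (fun i => (x i : ℤ)) := hx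
  have h2 := dvd_sub hx' h1.dvd
  rw [sub_sub_cancel] at h2
  exact h2

private theorem nu_mulC (s W1 N1 W2 N2 : ℕ) (h : Nat.Coprime (W1 * N1) (W2 * N2))
    (hm : 1 ≤ W1 * N1) (hn : 1 ≤ W2 * N2) (r : Fin s → ℤ) (F : Pol s) :
    nuC W1 N1 r F * nuC W2 N2 r F ≤ nuC (W1 * W2) (N1 * N2) r F := by
  unfold nuC
  rw [← Nat.cast_mul, ← Finset.card_product]
  have key : ∀ x y : ℕ, ∃ z : ℕ, z ≡ x [MOD W1 * N1] ∧ z ≡ y [MOD W2 * N2] ∧
      z < (W1 * N1) * (W2 * N2) := fun x y =>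
    ⟨Nat.chineseRemainder h x y, (Nat.chineseRemainder h x y).2.1,
      (Nat.chineseRemainder h x y).2.2,
      Nat.chineseRemainder_lt_mul h x y (by omega) (by omega)⟩
  choose f hf1 hf2 hf3 using key
  have hW : Nat.Coprime W1 W2 := (h.coprime_dvd_left (dvd_mul_right _ _)).coprime_dvd_right
    (dvd_mul_right _ _)
  have hN : Nat.Coprime N1 N2 := (h.coprime_dvd_left (dvd_mul_left _ _)).coprime_dvd_right
    (dvd_mul_left _ _)
  refine Nat.cast_le.mpr (Finset.card_le_card_of_injOn (fun p i => f (p.1 i) (p.2 i)) ?_ ?_)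
  · rintro ⟨x, y⟩ hxy
    simp only [Finset.coe_product, Finset.coe_filter, Set.mem_prod, Set.mem_ofPred_eq,
      Fintype.mem_piFinset, Finset.mem_range] at hxy ⊢
    obtain ⟨⟨hx, hx', hx''⟩, hy, hy', hy''⟩ := hxy
    refine ⟨fun i => ?_, ?_, fun i => ?_⟩
    · have := hf3 (x i) (y i)
      calc f (x i) (y i) < (W1 * N1) * (W2 * N2) := this
        _ = W1 * W2 * (N1 * N2) := by ring
    · have h1 := NuProdC_dvd F (z := fun i => f (x i) (y i))
        (fun i => (hf1 (x i) (y i)).of_mul_right N1) hx'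
      have h2 := NuProdC_dvd F (z := fun i => f (x i) (y i))
        (fun i => (hf2 (x i) (y i)).of_mul_right N2) hy'
      push_cast
      exact IsCoprime.mul_dvd (Nat.isCoprime_iff_coprime.mpr hW) h1 h2
    · have h1 : ((f (x i) (y i) : ℕ) : ℤ) ≡ r i [ZMOD N1] :=
        ((Int.natCast_modEq_iff).mpr ((hf1 (x i) (y i)).of_mul_left W1)).trans (hx'' i)
      have h2 : ((f (x i) (y i) : ℕ) : ℤ) ≡ r i [ZMOD N2] :=
        ((Int.natCast_modEq_iff).mpr ((hf2 (x i) (y i)).of_mul_left W2)).trans (hy'' i)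
      push_cast
      rw [Int.modEq_iff_dvd] at h1 h2 ⊢
      exact IsCoprime.mul_dvd (Nat.isCoprime_iff_coprime.mpr hN) h1 h2
  · rintro ⟨x, y⟩ hxy ⟨x', y'⟩ hxy' heq
    simp only [Finset.coe_product, Finset.coe_filter, Set.mem_prod, Set.mem_ofPred_eq,
      Fintype.mem_piFinset, Finset.mem_range] at hxy hxy'
    have heq' : ∀ i, f (x i) (y i) = f (x' i) (y' i) := fun i => congrFun heq i
    have h1 : x = x' := by
      funext i
      have e1 : x i ≡ x' i [MOD W1 * N1] := (hf1 (x i) (y i)).symm.trans (by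
        rw [heq' i]; exact hf1 _ _)
      rw [Nat.ModEq, Nat.mod_eq_of_lt (hxy.1.1 i), Nat.mod_eq_of_lt (hxy'.1.1 i)] at e1
      exact e1
    have h2 : y = y' := by
      funext i
      have e1 : y i ≡ y' i [MOD W2 * N2] := (hf2 (x i) (y i)).symm.trans (by
        rw [heq' i]; exact hf2 _ _)
      rw [Nat.ModEq, Nat.mod_eq_of_lt (hxy.2.1 i), Nat.mod_eq_of_lt (hxy'.2.1 i)] at e1
      exact e1
    rw [h1, h2]

private theorem nuC_nonneg {s : ℕ} (W N : ℕ) (r : Fin s → ℤ) (F : Pol s) : 0 ≤ nuC W N r F := by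
  unfold nuC
  positivity

private theorem nuC_one {s : ℕ} (W : ℕ) (r : Fin s → ℤ) (F : Pol s) : nuC W 1 r F = nuF W F := by
  unfold nuC nuF
  rw [mul_one]
  congr 2
  ext x
  simp only [Finset.mem_filter, Nat.cast_one]
  exact and_congr_right fun _ => and_iff_left fun i => Int.modEq_one

private theorem le_nu_prodC (s : ℕ) (r : Fin s → ℤ) (F : Pol s) (e m : ℕ → ℕ) (T : Finset ℕ)
    (hT : ∀ p ∈ T, p.Prime) :
    ∏ p ∈ T, nuC (p ^ e p) (p ^ m p) r F ≤ nuC (∏ p ∈ T, p ^ e p) (∏ p ∈ T, p ^ m p) r F := by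
  induction T using Finset.induction_on with
  | empty =>
    simp only [Finset.prod_empty]
    rw [nuC_one]
    unfold nuF
    have : (((Fintype.piFinset fun _ : Fin s => range 1).filter fun x : Fin s → ℕ =>
        (((1 : ℕ) : ℤ)) ∣ evN F x).card) = 1 := by
      rw [Finset.filter_true_of_mem]
      · simp
      · intro x _
        simp
    rw [this]
    simp
  | insert q T hq ih =>
    rw [Finset.prod_insert hq, Finset.prod_insert hq, Finset.prod_insert hq]
    have hqp : q.Prime := hT q (Finset.mem_insert_self _ _)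
    have hTp : ∀ p ∈ T, p.Prime := fun p hp => hT p (Finset.mem_insert_of_mem hp)
    have hcop1 : ∀ k : ℕ → ℕ, Nat.Coprime q (∏ p ∈ T, p ^ k p) := by
      intro k
      apply Nat.Coprime.prod_right
      intro p hp
      apply Nat.Coprime.pow_right
      exact (Nat.coprime_primes hqp (hTp p hp)).2 (fun h => hq (h ▸ hp))
    have hcop : Nat.Coprime (q ^ e q * q ^ m q) ((∏ p ∈ T, p ^ e p) * ∏ p ∈ T, p ^ m p) := by
      rw [← pow_add]
      exact Nat.Coprime.pow_left _ ((hcop1 e).mul_right (hcop1 m))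
    have hpos : ∀ k : ℕ → ℕ, 0 < ∏ p ∈ T, p ^ k p := fun k =>
      Finset.prod_pos fun p hp => pow_pos (hTp p hp).pos _
    refine le_trans ?_ (nu_mulC s _ _ _ _ hcop
      (Nat.succ_le_of_lt (Nat.mul_pos (pow_pos hqp.pos _) (pow_pos hqp.pos _)))
      (Nat.succ_le_of_lt (Nat.mul_pos (hpos e) (hpos m))) r F)
    exact mul_le_mul_of_nonneg_left (ih hTp) (nuC_nonneg _ _ _ _)

private theorem prod_fac (n M : ℕ) (hn : n ≠ 0) (hM : ∀ p : ℕ, p.Prime → p ∣ n → p ≤ M) :
    ∏ p ∈ (range (M + 1)).filter Nat.Prime, p ^ n.factorization p = n := by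
  have h1 := Nat.prod_factorization_pow_eq_self hn
  rw [Finsupp.prod, Nat.support_factorization] at h1
  conv_rhs => rw [← h1]
  symm
  refine Finset.prod_subset ?_ ?_
  · intro p hp
    have hpp := Nat.prime_of_mem_primeFactors hp
    have hpd := Nat.dvd_of_mem_primeFactors hp
    exact Finset.mem_filter.2 ⟨Finset.mem_range.2 (Nat.lt_succ_of_le (hM p hpp hpd)), hpp⟩
  · intro p _ hp
    rw [← Nat.support_factorization, Finsupp.notMem_support_iff] at hp
    rw [hp, pow_zero]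

private theorem one_sub_le_prod (T : Finset ℕ) (x : ℕ → ℝ) (h0 : ∀ i ∈ T, 0 ≤ x i)
    (h1 : ∀ i ∈ T, x i ≤ 1) : 1 - ∑ i ∈ T, x i ≤ ∏ i ∈ T, (1 - x i) := by
  induction T using Finset.induction_on with
  | empty => simp
  | insert q T hq ih =>
    rw [Finset.sum_insert hq, Finset.prod_insert hq]
    have ih' := ih (fun i hi => h0 i (Finset.mem_insert_of_mem hi))
      (fun i hi => h1 i (Finset.mem_insert_of_mem hi))
    have hq0 := h0 q (Finset.mem_insert_self _ _)
    have hq1 := h1 q (Finset.mem_insert_self _ _)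
    have hs0 : 0 ≤ ∑ i ∈ T, x i :=
      Finset.sum_nonneg fun i hi => h0 i (Finset.mem_insert_of_mem hi)
    have h2 : (1 - x q) * (1 - ∑ i ∈ T, x i) ≤ (1 - x q) * ∏ i ∈ T, (1 - x i) :=
      mul_le_mul_of_nonneg_left ih' (by linarith)
    nlinarith [mul_nonneg hq0 hs0]

private theorem sum_sq_le (T : Finset ℕ) (p0 N : ℕ) (hp0 : 1 ≤ p0) (hT : ∀ p ∈ T, p0 < p ∧ p ≤ N) :
    ∑ p ∈ T, ((p : ℝ) ^ 2)⁻¹ ≤ (p0 : ℝ)⁻¹ := by
  rcases le_or_gt p0 N with h | h
  · calc ∑ p ∈ T, ((p : ℝ) ^ 2)⁻¹ ≤ ∑ p ∈ Ioc p0 N, ((p : ℝ) ^ 2)⁻¹ := by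
          apply Finset.sum_le_sum_of_subset_of_nonneg
          · intro p hp
            exact Finset.mem_Ioc.2 (hT p hp)
          · intro p _ _
            positivity
      _ ≤ (p0 : ℝ)⁻¹ - (N : ℝ)⁻¹ := sum_Ioc_inv_sq_le_sub (by omega) h
      _ ≤ (p0 : ℝ)⁻¹ := by
          have : (0 : ℝ) ≤ (N : ℝ)⁻¹ := by positivity
          linarith
  · have : T = ∅ := by
      apply Finset.eq_empty_of_forall_notMem
      intro p hp
      have := hT p hp
      omega
    rw [this]
    simp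

theorem nu_facC (s p0 kk om N : ℕ) (hp0 : 5 ≤ p0) (hN : 1 ≤ N)
    (hNp : ∀ p : ℕ, p.Prime → p ∣ N → p ≤ p0) (F : Pol s) (r : Fin s → ℤ)
    (hsmall : ∀ p : ℕ, p.Prime → p ≤ p0 → ∀ e : ℕ,
      ((p : ℝ) ^ kk)⁻¹ * (p : ℝ) ^ (e * (s - 1)) ≤ nuC (p ^ e) (p ^ N.factorization p) r F)
    (hbig : ∀ p : ℕ, p.Prime → p0 < p → p ≤ om → ∀ e : ℕ, 1 ≤ e →
      (1 - 2 / (p : ℝ) ^ 2) * (p : ℝ) ^ (e * (s - 1)) ≤ nuF (p ^ e) F) :
    1 / 2 * (∏ p ∈ (range (p0 + 1)).filter Nat.Prime, (p : ℝ) ^ kk)⁻¹ *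
      ((om.factorial : ℕ) : ℝ) ^ (s - 1) ≤ nuC om.factorial N r F := by
  set A : ℝ := ∏ p ∈ (range (p0 + 1)).filter Nat.Prime, (p : ℝ) ^ kk with hA
  have hA0 : 0 < A := Finset.prod_pos fun p hp => by
    have := (Finset.mem_filter.1 hp).2.pos
    positivity
  obtain ⟨M, hM⟩ : ∃ M, M = max om p0 := ⟨_, rfl⟩
  obtain ⟨PF, hPF⟩ : ∃ PF, PF = (range (M + 1)).filter Nat.Prime := ⟨_, rfl⟩
  have hPFp : ∀ p ∈ PF, p.Prime := fun p hp => by
    rw [hPF] at hp
    exact (Finset.mem_filter.1 hp).2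
  have hPFle : ∀ p ∈ PF, ¬ p ≤ p0 → p ≤ om := fun p hp hp' => by
    rw [hPF, Finset.mem_filter, Finset.mem_range, hM] at hp
    omega
  have hfac : ∏ p ∈ PF, p ^ (om.factorial.factorization p) = om.factorial := by
    rw [hPF]
    refine prod_fac _ _ (Nat.factorial_ne_zero om) fun p hp hpd => ?_
    have := hp.dvd_factorial.1 hpd
    rw [hM]
    exact this.trans (le_max_left _ _)
  have hfacN : ∏ p ∈ PF, p ^ (N.factorization p) = N := by
    rw [hPF]
    refine prod_fac _ _ (by omega) fun p hp hpd => ?_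
    rw [hM]
    exact (hNp p hp hpd).trans (le_max_right _ _)
  have hprod := le_nu_prodC s r F (fun p => om.factorial.factorization p)
    (fun p => N.factorization p) PF hPFp
  rw [hfac, hfacN] at hprod
  set c : ℕ → ℝ := fun p => if p ≤ p0 then ((p : ℝ) ^ kk)⁻¹ else 1 - 2 / (p : ℝ) ^ 2 with hc
  have hc0 : ∀ p ∈ PF, 0 ≤ c p := by
    intro p hp
    simp only [hc]
    split_ifs with h
    · positivity
    · have h1 : (6 : ℝ) ≤ p := by exact_mod_cast (by omega : 6 ≤ p)
      have h2 : 2 / (p : ℝ) ^ 2 ≤ 1 := by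
        rw [div_le_one (by positivity)]
        nlinarith
      linarith
  have hterm : ∀ p ∈ PF, c p * (p : ℝ) ^ (om.factorial.factorization p * (s - 1)) ≤
      nuC (p ^ (om.factorial.factorization p)) (p ^ (N.factorization p)) r F := by
    intro p hp
    simp only [hc]
    split_ifs with h
    · exact hsmall p (hPFp p hp) h _
    · have hN0 : N.factorization p = 0 :=
        Nat.factorization_eq_zero_of_not_dvd fun hd => h (hNp p (hPFp p hp) hd)
      rw [hN0, pow_zero, nuC_one]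
      apply hbig p (hPFp p hp) (by omega) (hPFle p hp h)
      exact (hPFp p hp).factorization_pos_of_dvd (Nat.factorial_ne_zero om)
        ((hPFp p hp).dvd_factorial.2 (hPFle p hp h))
  have h1 : ∏ p ∈ PF, (c p * (p : ℝ) ^ (om.factorial.factorization p * (s - 1))) ≤
      ∏ p ∈ PF, nuC (p ^ (om.factorial.factorization p)) (p ^ (N.factorization p)) r F :=
    Finset.prod_le_prod (fun p hp => mul_nonneg (hc0 p hp) (by positivity)) hterm
  rw [Finset.prod_mul_distrib] at h1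
  have h2 : ∏ p ∈ PF, (p : ℝ) ^ (om.factorial.factorization p * (s - 1)) =
      ((om.factorial : ℕ) : ℝ) ^ (s - 1) := by
    conv_rhs => rw [← hfac]
    push_cast
    rw [← Finset.prod_pow]
    refine Finset.prod_congr rfl fun p _ => ?_
    rw [pow_mul]
  rw [h2] at h1
  have h3 : 1 / 2 * A⁻¹ ≤ ∏ p ∈ PF, c p := by
    rw [← Finset.prod_filter_mul_prod_filter_not PF (fun p => p ≤ p0)]
    have h4 : A⁻¹ ≤ ∏ p ∈ PF.filter (fun p => p ≤ p0), c p := by
      have h5 : ∏ p ∈ PF.filter (fun p => p ≤ p0), c p =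
          (∏ p ∈ PF.filter (fun p => p ≤ p0), (p : ℝ) ^ kk)⁻¹ := by
        rw [← Finset.prod_inv_distrib]
        refine Finset.prod_congr rfl fun p hp => ?_
        simp only [hc]
        rw [if_pos (Finset.mem_filter.1 hp).2]
      rw [h5]
      have hpos : 0 < ∏ p ∈ PF.filter (fun p => p ≤ p0), (p : ℝ) ^ kk :=
        Finset.prod_pos fun p hp => by
          have := (hPFp p (Finset.mem_filter.1 hp).1).pos
          positivity
      apply inv_anti₀ hpos
      have hss : PF.filter (fun p => p ≤ p0) ⊆ (range (p0 + 1)).filter Nat.Prime := by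
        intro p hp
        rw [Finset.mem_filter] at hp
        exact Finset.mem_filter.2 ⟨Finset.mem_range.2 (by omega), hPFp p hp.1⟩
      rw [hA, ← Finset.prod_sdiff hss]
      have hone : (1 : ℝ) ≤ ∏ p ∈ ((range (p0 + 1)).filter Nat.Prime) \
          PF.filter (fun p => p ≤ p0), (p : ℝ) ^ kk := by
        have : ∏ p ∈ ((range (p0 + 1)).filter Nat.Prime) \
            PF.filter (fun p => p ≤ p0), (1 : ℝ) ≤ ∏ p ∈ ((range (p0 + 1)).filter Nat.Prime) \
            PF.filter (fun p => p ≤ p0), (p : ℝ) ^ kk := by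
          apply Finset.prod_le_prod
          · intro p _
            exact zero_le_one
          · intro p hp
            have h6 := (Finset.mem_filter.1 (Finset.mem_sdiff.1 hp).1).2.one_le
            exact one_le_pow₀ (by exact_mod_cast h6)
        simpa using this
      exact le_mul_of_one_le_left hpos.le hone
    have h5 : (1 : ℝ) / 2 ≤ ∏ p ∈ PF.filter (fun p => ¬ p ≤ p0), c p := by
      have h6 : ∏ p ∈ PF.filter (fun p => ¬ p ≤ p0), c p =
          ∏ p ∈ PF.filter (fun p => ¬ p ≤ p0), (1 - 2 * ((p : ℝ) ^ 2)⁻¹) := by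
        refine Finset.prod_congr rfl fun p hp => ?_
        simp only [hc]
        rw [if_neg (Finset.mem_filter.1 hp).2, div_eq_mul_inv]
      rw [h6]
      refine le_trans ?_ (one_sub_le_prod _ _ (fun p _ => by positivity) fun p hp => ?_)
      · have h7 : ∑ p ∈ PF.filter (fun p => ¬ p ≤ p0), ((p : ℝ) ^ 2)⁻¹ ≤ (p0 : ℝ)⁻¹ :=
          sum_sq_le _ p0 om (by omega) fun p hp => by
            rw [Finset.mem_filter] at hp
            exact ⟨by omega, hPFle p hp.1 hp.2⟩
        rw [← Finset.mul_sum]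
        have h8 : (p0 : ℝ)⁻¹ ≤ 1 / 4 := by
          have h9 : (5 : ℝ) ≤ p0 := by exact_mod_cast hp0
          rw [inv_le_comm₀ (by positivity) (by norm_num)]
          linarith
        linarith
      · rw [Finset.mem_filter] at hp
        have h7 : (6 : ℝ) ≤ p := by exact_mod_cast (by omega : 6 ≤ p)
        have h8 : ((p : ℝ) ^ 2)⁻¹ ≤ 1 / 2 := by
          rw [inv_le_comm₀ (by positivity) (by norm_num)]
          nlinarith
        linarith
    calc 1 / 2 * A⁻¹ = A⁻¹ * (1 / 2) := by ring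
      _ ≤ _ := mul_le_mul h4 h5 (by norm_num) (le_trans (by positivity) h4)
  exact (mul_le_mul_of_nonneg_right h3 (by positivity)).trans (h1.trans hprod)

end Pool.Agent.Lib.MP_e426f4_ag.WAD
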