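import Pool.Agent.Lib.MP_e426f4_ag.WAD.Defs
import Pool.Agent.Lib.MP_e426f4_ag.DP.PSing
import Pool.Agent.Lib.MP_e426f4_ag.DG.BoxRes

/-!
# PadicExcC: few coefficients with a primitive vector which is singular modulo `p^(k0+1)` (simplify `DP/PadicExcG.lean`)

`psing` with `eps / 4^s` gives `k1`; `k0 = k1`, `H0 = p^(k1+1)`; `¬ NsP p k1 (fm d G a)` depends only on `a` modulo `p^(k1+1)`
(`evZ_pderiv_fm_congr`) and is the condition of `psing`; `DG.box_residue`.  No zero is needed, so `exists_approx` is not needed.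
-/

set_option autoImplicit false

namespace Pool.Agent.Lib.MP_e426f4_ag.WAD

open Finset MvPolynomial
open Pool.Agent.Lib.MP_e426f4_ag.DP
open Pool.Agent.Lib.MP_e426f4_ag.DG (box)

open Classical in
theorem padic_excC (d s p : ℕ) (hd : 2 ≤ d) (hs : 1 ≤ s) (hp : p.Prime) (eps : ℝ)
    (heps : 0 < eps) : ∃ k0 H0 : ℕ, ∀ H : ℕ, H0 ≤ H → ∀ G : Pol s, G.IsHomogeneous d →
    (((box s H).filter fun a : Fin s → ℤ => ¬ NsP p k0 (fm d G a)).card : ℝ) ≤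
      eps * (H : ℝ) ^ s := by
  obtain ⟨k1, hk1⟩ := psing d s p hd hs hp (eps / 4 ^ s) (by positivity)
  refine ⟨k1, p ^ (k1 + 1), fun H hH G hG => ?_⟩
  have hB := hk1 (k1 + 1) (Nat.le_succ k1) G hG
  set Bd := ((Fintype.piFinset fun _ : Fin s => range (p ^ (k1 + 1))).filter
    fun a : Fin s → ℕ => ∃ x : Fin s → ℤ, (∃ i, ¬ (p : ℤ) ∣ x i) ∧
        ∀ i, (p : ℤ) ^ (k1 + 1) ∣ evZ (pderiv i (fm d G fun i => (a i : ℤ))) x) with hBd
  have hm : 1 ≤ p ^ (k1 + 1) := Nat.one_le_pow _ _ hp.pos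
  have hres := DG.box_residue s H (p ^ (k1 + 1)) hm hH Bd
  have hsub : ((box s H).filter fun a : Fin s → ℤ => ¬ NsP p k1 (fm d G a)) ⊆
      ((box s H).filter fun a : Fin s → ℤ =>
        ∃ r ∈ Bd, ∀ i, a i ≡ r i [ZMOD (p ^ (k1 + 1) : ℕ)]) := by
    intro a ha
    rw [mem_filter] at ha ⊢
    obtain ⟨ha1, hng⟩ := ha
    refine ⟨ha1, ?_⟩
    unfold NsP at hng
    push Not at hng
    obtain ⟨z, hzp, hall⟩ := hng
    have hmz : ((p ^ (k1 + 1) : ℕ) : ℤ) ≠ 0 := by exact_mod_cast (by omega : p ^ (k1 + 1) ≠ 0)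
    have hr : ∀ i, ((a i % ((p ^ (k1 + 1) : ℕ) : ℤ)).toNat : ℤ) =
        a i % ((p ^ (k1 + 1) : ℕ) : ℤ) := fun i => Int.toNat_of_nonneg (Int.emod_nonneg _ hmz)
    have hcg : ∀ i, a i ≡ (((a i % ((p ^ (k1 + 1) : ℕ) : ℤ)).toNat : ℕ) : ℤ)
        [ZMOD (p ^ (k1 + 1) : ℕ)] := by
      intro i
      rw [hr i]
      exact (Int.mod_modEq _ _).symm
    refine ⟨fun i => (a i % ((p ^ (k1 + 1) : ℕ) : ℤ)).toNat, ?_, hcg⟩
    rw [hBd, mem_filter, Fintype.mem_piFinset]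
    refine ⟨fun i => ?_, z, hzp, fun i => ?_⟩
    · rw [mem_range]
      have h0 : (0 : ℤ) < ((p ^ (k1 + 1) : ℕ) : ℤ) := by exact_mod_cast hm
      have h1 := Int.emod_lt_of_pos (a i) h0
      rw [← hr i] at h1
      exact_mod_cast h1
    · have h2 := evZ_pderiv_fm_congr d G a
        (fun i => (((a i % ((p ^ (k1 + 1) : ℕ) : ℤ)).toNat : ℕ) : ℤ)) z
        ((p ^ (k1 + 1) : ℕ) : ℤ) i hcg
      have h3 : ((p ^ (k1 + 1) : ℕ) : ℤ) ∣ evZ (pderiv i (fm d G a)) z := by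
        push_cast
        exact hall i
      have h4 := (Int.modEq_zero_iff_dvd.1 (h2.symm.trans (Int.modEq_zero_iff_dvd.2 h3)))
      push_cast at h4 ⊢
      exact h4
  have hp0 : (0 : ℝ) < (p : ℝ) := by exact_mod_cast hp.pos
  calc (((box s H).filter fun a : Fin s → ℤ => ¬ NsP p k1 (fm d G a)).card : ℝ)
      ≤ (((box s H).filter fun a : Fin s → ℤ =>
        ∃ r ∈ Bd, ∀ i, a i ≡ r i [ZMOD (p ^ (k1 + 1) : ℕ)]).card : ℝ) := by
          exact_mod_cast card_le_card hsub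
    _ ≤ Bd.card * (4 * (H : ℝ) / ((p ^ (k1 + 1) : ℕ) : ℝ)) ^ s := hres
    _ ≤ (eps / 4 ^ s * (p : ℝ) ^ ((k1 + 1) * s)) *
        (4 * (H : ℝ) / ((p ^ (k1 + 1) : ℕ) : ℝ)) ^ s :=
          mul_le_mul_of_nonneg_right hB (by positivity)
    _ = eps * (H : ℝ) ^ s := by
        rw [div_pow, mul_pow, pow_mul]
        push_cast
        have h5 : ((p : ℝ) ^ (k1 + 1)) ^ s ≠ 0 := by positivity
        field_simp

end Pool.Agent.Lib.MP_e426f4_ag.WAD
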