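import Pool.Agent.Lib.MP_e426f4_ag.WAD.Defs
import Pool.Agent.Lib.MP_e426f4_ag.DP.Basic
import Pool.Agent.Lib.MP_e426f4_ag.DK.FactsX

/-!
# MavgAC: lower bound of `Mavgg` by a sum over `λ ∈ S.LM` (adapt `DP/MavgAG.lean`)

The two additional conditions say that `t_i l_i ∈ XC S N rho r c i`.
-/

set_option autoImplicit false

namespace Pool.Agent.Lib.MP_e426f4_ag.WAD

open Finset MvPolynomial
open Pool.Agent.Lib.MP_e426f4_ag.DP
open Pool.Agent.Lib.MP_e426f4_ag.DK (Su)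

theorem MavgC_ge {d s u l e m w E : ℕ} (S : Su d s u l e m w E)
    (W J : ℕ) (hW : 1 ≤ W) (G : Pol s) (a : Fin s → ℤ) (N : ℕ) (rho : ℝ) (r : Fin s → ℤ)
    (c : Fin s → ℝ) :
    ∑ l ∈ Fintype.piFinset (fun _ : Fin s => S.LM),
      (((Fintype.piFinset fun _ : Fin s => S.I).filter fun t : Fin s → ℕ =>
        ((W : ℤ) ∣ evN (fm d G a) (fun i => t i * l i) ∧
          ∀ i, ((t i * l i : ℕ) : ℤ) ≡ r i [ZMOD N]) ∧
        (∀ i, |(t i : ℝ) * (l i : ℝ) - Ysc S * c i| ≤ 2 * rho * Ysc S) ∧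
          |evR (fm d G a) (fun i => (t i : ℝ) * (l i : ℝ))| ≤ (W : ℝ) * J).card : ℝ) ≤
      (2 * J + 1) * Mavgg S.P d W J (XC S N rho r c) (gP S.P G)
        (fun i => ((a i : ℤ) : ZMod S.P)) := by
  classical
  have hJ : (0 : ℝ) < 2 * J + 1 := by positivity
  unfold Mavgg
  rw [mul_div_cancel₀ _ hJ.ne']
  unfold NNg
  rw [← Nat.cast_sum, ← Nat.cast_sum, Nat.cast_le, ← card_sigma, ← card_sigma]
  refine card_le_card_of_injOn
    (fun z => (⟨(evN (fm d G a) fun i => z.2 i * z.1 i) / W, fun i => z.2 i * z.1 i⟩ :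
      (_ : ℤ) × (Fin s → ℕ))) ?_ ?_
  · rintro ⟨l, t⟩ hz
    rw [mem_coe, mem_sigma, Fintype.mem_piFinset, mem_filter, Fintype.mem_piFinset] at hz
    obtain ⟨hl, ht, ⟨hdvd, hmod⟩, hnear, habs⟩ := hz
    dsimp only at hl ht hdvd hmod hnear habs
    obtain ⟨q, hq⟩ := hdvd
    have hW0 : (W : ℤ) ≠ 0 := by exact_mod_cast (by omega : W ≠ 0)
    rw [mem_coe, mem_sigma, mem_filter, Fintype.mem_piFinset]
    dsimp only
    have hdiv : (evN (fm d G a) fun i => t i * l i) / W = q := by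
      rw [hq, Int.mul_ediv_cancel_left _ hW0]
    rw [hdiv]
    refine ⟨?_, ?_, ?_⟩
    · have h1 : evR (fm d G a) (fun i => (t i : ℝ) * (l i : ℝ)) = (W : ℝ) * q := by
        have h0 := evR_evN (fm d G a) fun i => t i * l i
        rw [hq] at h0
        push_cast at h0
        exact h0.symm
      rw [h1, abs_mul, Nat.abs_cast] at habs
      have hWr : (0 : ℝ) < W := by exact_mod_cast (by omega : 0 < W)
      have h2 : |(q : ℝ)| ≤ J := le_of_mul_le_mul_left habs hWr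
      have h3 : |q| ≤ (J : ℤ) := by exact_mod_cast h2
      rw [mem_Icc]
      exact abs_le.1 h3
    · intro i
      obtain ⟨z, hz1, hz2⟩ := (S.LM_mem _).1 (hl i)
      unfold XC
      rw [mem_filter]
      refine ⟨(S.X_mem _).2 ⟨t i, ht i, z, hz1, by rw [hz2]⟩, ?_, hmod i⟩
      have h1 := hnear i
      push_cast
      exact h1
    · have h4 := evN_fm d G a fun i => t i * l i
      rw [hq] at h4
      have h5 := congrArg (Int.cast : ℤ → ZMod S.P) h4
      unfold gP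
      push_cast at h5 ⊢
      rw [h5]
      ring
  · rintro ⟨l, t⟩ hz ⟨l', t'⟩ hz' heq
    rw [mem_coe, mem_sigma, Fintype.mem_piFinset, mem_filter, Fintype.mem_piFinset] at hz hz'
    obtain ⟨hl, ht, -, -⟩ := hz
    obtain ⟨hl', ht', -, -⟩ := hz'
    dsimp only at hl ht hl' ht' heq
    rw [Sigma.mk.injEq] at heq
    have h2 := eq_of_heq heq.2
    have key : ∀ i, t i = t' i ∧ l i = l' i := by
      intro i
      have h3 : t i * l i = t' i * l' i := congrFun h2 i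
      obtain ⟨z1, hz1, e1⟩ := (S.LM_mem _).1 (hl i)
      obtain ⟨z2, hz2, e2⟩ := (S.LM_mem _).1 (hl' i)
      obtain ⟨g1, g2, -⟩ := (S.I_mem _).1 (ht i)
      obtain ⟨g3, g4, -⟩ := (S.I_mem _).1 (ht' i)
      rw [e1, e2] at h3
      obtain ⟨f1, f2⟩ := S.uniq u le_rfl (t i) (t' i) ⟨g1, g2⟩ ⟨g3, g4⟩ z1 z2 hz1 hz2 h3
      exact ⟨f1, by rw [e1, e2, f2]⟩
    have e1 : l = l' := funext fun i => (key i).2
    have e2 : t = t' := funext fun i => (key i).1
    subst e1 e2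
    rfl

end Pool.Agent.Lib.MP_e426f4_ag.WAD
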