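import Pool.Agent.Lib.MP_e426f4_ag.WAD.Defs
import Pool.Agent.Lib.MP_e426f4_ag.DP.Basic
import Pool.Agent.Lib.MP_e426f4_ag.DK.FactsX

/-!
# NZeroC: no small zero in the cell, no solution modulo `P` (adapt `DP/NZeroG.lean`)

A solution `x ∈ ∏ XC_i` is an integral zero as in `NNg_eq_zero`; `x ≡ r mod N`, and `|x_i - t c_i| ≤ 2 rho t` with `t = Ysc S > 0`.
-/

set_option autoImplicit false

namespace Pool.Agent.Lib.MP_e426f4_ag.WAD

open Finset MvPolynomial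
open Pool.Agent.Lib.MP_e426f4_ag.DP
open Pool.Agent.Lib.MP_e426f4_ag.DK (Su)

theorem NNC_eq_zero (d s : ℕ) (hd : 1 ≤ d) : ∃ Cst : ℕ, ∀ (u l e m w E e' : ℕ)
    (S : Su d s u l e m w E), u * e' ≤ d * l → e' ≤ d → Cst * S.H * S.B ^ d < S.P →
    ∀ (G : Pol s) (a : Fin s → ℤ) (N : ℕ) (rho : ℝ) (r : Fin s → ℤ) (c : Fin s → ℝ),
    Cb d (2 * S.H) G → (∀ i, |a i| ≤ (S.H : ℤ)) →
    ¬ SmallC e' S.H N (2 * rho) r c (fm d G a) →
    NNg S.P d (XC S N rho r c) (gP S.P G) (fun i => ((a i : ℤ) : ZMod S.P)) 0 = 0 := by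
  classical
  obtain ⟨Nm, -, hNm⟩ := ev_bd d s
  refine ⟨3 * Nm, ?_⟩
  intro u l e m w E e' S h h' hP G a N rho r c hG ha hz
  obtain ⟨hd1, hs1, -⟩ := S.nums
  unfold NNg
  rw [Nat.cast_eq_zero, Finset.card_eq_zero, Finset.filter_eq_empty_iff]
  intro x hx hsum
  rw [Fintype.mem_piFinset] at hx
  apply hz
  have hx' : ∀ i, x i ∈ S.X ∧ |(x i : ℝ) - Ysc S * c i| ≤ 2 * rho * Ysc S ∧
      (x i : ℤ) ≡ r i [ZMOD N] := by
    intro i
    have h1 := hx i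
    unfold XC at h1
    rw [Finset.mem_filter] at h1
    exact h1
  have hb : ∀ i, 1 ≤ x i ∧ x i ≤ S.B := fun i =>
    ⟨(S.X_bounds (x i) (hx' i).1).1, (S.X_bounds (x i) (hx' i).1).2.1⟩
  have hF : Cb d (2 * S.H + S.H) (fm d G a) := Cb_fm hd hG a ha
  have hY : 0 < Ysc S := by
    unfold Ysc
    have h1 : 1 ≤ S.W ^ u := Nat.one_le_pow _ _ S.W_pos
    have h2 : (0 : ℝ) < ((S.W ^ u : ℕ) : ℝ) := by exact_mod_cast h1
    have h3 : (0 : ℝ) < (S.T : ℝ) := by exact_mod_cast S.T_pos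
    positivity
  refine ⟨fun i => (x i : ℤ), ?_, ?_, ?_, fun i => (hx' i).2.2, Ysc S, hY, fun i => ?_⟩
  · intro h0
    have := congrFun h0 ⟨0, by omega⟩
    have h1 := (hb ⟨0, by omega⟩).1
    simp at this
    omega
  · have h1 : ((evN (fm d G a) x : ℤ) : ZMod S.P) = 0 := by
      rw [evN_fm]
      unfold gP at hsum
      push_cast
      rw [add_comm]
      exact hsum
    rw [ZMod.intCast_zmod_eq_zero_iff_dvd] at h1
    change evN (fm d G a) x = 0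
    by_contra hne
    have h2 := Int.le_of_dvd (abs_pos.mpr hne) ((dvd_abs _ _).mpr h1)
    have h3 := hNm (2 * S.H + S.H) (fm d G a) hF (fun i => (x i : ℝ)) (S.B : ℝ) (Nat.cast_nonneg _)
      (fun i => by
        rw [Nat.abs_cast]
        exact_mod_cast (hb i).2)
    rw [← evR_evN] at h3
    have h4 : ((|evN (fm d G a) x| : ℤ) : ℝ) ≤ ((3 * Nm * S.H * S.B ^ d : ℕ) : ℝ) := by
      push_cast
      push_cast at h3
      refine h3.trans (le_of_eq ?_)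
      ring
    have h5 : ((S.P : ℤ) : ℝ) ≤ ((|evN (fm d G a) x| : ℤ) : ℝ) := by exact_mod_cast h2
    have h6 : ((3 * Nm * S.H * S.B ^ d : ℕ) : ℝ) < (S.P : ℝ) := by exact_mod_cast hP
    have h7 : ((S.P : ℤ) : ℝ) = (S.P : ℝ) := by push_cast; rfl
    linarith
  · intro i
    rw [Nat.abs_cast]
    have h4 : (x i) ^ e' ≤ S.B ^ e' := Nat.pow_le_pow_left (hb i).2 e'
    have h5 : S.B ^ e' ≤ S.H := S.BH e' h h'
    exact_mod_cast (h4.trans h5)
  · have h1 := (hx' i).2.1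
    push_cast
    exact h1

end Pool.Agent.Lib.MP_e426f4_ag.WAD
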