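import Pool.Agent.Lib.MP_e426f4_ag.WAD.Defs
import Pool.Agent.Lib.MP_e426f4_ag.DP.Basic

/-!
# Near: a zero in a cell is near the given local zeros

`N0 w = (w!)^w`: `w ≤ v_p(N0 w)` for `p ≤ w` and `p ∣ N0 w → p ≤ w`; `p^(-v_p(N)) ≤ p^(-w) ≤ 2^(-w) ≤ 1/w`.
`near_all`: let `x` be as in `SmallC e H N (4 rho) r c F` with `10 rho ≤ 1/w`, `|c_i - y_i/2| ≤ rho` and `‖r_i - z_{p,i}‖ ≤ p^(-v_p(N))` for
`p ≤ w`.  `|x_i - t c_i| ≤ 4 rho t` gives `|x_i - t y_i/2| ≤ 5 rho t`, so with `t' = t/2` `|x_i / t' - y_i| ≤ 10 rho ≤ 1/w`.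
`x_i ≡ r_i mod N` gives `‖x_i - r_i‖ ≤ p^(-v_p(N))` (`Padic.norm_int_le_pow_iff_dvd`), then the ultrametric inequality.
`cells`: the finite set of the points of `[-1, 1]^s` with coordinates in `(1/K) ℤ`, `1/K ≤ rho`.
-/

set_option autoImplicit false

namespace Pool.Agent.Lib.MP_e426f4_ag.WAD

open Finset MvPolynomial
open Pool.Agent.Lib.MP_e426f4_ag.DP

/-- the modulus -/
def N0 (w : ℕ) : ℕ := w.factorial ^ w

theorem N0_pos (w : ℕ) : 1 ≤ N0 w := by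
  unfold N0
  exact Nat.one_le_pow _ _ (Nat.factorial_pos w)

theorem N0_fac (w p : ℕ) (hp : p.Prime) (h : p ≤ w) : w ≤ (N0 w).factorization p := by
  unfold N0
  rw [Nat.factorization_pow, Finsupp.smul_apply, smul_eq_mul]
  have h1 : 1 ≤ (w.factorial).factorization p :=
    (hp.dvd_iff_one_le_factorization (Nat.factorial_ne_zero w)).1 ((hp.dvd_factorial).2 h)
  exact Nat.le_mul_of_pos_right w h1

private lemma near_small (w p v : ℕ) (hp : p.Prime) (hw : 1 ≤ w) (hv : w ≤ v) :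
    (p : ℝ) ^ (-(v : ℤ)) ≤ 1 / (w : ℝ) := by
  have hp2 : (2 : ℝ) ≤ p := by exact_mod_cast hp.two_le
  have h1 : (w : ℝ) ≤ (p : ℝ) ^ v := by
    have h2 : w < 2 ^ w := Nat.lt_two_pow_self
    calc (w : ℝ) ≤ (2 : ℝ) ^ w := by exact_mod_cast h2.le
      _ ≤ (p : ℝ) ^ w := pow_le_pow_left₀ (by norm_num) hp2 w
      _ ≤ (p : ℝ) ^ v := pow_le_pow_right₀ (by linarith) hv
  have hw0 : (0 : ℝ) < w := by exact_mod_cast hw
  rw [zpow_neg, zpow_natCast, ← one_div]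
  exact one_div_le_one_div_of_le hw0 h1

theorem near_all {s : ℕ} (w e H : ℕ) (hw : 1 ≤ w) (rho : ℝ) (hrho : 10 * rho ≤ 1 / (w : ℝ))
    (F : Pol s) (r : Fin s → ℤ) (c y : Fin s → ℝ) (hc : ∀ i, |c i - y i / 2| ≤ rho)
    (z : (p : ℕ) → [Fact p.Prime] → Fin s → ℚ_[p])
    (hr : ∀ (p : ℕ) [Fact p.Prime], p ≤ w → ∀ i,
        ‖(r i : ℚ_[p]) - z p i‖ ≤ (p : ℝ) ^ (-((N0 w).factorization p : ℤ)))
    (h : SmallC e H (N0 w) (4 * rho) r c F) :
    ∃ x : Fin s → ℤ, x ≠ 0 ∧ evZ F x = 0 ∧ (∀ i, |x i| ^ e ≤ (H : ℤ)) ∧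
      (∃ t : ℝ, 0 < t ∧ ∀ i, |(x i : ℝ) / t - y i| ≤ 1 / (w : ℝ)) ∧
      ∀ (p : ℕ) [Fact p.Prime], p ≤ w → ∀ i, ‖(x i : ℚ_[p]) - z p i‖ ≤ 1 / (w : ℝ) := by
  obtain ⟨x, hx0, hx1, hx2, hx3, t, ht, hxt⟩ := h
  refine ⟨x, hx0, hx1, hx2, ⟨t / 2, by positivity, fun i => ?_⟩, ?_⟩
  · refine le_trans ?_ hrho
    have e1 : (x i : ℝ) / (t / 2) - y i =
        (((x i : ℝ) - t * c i) + t * (c i - y i / 2)) * (2 / t) := by
      field_simp
      ring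
    rw [e1, abs_mul, abs_of_pos (by positivity : (0 : ℝ) < 2 / t)]
    have e2 : |((x i : ℝ) - t * c i) + t * (c i - y i / 2)| ≤ 5 * rho * t := by
      refine (abs_add_le _ _).trans ?_
      rw [abs_mul t, abs_of_pos ht]
      have h1 := hxt i
      have h2 := mul_le_mul_of_nonneg_left (hc i) ht.le
      linarith
    calc |((x i : ℝ) - t * c i) + t * (c i - y i / 2)| * (2 / t) ≤ 5 * rho * t * (2 / t) :=
          mul_le_mul_of_nonneg_right e2 (by positivity)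
      _ = 10 * rho := by field_simp; ring
  · intro p hpf hpw i
    have hp : p.Prime := hpf.out
    have hv := N0_fac w p hp hpw
    have hd : ((p : ℤ) ^ ((N0 w).factorization p)) ∣ x i - r i := by
      have h1 : ((N0 w : ℕ) : ℤ) ∣ x i - r i := (hx3 i).symm.dvd
      refine dvd_trans ?_ h1
      exact_mod_cast Nat.ordProj_dvd (N0 w) p
    have h1 : ‖((x i - r i : ℤ) : ℚ_[p])‖ ≤ (p : ℝ) ^ (-((N0 w).factorization p : ℤ)) :=
      (Padic.norm_int_le_pow_iff_dvd (x i - r i) ((N0 w).factorization p)).2 hd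
    have h2 : (x i : ℚ_[p]) - z p i = ((x i - r i : ℤ) : ℚ_[p]) + ((r i : ℚ_[p]) - z p i) := by
      push_cast
      ring
    rw [h2]
    refine (Padic.nonarchimedean _ _).trans ?_
    refine (max_le h1 (hr p hpw i)).trans ?_
    exact near_small w p _ hp hw hv

theorem cells (s : ℕ) (rho : ℝ) (hrho : 0 < rho) : ∃ C : Finset (Fin s → ℝ),
    ∀ y : Fin s → ℝ, (∀ i, |y i| ≤ 1) → ∃ c ∈ C, ∀ i, |c i - y i| ≤ rho := by
  classical
  obtain ⟨K, hK⟩ := exists_nat_gt (1 / rho)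
  have hK0 : (0 : ℝ) < K := lt_trans (by positivity) hK
  refine ⟨(Fintype.piFinset fun _ : Fin s => Icc (-(K : ℤ)) K).image
    fun k i => (k i : ℝ) / K, fun y hy => ?_⟩
  refine ⟨fun i => ((⌊y i * K⌋ : ℤ) : ℝ) / K, ?_, fun i => ?_⟩
  · rw [mem_image]
    refine ⟨fun i => ⌊y i * K⌋, ?_, rfl⟩
    rw [Fintype.mem_piFinset]
    intro i
    rw [mem_Icc]
    have h1 := abs_le.1 (hy i)
    constructor
    · rw [Int.le_floor]
      push_cast
      nlinarith [h1.1]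
    · have h2 : (⌊y i * K⌋ : ℝ) ≤ y i * K := Int.floor_le _
      have h3 : (⌊y i * K⌋ : ℝ) ≤ (K : ℝ) := by nlinarith [h1.2]
      exact_mod_cast h3
  · have h1 : (⌊y i * K⌋ : ℝ) ≤ y i * K := Int.floor_le _
    have h2 : y i * K < ⌊y i * K⌋ + 1 := Int.lt_floor_add_one _
    have h3 : 1 / (K : ℝ) ≤ rho := by
      rw [div_le_iff₀ hK0]
      rw [div_lt_iff₀ hrho] at hK
      linarith
    have e1 : ((⌊y i * K⌋ : ℤ) : ℝ) / K - y i = -((y i * K - ⌊y i * K⌋) * (1 / K)) := by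
      field_simp
      ring
    change |((⌊y i * K⌋ : ℤ) : ℝ) / K - y i| ≤ rho
    rw [e1, abs_neg, abs_mul, abs_of_nonneg (by linarith : (0 : ℝ) ≤ y i * K - ⌊y i * K⌋),
      abs_of_pos (by positivity : (0 : ℝ) < 1 / K)]
    calc (y i * K - ⌊y i * K⌋) * (1 / (K : ℝ)) ≤ 1 * (1 / K) :=
          mul_le_mul_of_nonneg_right (by linarith) (by positivity)
      _ ≤ rho := by linarith

end Pool.Agent.Lib.MP_e426f4_ag.WAD
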