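import Pool.Agent.Lib.MP_e426f4_ag.WAD.Defs
import Pool.Agent.Lib.MP_e426f4_ag.DP.Basic

/-!
# NuSmallC: zeros modulo `p^e` in the class of `r` modulo `p^m` (adapt `DP/NuSmallG.lean`)

`K = m + 2 k + 1`.  `ApxP` with `n = K` gives a primitive `x ≡ r mod p^m` with `p^K ∣ F(x)`, `NsP` gives `i0` with
`p^(k+1) ∤ ∂_{i0} F(x)`.  If `e + m ≤ K`: `x` modulo `p^(e+m)` is counted, and the left-hand side is `≤ 1` (`e ≤ 2k+1`).  If `e + m > K`: for all
`y_j`, `j ≠ i0`, `y_j ≡ x_j mod p^K`, the polynomial `f(T) = F(y, T)` satisfies `p^K ∣ f(x_{i0})`, `p^(k+1) ∤ f'(x_{i0})`, so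
`hensels_lemma` gives a zero `w ∈ ℤ_p` with `‖w - x_{i0}‖ < ‖f'(x_{i0})‖`.  From
`f(w) - f(x_{i0}) = (w - x_{i0}) (f'(x_{i0}) + (w - x_{i0}) c)`, `c ∈ ℤ_p` (Taylor) and `‖(w - x_{i0}) c‖ < ‖f'(x_{i0})‖` we get
`‖w - x_{i0}‖ = ‖f(x_{i0})‖ / ‖f'(x_{i0})‖ ≤ p^(k - K) ≤ p^(-m)`, so `w ≡ x_{i0} ≡ r_{i0} mod p^m`.  Reduce `w` modulo `p^(e+m)`.  There are
`p^((e + m - K)(s-1)) = p^((e - 2k - 1)(s-1))` choices of the `y_j ∈ range (p^(e+m))`.
-/

set_option autoImplicit false

namespace Pool.Agent.Lib.MP_e426f4_ag.WAD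

open Finset MvPolynomial
open Pool.Agent.Lib.MP_e426f4_ag.DP

/-- the substitution that leaves one variable free -/
private noncomputable def onevC {s : ℕ} (i0 : Fin s) (y : Fin s → ℤ) : Fin s → Polynomial ℤ :=
  fun j => if j = i0 then Polynomial.X else Polynomial.C (y j)

private lemma aeval_onevC {s : ℕ} {R : Type} [CommRing R] (i0 : Fin s) (y : Fin s → ℤ) (F : Pol s)
    (z : R) : Polynomial.aeval z (aeval (onevC i0 y) F) =
      aeval (fun j => if j = i0 then z else (y j : R)) F := by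
  have h := MvPolynomial.comp_aeval_apply (f := onevC i0 y) (Polynomial.aeval z (R := ℤ)) F
  rw [h]
  congr 2
  funext j
  unfold onevC
  split_ifs
  · simp
  · simp

private lemma derivative_onevC {s : ℕ} (i0 : Fin s) (y : Fin s → ℤ) (F : Pol s) :
    Polynomial.derivative (aeval (onevC i0 y) F) = aeval (onevC i0 y) (pderiv i0 F) := by
  induction F using MvPolynomial.induction_on with
  | C a => simp
  | add p q hp hq => simp only [map_add, hp, hq]
  | mul_X p n hp =>
    rw [map_mul, Polynomial.derivative_mul, hp, pderiv_mul, map_add, map_mul, map_mul, aeval_X]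
    congr 2
    rw [pderiv_X]
    unfold onevC
    by_cases hn : n = i0
    · subst hn
      simp
    · rw [if_neg hn, Pi.single_eq_of_ne hn]
      simp

private lemma cast_evZC {s : ℕ} {R : Type} [CommRing R] (F : Pol s) (x : Fin s → ℤ) :
    ((evZ F x : ℤ) : R) = aeval (fun i => (x i : R)) F := by
  unfold evZ
  have h := MvPolynomial.comp_aeval_apply (f := x) (Algebra.ofId ℤ R) F
  rw [show (aeval x) F = eval x F from rfl] at h
  simpa [Algebra.ofId_apply] using h

/-- the distance of the zero of the lemma of Hensel -/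
private lemma hens_dist {p : ℕ} [Fact p.Prime] (f : Polynomial ℤ) (a z : ℤ_[p])
    (hz : f.aeval z = 0) (hza : ‖z - a‖ < ‖f.derivative.aeval a‖) :
    ‖z - a‖ * ‖f.derivative.aeval a‖ = ‖f.aeval a‖ := by
  obtain ⟨c, hc⟩ := Polynomial.binomExpansion (f.map (algebraMap ℤ ℤ_[p])) a (z - a)
  rw [Polynomial.derivative_map, Polynomial.eval_map_algebraMap, Polynomial.eval_map_algebraMap,
    Polynomial.eval_map_algebraMap, add_sub_cancel, hz] at hc
  have h1 : f.aeval a = -((z - a) * (f.derivative.aeval a + c * (z - a))) := by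
    linear_combination -hc
  have h2 : ‖c * (z - a)‖ < ‖f.derivative.aeval a‖ := by
    rw [norm_mul]
    refine lt_of_le_of_lt ?_ hza
    exact mul_le_of_le_one_left (norm_nonneg _) (PadicInt.norm_le_one c)
  have h3 : ‖f.derivative.aeval a + c * (z - a)‖ = ‖f.derivative.aeval a‖ := by
    have h4 := PadicInt.norm_add_eq_max_of_ne (q := f.derivative.aeval a) (r := c * (z - a)) h2.ne'
    rw [h4, max_eq_left h2.le]
  rw [h1, norm_neg, norm_mul, h3]

private lemma root_modC {s : ℕ} (p k m E : ℕ) [Fact p.Prime] (hmE : m ≤ E) (F : Pol s)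
    (x : Fin s → ℤ) (i0 : Fin s) (hx : (p : ℤ) ^ (m + (2 * k + 1)) ∣ evZ F x)
    (hd : ¬ (p : ℤ) ^ (k + 1) ∣ evZ (pderiv i0 F) x) (y : Fin s → ℕ)
    (hy : ∀ j, j ≠ i0 → (y j : ℤ) ≡ x j [ZMOD (p : ℤ) ^ (m + (2 * k + 1))]) :
    ∃ w : ℕ, w < p ^ E ∧ (w : ℤ) ≡ x i0 [ZMOD (p : ℤ) ^ m] ∧
      (p : ℤ) ^ E ∣ evN F (fun j => if j = i0 then w else y j) := by
  have hp1 : (1 : ℝ) < p := by exact_mod_cast (Fact.out : p.Prime).one_lt
  have hp0 : (0 : ℝ) < p := by linarith
  set f : Polynomial ℤ := aeval (onevC i0 fun j => (y j : ℤ)) F with hf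
  have hcong : ∀ j, (fun j => if j = i0 then x i0 else (y j : ℤ)) j ≡ x j
      [ZMOD (p : ℤ) ^ (m + (2 * k + 1))] := by
    intro j
    by_cases hj : j = i0
    · subst hj
      simp only [if_true]
      exact Int.ModEq.refl _
    · simp only [if_neg hj]
      exact hy j hj
  have hval : f.aeval (x i0 : ℤ_[p]) =
      ((evZ F (fun j => if j = i0 then x i0 else (y j : ℤ)) : ℤ) : ℤ_[p]) := by
    rw [hf, aeval_onevC, cast_evZC]
    congr 2
    funext j
    split_ifs <;> rfl
  have hder : f.derivative.aeval (x i0 : ℤ_[p]) =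
      ((evZ (pderiv i0 F) (fun j => if j = i0 then x i0 else (y j : ℤ)) : ℤ) : ℤ_[p]) := by
    rw [hf, derivative_onevC, aeval_onevC, cast_evZC]
    congr 2
    funext j
    split_ifs <;> rfl
  have hnorm1 : ‖f.aeval (x i0 : ℤ_[p])‖ ≤ (p : ℝ) ^ (-((m + (2 * k + 1) : ℕ) : ℤ)) := by
    rw [hval, PadicInt.norm_int_le_pow_iff_dvd]
    have h1 := evZ_congr F _ x _ hcong
    exact (Int.ModEq.dvd_iff h1).mpr (by exact_mod_cast hx)
  have hdn : (p : ℝ) ^ (-(k : ℤ)) ≤ ‖f.derivative.aeval (x i0 : ℤ_[p])‖ := by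
    by_contra hcon
    push Not at hcon
    apply hd
    have h1 := evZ_congr (pderiv i0 F) _ x _ hcong
    have h2 : (p : ℤ) ^ (k + 1) ∣ (p : ℤ) ^ (m + (2 * k + 1)) := pow_dvd_pow _ (by omega)
    rw [← Int.ModEq.dvd_iff (h1.of_dvd h2)]
    have h3 : ‖((evZ (pderiv i0 F) (fun j => if j = i0 then x i0 else (y j : ℤ)) : ℤ) : ℤ_[p])‖ ≤
        (p : ℝ) ^ (-((k + 1 : ℕ) : ℤ)) := by
      rw [PadicInt.norm_le_pow_iff_norm_lt_pow_add_one, ← hder]
      have : (-((k + 1 : ℕ) : ℤ) + 1) = -(k : ℤ) := by push_cast; ring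
      rw [this]
      exact hcon
    rw [PadicInt.norm_int_le_pow_iff_dvd] at h3
    exact_mod_cast h3
  have hlt : ‖f.aeval (x i0 : ℤ_[p])‖ < ‖f.derivative.aeval (x i0 : ℤ_[p])‖ ^ 2 := by
    refine lt_of_le_of_lt hnorm1 ?_
    calc (p : ℝ) ^ (-((m + (2 * k + 1) : ℕ) : ℤ)) < ((p : ℝ) ^ (-(k : ℤ))) ^ 2 := by
          rw [← zpow_natCast, ← zpow_mul]
          apply zpow_lt_zpow_right₀ hp1
          push_cast
          have : (0 : ℤ) ≤ m := Int.natCast_nonneg m
          linarith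
      _ ≤ _ := by
          apply pow_le_pow_left₀ (by positivity) hdn
  obtain ⟨z, hz, hza, -⟩ := hensels_lemma hlt
  have hdist : ‖z - (x i0 : ℤ_[p])‖ ≤ (p : ℝ) ^ (-(m : ℤ)) := by
    have h1 := hens_dist f (x i0 : ℤ_[p]) z hz hza
    have h2 : ‖z - (x i0 : ℤ_[p])‖ * (p : ℝ) ^ (-(k : ℤ)) ≤
        (p : ℝ) ^ (-(m : ℤ)) * (p : ℝ) ^ (-(k : ℤ)) := by
      calc ‖z - (x i0 : ℤ_[p])‖ * (p : ℝ) ^ (-(k : ℤ)) ≤
            ‖z - (x i0 : ℤ_[p])‖ * ‖f.derivative.aeval (x i0 : ℤ_[p])‖ :=
              mul_le_mul_of_nonneg_left hdn (norm_nonneg _)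
        _ = ‖f.aeval (x i0 : ℤ_[p])‖ := h1
        _ ≤ (p : ℝ) ^ (-((m + (2 * k + 1) : ℕ) : ℤ)) := hnorm1
        _ ≤ (p : ℝ) ^ (-(m : ℤ) + -(k : ℤ)) := by
            apply zpow_le_zpow_right₀ hp1.le
            push_cast
            have : (0 : ℤ) ≤ k := Int.natCast_nonneg k
            linarith
        _ = _ := zpow_add₀ hp0.ne' _ _
    exact le_of_mul_le_mul_right h2 (by positivity)
  have h5 : (p : ℤ_[p]) ^ E ∣ (z.appr E : ℤ_[p]) - z := by
    rw [← neg_sub, dvd_neg, ← Ideal.mem_span_singleton]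
    exact PadicInt.appr_spec E z
  refine ⟨z.appr E, PadicInt.appr_lt z E, ?_, ?_⟩
  · have h6 : ‖(z.appr E : ℤ_[p]) - z‖ ≤ (p : ℝ) ^ (-(m : ℤ)) := by
      have h7 : ‖(z.appr E : ℤ_[p]) - z‖ ≤ (p : ℝ) ^ (-(E : ℤ)) := by
        rw [PadicInt.norm_le_pow_iff_mem_span_pow, Ideal.mem_span_singleton]
        exact h5
      refine h7.trans ?_
      apply zpow_le_zpow_right₀ hp1.le
      have : (m : ℤ) ≤ E := by exact_mod_cast hmE
      linarith
    have h8 : ‖(((z.appr E : ℤ) - x i0 : ℤ) : ℤ_[p])‖ ≤ (p : ℝ) ^ (-(m : ℤ)) := by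
      have h9 : (((z.appr E : ℤ) - x i0 : ℤ) : ℤ_[p]) =
          ((z.appr E : ℤ_[p]) - z) + (z - (x i0 : ℤ_[p])) := by
        push_cast
        ring
      rw [h9]
      exact (PadicInt.nonarchimedean _ _).trans (max_le h6 hdist)
    rw [PadicInt.norm_int_le_pow_iff_dvd] at h8
    exact (Int.modEq_iff_dvd.2 (by exact_mod_cast h8)).symm
  · rw [← PadicInt.pow_p_dvd_int_iff]
    have h6 : ((evN F (fun j => if j = i0 then z.appr E else y j) : ℤ) : ℤ_[p]) =
        f.aeval (z.appr E : ℤ_[p]) - f.aeval z := by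
      rw [hz, sub_zero, hf, aeval_onevC]
      unfold evN
      rw [cast_evZC]
      congr 2
      funext j
      by_cases hj : j = i0
      · rw [if_pos hj]
        simp [hj]
      · rw [if_neg hj]
        simp [hj]
    rw [h6, ← Polynomial.eval_map_algebraMap, ← Polynomial.eval_map_algebraMap]
    exact h5.trans (Polynomial.sub_dvd_eval_sub _ _ _)

theorem nu_smallC (s p e m k : ℕ) (hs : 1 ≤ s) (hp : p.Prime) (F : Pol s) (r : Fin s → ℤ)
    (h : NsP p k F) (hr : ApxP p m r F) :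
    ((p : ℝ) ^ ((2 * k + 1) * (s - 1)))⁻¹ * (p : ℝ) ^ (e * (s - 1)) ≤
      nuC (p ^ e) (p ^ m) r F := by
  classical
  have : Fact p.Prime := ⟨hp⟩
  obtain ⟨K, hK⟩ : ∃ K : ℕ, K = m + (2 * k + 1) := ⟨_, rfl⟩
  obtain ⟨x, hprim, hxr, hx⟩ := hr K
  obtain ⟨i0, hd⟩ := h x hprim
  have hp1 : (1 : ℝ) < p := by exact_mod_cast hp.one_lt
  have hp0 : (0 : ℝ) < p := by linarith
  have hpz : (0 : ℤ) < p := by exact_mod_cast hp.pos
  have hpK : (0 : ℤ) < (p : ℤ) ^ K := by positivity
  have hpow : p ^ e * p ^ m = p ^ (e + m) := by rw [pow_add]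
  rcases le_or_gt (e + m) K with hek | hek
  · have h1 : ((p : ℝ) ^ ((2 * k + 1) * (s - 1)))⁻¹ * (p : ℝ) ^ (e * (s - 1)) ≤ 1 := by
      rw [inv_mul_le_iff₀ (by positivity), mul_one]
      exact pow_le_pow_right₀ hp1.le (Nat.mul_le_mul_right _ (by omega))
    refine h1.trans ?_
    unfold nuC
    have h2 : 1 ≤ ((Fintype.piFinset fun _ : Fin s => range (p ^ e * p ^ m)).filter
        fun x : Fin s → ℕ => ((p ^ e : ℕ) : ℤ) ∣ evN F x ∧
          ∀ i, (x i : ℤ) ≡ r i [ZMOD ((p ^ m : ℕ) : ℤ)]).card := by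
      rw [Nat.one_le_iff_ne_zero, ← Nat.pos_iff_ne_zero, Finset.card_pos]
      have hpe : (0 : ℤ) < (p : ℤ) ^ (e + m) := by positivity
      refine ⟨fun j => (x j % (p : ℤ) ^ (e + m)).toNat, ?_⟩
      have h5 : ∀ j, (fun j => (((x j % (p : ℤ) ^ (e + m)).toNat : ℕ) : ℤ)) j ≡ x j
          [ZMOD (p : ℤ) ^ (e + m)] := by
        intro j
        have h4 := Int.emod_nonneg (x j) hpe.ne'
        simp only []
        rw [Int.toNat_of_nonneg h4]
        exact Int.mod_modEq _ _
      rw [Finset.mem_filter, Fintype.mem_piFinset]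
      refine ⟨?_, ?_, ?_⟩
      · intro j
        rw [Finset.mem_range, hpow]
        have h3 := Int.emod_lt_of_pos (x j) hpe
        have h4 := Int.emod_nonneg (x j) hpe.ne'
        zify
        rw [Int.toNat_of_nonneg h4]
        exact h3
      · unfold evN
        have h6 := evZ_congr F _ x _ h5
        have h7 : (p : ℤ) ^ (e + m) ∣ evZ F fun j => (((x j % (p : ℤ) ^ (e + m)).toNat : ℕ) : ℤ) :=
          (Int.ModEq.dvd_iff h6).mpr ((pow_dvd_pow _ hek).trans hx)
        push_cast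
        exact (pow_dvd_pow _ (Nat.le_add_right e m)).trans h7
      · intro i
        have h8 : (p : ℤ) ^ m ∣ (p : ℤ) ^ (e + m) := pow_dvd_pow _ (Nat.le_add_left m e)
        have h9 := ((h5 i).of_dvd h8).trans (hxr i)
        push_cast
        exact h9
    exact_mod_cast h2
  · set b : Fin s → ℕ := fun j => (x j % (p : ℤ) ^ K).toNat with hb
    have hb1 : ∀ j, b j < p ^ K := by
      intro j
      have h3 := Int.emod_lt_of_pos (x j) hpK
      have h4 := Int.emod_nonneg (x j) hpK.ne'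
      zify
      rw [hb]
      simp only []
      rw [Int.toNat_of_nonneg h4]
      exact h3
    have hb2 : ∀ j, (b j : ℤ) ≡ x j [ZMOD (p : ℤ) ^ K] := by
      intro j
      have h4 := Int.emod_nonneg (x j) hpK.ne'
      rw [hb]
      simp only []
      rw [Int.toNat_of_nonneg h4]
      exact Int.mod_modEq _ _
    have hyK : ∀ (c : Fin s → ℕ) (j : Fin s),
        ((b j + p ^ K * c j : ℕ) : ℤ) ≡ x j [ZMOD (p : ℤ) ^ K] := by
      intro c j
      push_cast
      have h1 : (p : ℤ) ^ K * (c j : ℤ) ≡ 0 [ZMOD (p : ℤ) ^ K] :=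
        Int.modEq_zero_iff_dvd.mpr (dvd_mul_right _ _)
      simpa using (hb2 j).add h1
    have hx' : (p : ℤ) ^ (m + (2 * k + 1)) ∣ evZ F x := by
      rw [← hK]
      exact hx
    have key := fun c : Fin s → ℕ => root_modC p k m (e + m) (Nat.le_add_left m e) F x i0 hx' hd
      (fun j => b j + p ^ K * c j) (fun j _ => by
        rw [← hK]
        exact hyK c j)
    choose w hw1 hw2 hw3 using key
    set S0 : Finset (Fin s → ℕ) := Fintype.piFinset fun j : Fin s =>
      if j = i0 then ({0} : Finset ℕ) else range (p ^ (e + m - K)) with hS0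
    have hcard : S0.card = p ^ ((e + m - K) * (s - 1)) := by
      rw [hS0, Fintype.card_piFinset, ← Finset.mul_prod_erase univ _ (mem_univ i0)]
      rw [if_pos rfl, Finset.card_singleton, one_mul]
      have h1 : ∀ j ∈ univ.erase i0, (if j = i0 then ({0} : Finset ℕ) else
          range (p ^ (e + m - K))).card = p ^ (e + m - K) := by
        intro j hj
        rw [if_neg (Finset.ne_of_mem_erase hj), Finset.card_range]
      rw [Finset.prod_congr rfl h1, Finset.prod_const, Finset.card_erase_of_mem (mem_univ i0),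
        Finset.card_univ, Fintype.card_fin, ← pow_mul]
    set Φ : (Fin s → ℕ) → (Fin s → ℕ) := fun c j =>
      if j = i0 then w c else b j + p ^ K * c j with hΦ
    have hle : S0.card ≤ ((Fintype.piFinset fun _ : Fin s => range (p ^ e * p ^ m)).filter
        fun x : Fin s → ℕ => ((p ^ e : ℕ) : ℤ) ∣ evN F x ∧
          ∀ i, (x i : ℤ) ≡ r i [ZMOD ((p ^ m : ℕ) : ℤ)]).card := by
      apply Finset.card_le_card_of_injOn Φ
      · intro c hc
        rw [Finset.mem_coe, hS0, Fintype.mem_piFinset] at hc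
        rw [Finset.mem_coe, Finset.mem_filter, Fintype.mem_piFinset]
        refine ⟨?_, ?_, ?_⟩
        · intro j
          rw [Finset.mem_range, hpow]
          by_cases hj : j = i0
          · simp only [hΦ, if_pos hj]
            exact hw1 c
          · simp only [hΦ, if_neg hj]
            have h1 := hc j
            rw [if_neg hj, Finset.mem_range] at h1
            have h2 := hb1 j
            calc b j + p ^ K * c j < p ^ K + p ^ K * c j := by omega
              _ = p ^ K * (c j + 1) := by ring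
              _ ≤ p ^ K * p ^ (e + m - K) := Nat.mul_le_mul_left _ h1
              _ = p ^ (e + m) := by rw [← pow_add]; congr 1; omega
        · have h3 := hw3 c
          push_cast
          exact (pow_dvd_pow _ (Nat.le_add_right e m)).trans h3
        · intro j
          push_cast
          by_cases hj : j = i0
          · simp only [hΦ, if_pos hj]
            rw [hj]
            exact (hw2 c).trans (hxr i0)
          · simp only [hΦ, if_neg hj]
            have h4 : (p : ℤ) ^ m ∣ (p : ℤ) ^ K := pow_dvd_pow _ (by omega)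
            have h5 := ((hyK c j).of_dvd h4).trans (hxr j)
            exact_mod_cast h5
      · intro c hc c' hc' hcc
        rw [Finset.mem_coe, hS0, Fintype.mem_piFinset] at hc hc'
        funext j
        by_cases hj : j = i0
        · have h1 := hc j
          have h2 := hc' j
          rw [if_pos hj, Finset.mem_singleton] at h1 h2
          rw [h1, h2]
        · have h1 := congrFun hcc j
          simp only [hΦ, if_neg hj] at h1
          have h2 : p ^ K * c j = p ^ K * c' j := by omega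
          exact Nat.eq_of_mul_eq_mul_left (pow_pos hp.pos K) h2
    rw [hcard] at hle
    have h7 : ((p : ℝ) ^ ((2 * k + 1) * (s - 1)))⁻¹ * (p : ℝ) ^ (e * (s - 1)) =
        ((p ^ ((e + m - K) * (s - 1)) : ℕ) : ℝ) := by
      rw [inv_mul_eq_iff_eq_mul₀ (by positivity)]
      push_cast
      rw [← pow_add, ← add_mul]
      congr 2
      omega
    rw [h7]
    unfold nuC
    exact_mod_cast hle

end Pool.Agent.Lib.MP_e426f4_ag.WAD
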