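import Pool.Agent.Lib.MP_e426f4_ag.DP.Defs

/-!
# RealChgN: a non-singular real zero gives a sign change along a coordinate near it, inside an orthant (adapt `DP/RealChg.lean`)

We may assume `rho ≤ 1/4` and, if `x_j ≠ 0`, `rho < |x_j|`.  As `∂_j f(x) ≠ 0`, the function `h(u) = f(x with u in place of x_j)`, `h(x_j) = 0`,
takes both signs in `(x_j - rho, x_j + rho)` (otherwise `x_j` is a local extremum): `h(a) < 0 < h(b)`, `a`, `b` in this interval.
`near_pt` (with the additional conclusion `|y_i - x_i| < rho`; its proof gives `dist y x < ε` with `ε` as small as we like) gives `y` near `x`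
with `f(y; a) < 0 < f(y; b)`, `f(y; 0) ≠ 0`, `y_i ≠ 0` for `i ≠ j`.  If `x_j ≠ 0` then `a`, `b` have the sign of `x_j`.  If `x_j = 0`,
`one_side` (its two points `c1, c2` are `a`, `b`, or multiples `t a`, `t b` with `0 < t`; take `t ≤ 1`) gives two points of the same sign in
`(-rho, rho)`.  No scaling is necessary: `|y_i| ≤ 1/2 + rho ≤ 1`.  `σ_i` = sign of `y_i`, `z_i = |y_i|`, `eta` = minimum of the
finitely many `|y_i|`, `|y'_i|`, `-f(y)`, `f(y')`.
-/

set_option autoImplicit false

namespace Pool.Agent.Lib.MP_e426f4_ag.WAD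

open Finset MvPolynomial
open Pool.Agent.Lib.MP_e426f4_ag.DP

private lemma hasDeriv_line {s : ℕ} (f : MvPolynomial (Fin s) ℝ) (j : Fin s) (x : Fin s → ℝ) :
    HasDerivAt (fun u : ℝ => eval (Function.update x j u) f) (eval x (pderiv j f)) (x j) := by
  induction f using MvPolynomial.induction_on with
  | C a => simpa using hasDerivAt_const (x j) a
  | add p q hp hq =>
    have e1 : (fun u : ℝ => eval (Function.update x j u) (p + q))
        = (fun u : ℝ => eval (Function.update x j u) p)
          + fun u : ℝ => eval (Function.update x j u) q := by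
      funext u
      simp
    rw [e1, map_add, map_add]
    exact hp.add hq
  | mul_X p i hp =>
    have h1 : HasDerivAt (fun u : ℝ => Function.update x j u i) (if i = j then 1 else 0) (x j) := by
      by_cases hij : i = j
      · subst hij
        have e : (fun u : ℝ => Function.update x i u i) = fun u : ℝ => u := by
          funext u
          simp
        rw [e, if_pos rfl]
        exact hasDerivAt_id' (x i)
      · simpa [hij, Function.update_of_ne hij] using hasDerivAt_const (x j) (x i)
    have h2 := hp.mul h1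
    have e1 : (fun u : ℝ => eval (Function.update x j u) (p * X i))
        = (fun u : ℝ => eval (Function.update x j u) p) * fun u : ℝ => Function.update x j u i := by
      funext u
      simp
    rw [e1]
    refine h2.congr_deriv ?_
    rw [Derivation.leibniz, pderiv_X]
    by_cases hij : i = j
    · subst hij
      simp
      ring
    · simp [hij]
      ring

/-- both signs are taken on the line, near the zero -/
private lemma both_signs {s : ℕ} (f : MvPolynomial (Fin s) ℝ) (j : Fin s) (x : Fin s → ℝ)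
    (hx : eval x f = 0) (hj : eval x (pderiv j f) ≠ 0) (r : ℝ) (hr : 0 < r) :
    (∃ a : ℝ, |a - x j| < r ∧ eval (Function.update x j a) f < 0) ∧
      ∃ b : ℝ, |b - x j| < r ∧ 0 < eval (Function.update x j b) f := by
  have hd := hasDeriv_line f j x
  have h0 : eval (Function.update x j (x j)) f = 0 := by
    rw [Function.update_eq_self]; exact hx
  constructor
  · by_contra hcon
    push Not at hcon
    apply hj
    have hmin : IsLocalMin (fun u : ℝ => eval (Function.update x j u) f) (x j) :=
      Metric.eventually_nhds_iff.2 ⟨r, hr, fun u hu => by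
        show eval (Function.update x j (x j)) f ≤ eval (Function.update x j u) f
        rw [h0]
        rw [Real.dist_eq] at hu
        exact hcon u hu⟩
    exact hmin.hasDerivAt_eq_zero hd
  · by_contra hcon
    push Not at hcon
    apply hj
    have hmax : IsLocalMax (fun u : ℝ => eval (Function.update x j u) f) (x j) :=
      Metric.eventually_nhds_iff.2 ⟨r, hr, fun u hu => by
        show eval (Function.update x j u) f ≤ eval (Function.update x j (x j)) f
        rw [h0]
        rw [Real.dist_eq] at hu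
        exact hcon u hu⟩
    exact hmax.hasDerivAt_eq_zero hd

private lemma cont_upd {s : ℕ} (f : MvPolynomial (Fin s) ℝ) (j : Fin s) (a : ℝ) :
    Continuous fun y : Fin s → ℝ => eval (Function.update y j a) f :=
  (MvPolynomial.continuous_eval f).comp (continuous_id.update j continuous_const)

private lemma cont_upd' {s : ℕ} (f : MvPolynomial (Fin s) ℝ) (j : Fin s) (y : Fin s → ℝ) :
    Continuous fun u : ℝ => eval (Function.update y j u) f :=
  (MvPolynomial.continuous_eval f).comp (continuous_const.update j continuous_id)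

/-- a nearby point outside of the bad hypersurfaces -/
private lemma near_pt {s : ℕ} (f : MvPolynomial (Fin s) ℝ) (j i0 : Fin s) (hi0 : i0 ≠ j)
    (h0 : eval (Pi.single i0 1) f ≠ 0) (x : Fin s → ℝ) (a b : ℝ)
    (ha : eval (Function.update x j a) f < 0) (hb : 0 < eval (Function.update x j b) f)
    (r : ℝ) (hr : 0 < r) :
    ∃ y : Fin s → ℝ, eval (Function.update y j a) f < 0 ∧ 0 < eval (Function.update y j b) f ∧
      eval (Function.update y j 0) f ≠ 0 ∧ (∀ i, i ≠ j → y i ≠ 0) ∧ ∀ i, |y i - x i| < r := by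
  have e1 : ∀ᶠ y in nhds x, eval (Function.update y j a) f < 0 :=
    (cont_upd f j a).continuousAt.eventually_lt continuousAt_const ha
  have e2 : ∀ᶠ y in nhds x, 0 < eval (Function.update y j b) f :=
    continuousAt_const.eventually_lt (cont_upd f j b).continuousAt hb
  obtain ⟨ε, hε, hball⟩ := Metric.eventually_nhds_iff.1
    ((e1.and e2).and (Metric.eventually_nhds_iff.2 ⟨r, hr, fun _ h => h⟩ :
      ∀ᶠ y in nhds x, dist y x < r))
  set g : MvPolynomial (Fin s) ℝ := aeval (fun i => if i = j then 0 else X i) f with hg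
  have hgev : ∀ y : Fin s → ℝ, eval y g = eval (Function.update y j 0) f := by
    intro y
    rw [hg]
    have : (eval y) ((aeval fun i => if i = j then 0 else X i) f : MvPolynomial (Fin s) ℝ)
        = ((aeval y : MvPolynomial (Fin s) ℝ →ₐ[ℝ] ℝ).comp
          (aeval fun i => if i = j then (0 : MvPolynomial (Fin s) ℝ) else X i)) f := by
      rw [AlgHom.comp_apply, MvPolynomial.aeval_eq_eval]
    rw [this, MvPolynomial.comp_aeval, MvPolynomial.aeval_eq_eval]
    show (eval fun i => _) f = _
    congr 2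
    funext i
    by_cases hij : i = j
    · subst hij; simp
    · simp [hij]
  set G : MvPolynomial (Fin s) ℝ := g * ∏ i ∈ univ.erase j, X i with hG
  have hg0 : g ≠ 0 := by
    intro h
    apply h0
    have h2 := hgev (Pi.single i0 1)
    rw [h, map_zero] at h2
    have h3 : Function.update (Pi.single i0 (1 : ℝ)) j 0 = (Pi.single i0 1 : Fin s → ℝ) := by
      funext i
      by_cases hij : i = j
      · subst hij
        rw [Function.update_self, Pi.single_eq_of_ne (Ne.symm hi0)]
      · rw [Function.update_of_ne hij]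
    rw [h3] at h2
    exact h2.symm
  have hG0 : G ≠ 0 := by
    rw [hG]
    exact mul_ne_zero hg0 (Finset.prod_ne_zero_iff.2 fun i _ => X_ne_zero i)
  by_contra hcon
  apply hG0
  refine MvPolynomial.funext_set (fun i => Set.Ioo (x i - ε) (x i + ε))
    (fun i => Set.Ioo_infinite (by linarith)) fun y hy => ?_
  rw [map_zero]
  by_contra hne
  apply hcon
  have hdist : dist y x < ε := by
    rw [dist_pi_lt_iff hε]
    intro i
    have := hy i (Set.mem_univ i)
    rw [Real.dist_eq, abs_lt]
    constructor <;> [have := this.1; have := this.2] <;> linarith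
  obtain ⟨⟨h1, h2⟩, h5⟩ := hball hdist
  rw [hG, map_mul, map_prod] at hne
  refine ⟨y, h1, h2, ?_, ?_, ?_⟩
  · rw [← hgev]
    exact left_ne_zero_of_mul hne
  · intro i hij
    have h3 := right_ne_zero_of_mul hne
    have h4 := Finset.prod_ne_zero_iff.1 h3 i (Finset.mem_erase.2 ⟨hij, Finset.mem_univ i⟩)
    rwa [eval_X] at h4
  · intro i
    rw [← Real.dist_eq]
    exact (dist_le_pi_dist y x i).trans_lt h5

/-- the sign change on one side of `0` -/
private lemma one_side (h : ℝ → ℝ) (hc : Continuous h) (a b r : ℝ) (har : |a| < r) (hbr : |b| < r)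
    (ha : h a < 0) (hb : 0 < h b) (h0 : h 0 ≠ 0) :
    ∃ c1 c2 : ℝ, 0 < c1 * c2 ∧ h c1 < 0 ∧ 0 < h c2 ∧ |c1| < r ∧ |c2| < r := by
  have hle : ∀ u t : ℝ, 0 < t → t < 1 → |u| < r → |u * t| < r := by
    intro u t ht ht1 hu
    rw [abs_mul, abs_of_pos ht]
    have := mul_le_of_le_one_right (abs_nonneg u) ht1.le
    linarith
  rcases lt_or_gt_of_ne h0 with h0 | h0
  · -- `h 0 < 0`
    have hb0 : b ≠ 0 := by rintro rfl; linarith
    have e1 : ∀ᶠ t in nhdsWithin (0 : ℝ) (Set.Ioi 0), h (b * t) < 0 := by
      apply Filter.Eventually.filter_mono nhdsWithin_le_nhds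
      have : ContinuousAt (fun t : ℝ => h (b * t)) 0 :=
        (hc.comp (continuous_const.mul continuous_id)).continuousAt
      exact this.eventually_lt continuousAt_const (by simpa using h0)
    obtain ⟨t, ht, ht0⟩ := (e1.and (Ioo_mem_nhdsGT (zero_lt_one (α := ℝ)))).exists
    refine ⟨b * t, b, ?_, ht, hb, hle b t ht0.1 ht0.2 hbr, hbr⟩
    have : 0 < b * b := mul_self_pos.2 hb0
    nlinarith [mul_pos this ht0.1]
  · have ha0 : a ≠ 0 := by rintro rfl; linarith
    have e1 : ∀ᶠ t in nhdsWithin (0 : ℝ) (Set.Ioi 0), 0 < h (a * t) := by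
      apply Filter.Eventually.filter_mono nhdsWithin_le_nhds
      have : ContinuousAt (fun t : ℝ => h (a * t)) 0 :=
        (hc.comp (continuous_const.mul continuous_id)).continuousAt
      exact continuousAt_const.eventually_lt this (by simpa using h0)
    obtain ⟨t, ht, ht0⟩ := (e1.and (Ioo_mem_nhdsGT (zero_lt_one (α := ℝ)))).exists
    refine ⟨a, a * t, ?_, ha, ht, har, hle a t ht0.1 ht0.2 har⟩
    have : 0 < a * a := mul_self_pos.2 ha0
    nlinarith [mul_pos this ht0.1]

/-- the last step: signs and absolute values -/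
private lemma finish (s : ℕ) (f : MvPolynomial (Fin s) ℝ) (j : Fin s)
    (y y' : Fin s → ℝ) (hyy : ∀ i, 0 < y i * y' i) (hne : ∀ i, i ≠ j → y i = y' i)
    (hle : ∀ i, |y i| ≤ 1) (hle' : ∀ i, |y' i| ≤ 1)
    (h1 : eval y f < 0) (h2 : 0 < eval y' f) :
    ∃ (σ : Fin s → ℤ) (eta : ℝ) (z z' : Fin s → ℝ), Sgn σ ∧ 0 < eta ∧
      (∀ i, eta ≤ z i ∧ z i ≤ 1) ∧ (∀ i, eta ≤ z' i ∧ z' i ≤ 1) ∧ (∀ i, i ≠ j → z i = z' i) ∧
      (∀ i, (σ i : ℝ) * z i = y i ∧ (σ i : ℝ) * z' i = y' i) ∧
      eval (fun i => (σ i : ℝ) * z i) f ≤ -eta ∧ eta ≤ eval (fun i => (σ i : ℝ) * z' i) f := by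
  have hy0 : ∀ i, y i ≠ 0 := fun i => left_ne_zero_of_mul (hyy i).ne'
  have hy0' : ∀ i, y' i ≠ 0 := fun i => right_ne_zero_of_mul (hyy i).ne'
  have : Nonempty (Fin s) := ⟨j⟩
  obtain ⟨i1, hi1⟩ := Finite.exists_min fun i => |y i|
  obtain ⟨i2, hi2⟩ := Finite.exists_min fun i => |y' i|
  have hz1 : 0 < |y i1| := abs_pos.2 (hy0 i1)
  have hz2 : 0 < |y' i2| := abs_pos.2 (hy0' i2)
  have hσ : ∀ i, (((if 0 < y i then 1 else -1 : ℤ) : ℤ) : ℝ) * |y i| = y i := by
    intro i
    by_cases h : 0 < y i
    · rw [if_pos h, abs_of_pos h]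
      push_cast
      ring
    · have h' : y i < 0 := lt_of_le_of_ne (not_lt.1 h) (hy0 i)
      rw [if_neg h, abs_of_neg h']
      push_cast
      ring
  have hσ' : ∀ i, (((if 0 < y i then 1 else -1 : ℤ) : ℤ) : ℝ) * |y' i| = y' i := by
    intro i
    by_cases h : 0 < y i
    · have h' : 0 < y' i := by
        by_contra hcon
        have := mul_nonpos_of_nonneg_of_nonpos h.le (not_lt.1 hcon)
        linarith [hyy i]
      rw [if_pos h, abs_of_pos h']
      push_cast
      ring
    · have h' : y' i < 0 := by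
        by_contra hcon
        have := mul_nonpos_of_nonpos_of_nonneg (not_lt.1 h) (not_lt.1 hcon)
        linarith [hyy i]
      rw [if_neg h, abs_of_neg h']
      push_cast
      ring
  refine ⟨fun i => if 0 < y i then 1 else -1,
    min (min |y i1| |y' i2|) (min (-(eval y f)) (eval y' f)),
    fun i => |y i|, fun i => |y' i|, ?_, ?_, ?_, ?_, ?_, ?_, ?_, ?_⟩
  · intro i
    by_cases h : 0 < y i
    · left; simp [h]
    · right; simp [h]
  · exact lt_min (lt_min hz1 hz2) (lt_min (by linarith) h2)
  · intro i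
    exact ⟨((min_le_left _ _).trans (min_le_left _ _)).trans (hi1 i), hle i⟩
  · intro i
    exact ⟨((min_le_left _ _).trans (min_le_right _ _)).trans (hi2 i), hle' i⟩
  · intro i hij
    show |y i| = |y' i|
    rw [hne i hij]
  · intro i
    exact ⟨hσ i, hσ' i⟩
  · have e : (fun i => (((if 0 < y i then 1 else -1 : ℤ) : ℤ) : ℝ) * |y i|) = y := funext hσ
    rw [e]
    have := (min_le_right (min |y i1| |y' i2|) (min (-(eval y f)) (eval y' f))).trans
      (min_le_left _ _)
    linarith
  · have e : (fun i => (((if 0 < y i then 1 else -1 : ℤ) : ℤ) : ℝ) * |y' i|) = y' := funext hσ'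
    rw [e]
    exact (min_le_right _ _).trans (min_le_right _ _)

theorem sign_change_near (d s : ℕ) (hs : 2 ≤ s) (f : MvPolynomial (Fin s) ℝ)
    (hf : f.IsHomogeneous d) (hpure : ∀ i : Fin s, eval (Pi.single i 1) f ≠ 0) (x : Fin s → ℝ)
    (hx1 : ∀ i, |x i| ≤ 1 / 2) (hx : eval x f = 0) (j : Fin s)
    (hj : eval x (pderiv j f) ≠ 0) (rho : ℝ) (hrho : 0 < rho) :
    ∃ (σ : Fin s → ℤ) (eta : ℝ) (j : Fin s) (z z' : Fin s → ℝ), Sgn σ ∧ 0 < eta ∧
      (∀ i, eta ≤ z i ∧ z i ≤ 1) ∧ (∀ i, eta ≤ z' i ∧ z' i ≤ 1) ∧ (∀ i, i ≠ j → z i = z' i) ∧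
      (∀ i, |(σ i : ℝ) * z i - x i| ≤ rho ∧ |(σ i : ℝ) * z' i - x i| ≤ rho) ∧
      eval (fun i => (σ i : ℝ) * z i) f ≤ -eta ∧ eta ≤ eval (fun i => (σ i : ℝ) * z' i) f := by
  obtain ⟨r, hr, hrr, hr4, hrx⟩ : ∃ r : ℝ, 0 < r ∧ r ≤ rho ∧ r ≤ 1 / 4 ∧ (x j ≠ 0 → r < |x j|) := by
    by_cases hxj : x j = 0
    · exact ⟨min rho (1 / 4), lt_min hrho (by norm_num), min_le_left _ _, min_le_right _ _,
        fun h => absurd hxj h⟩
    · have h1 : 0 < |x j| := abs_pos.2 hxj
      refine ⟨min (min rho (1 / 4)) (|x j| / 2), lt_min (lt_min hrho (by norm_num)) (by linarith),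
        (min_le_left _ _).trans (min_le_left _ _), (min_le_left _ _).trans (min_le_right _ _),
        fun _ => ?_⟩
      have := min_le_right (min rho (1 / 4)) (|x j| / 2)
      linarith
  obtain ⟨⟨a, har, ha⟩, b, hbr, hb⟩ := both_signs f j x hx hj r hr
  have : Nontrivial (Fin s) := Fin.nontrivial_iff_two_le.2 hs
  obtain ⟨i0, hi0⟩ := exists_ne j
  obtain ⟨y, h1, h2, h3, h4, h5⟩ := near_pt f j i0 hi0 (hpure i0) x a b ha hb r hr
  obtain ⟨c1, c2, hc, hc1, hc2, hc1r, hc2r⟩ : ∃ c1 c2 : ℝ, 0 < c1 * c2 ∧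
      eval (Function.update y j c1) f < 0 ∧ 0 < eval (Function.update y j c2) f ∧
      |c1 - x j| < r ∧ |c2 - x j| < r := by
    by_cases hxj : x j = 0
    · rw [hxj, sub_zero] at har hbr
      rw [hxj]
      simp only [sub_zero]
      exact one_side (fun u => eval (Function.update y j u) f) (cont_upd' f j y) a b r har hbr
        h1 h2 h3
    · refine ⟨a, b, ?_, h1, h2, har, hbr⟩
      have h6 := hrx hxj
      rcases lt_or_gt_of_ne hxj with h7 | h7
      · rw [abs_of_neg h7] at h6
        have h8 := (abs_lt.1 har).2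
        have h9 := (abs_lt.1 hbr).2
        exact mul_pos_of_neg_of_neg (by linarith) (by linarith)
      · rw [abs_of_pos h7] at h6
        have h8 := (abs_lt.1 har).1
        have h9 := (abs_lt.1 hbr).1
        exact mul_pos (by linarith) (by linarith)
  have hn : ∀ c : ℝ, |c - x j| < r → ∀ i, |Function.update y j c i - x i| < r := by
    intro c hcr i
    by_cases hij : i = j
    · subst hij
      rw [Function.update_self]
      exact hcr
    · rw [Function.update_of_ne hij]
      exact h5 i
  have hle : ∀ c : ℝ, |c - x j| < r → ∀ i, |Function.update y j c i| ≤ 1 := by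
    intro c hcr i
    have h6 := hn c hcr i
    have h7 := hx1 i
    have h8 : |Function.update y j c i| ≤ |Function.update y j c i - x i| + |x i| := by
      have := abs_add_le (Function.update y j c i - x i) (x i)
      rwa [sub_add_cancel] at this
    linarith
  obtain ⟨σ, eta, z, z', g1, g2, g3, g4, g5, g6, g7, g8⟩ := finish s f j (Function.update y j c1)
    (Function.update y j c2) (by
      intro i
      by_cases hij : i = j
      · subst hij
        simpa using hc
      · rw [Function.update_of_ne hij, Function.update_of_ne hij]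
        exact mul_self_pos.2 (h4 i hij)) (by
      intro i hij
      rw [Function.update_of_ne hij, Function.update_of_ne hij]) (hle c1 hc1r) (hle c2 hc2r)
      hc1 hc2
  refine ⟨σ, eta, j, z, z', g1, g2, g3, g4, g5, fun i => ?_, g7, g8⟩
  rw [(g6 i).1, (g6 i).2]
  exact ⟨(hn c1 hc1r i).le.trans hrr, (hn c2 hc2r i).le.trans hrr⟩

end Pool.Agent.Lib.MP_e426f4_ag.WAD
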