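import Pool.Agent.Lib.MP_e426f4_ag.WAD.Defs
import Pool.Agent.Lib.MP_e426f4_ag.WAD.RealChgN
import Pool.Agent.Lib.MP_e426f4_ag.DP.Basic
import Pool.Agent.Lib.MP_e426f4_ag.DP.SoftA
import Pool.Agent.Lib.MP_e426f4_ag.DP.RealNull

/-!
# RealExcC: for few coefficients some real zero has no sign change near it, uniformly in `G` (adapt `DP/RealExcG.lean`)

Notation of `DP/RealExcG.lean` (`ff`, `Kc`, `Gp`, `Pp`).  Now
`Bad η = {(g, α) | g ∈ Kc, there is y, ‖y‖ = 1/2, ff g α y = 0, and no σ, j, z, z' as in Chg with constant η and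
|σ_i z_i - y_i| ≤ rho, |σ_i z'_i - y_i| ≤ rho}` (increasing in `η`).
Let `g ∈ Kc`, `(g, α) ∈ closure (Bad η)` for all `η > 0`: for every `n` there is `p_n ∈ Bad (1/(n+1))` within `1/(n+1)` of `(g, α)`, with
the zero `y_n`; a subsequence of the `y_n` converges to `y` in the sphere of radius `1/2` (compact), and `ff g α y = 0` by
continuity.  If all pure coefficients of `Pp g α` are `≠ 0` and some `∂_j (Pp g α)(y) ≠ 0`, then `sign_change_near` with `rho / 2` gives
`σ, eta, j, z, z'`; for large `n` (of the subsequence) `|y_n - y| ≤ rho/2`, the two values of `ff p_n` are `≤ -eta/2`, `≥ eta/2`, and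
`1/(n+1) ≤ eta/2`: contradiction to `p_n ∈ Bad (1/(n+1))`.  So `α` is in the same null set as in `null_of`.
Application: `evR (fm d G a) x = H ff g (a/H) x`; for a bad `a` (statement) all `σ` satisfy `¬ PosC eta rho H (σ y) (twist σ F)`;
`evR_twist`, and `|z_i - σ_i y_i| = |σ_i z_i - y_i|`.
-/

set_option autoImplicit false

namespace Pool.Agent.Lib.MP_e426f4_ag.WAD

open Finset MvPolynomial
open Pool.Agent.Lib.MP_e426f4_ag.DP
open Pool.Agent.Lib.MP_e426f4_ag.DG (box)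

/-- the form with real coefficients -/
private noncomputable def ff {d s : ℕ} (g : (Fin s → Fin (d + 1)) → ℝ) (α x : Fin s → ℝ) : ℝ :=
  ∑ m : Fin s → Fin (d + 1), g m * ∏ i, x i ^ (m i : ℕ) + ∑ i, α i * x i ^ d

/-- the compact set of the coefficients -/
private def Kc (d s : ℕ) : Set ((Fin s → Fin (d + 1)) → ℝ) :=
  {g | (∀ m, g m ∈ Set.Icc (-2 : ℝ) 2) ∧ ∀ m : Fin s → Fin (d + 1), ∑ i, (m i : ℕ) ≠ d → g m = 0}

private theorem Kc_compact (d s : ℕ) : IsCompact (Kc d s) := by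
  have h1 : IsCompact (Set.pi Set.univ fun _ : Fin s → Fin (d + 1) => Set.Icc (-2 : ℝ) 2) :=
    isCompact_univ_pi fun _ => isCompact_Icc
  refine h1.of_isClosed_subset ?_ fun g hg m _ => hg.1 m
  have h2 : Kc d s = (⋂ m : Fin s → Fin (d + 1), {g | g m ∈ Set.Icc (-2 : ℝ) 2}) ∩
      ⋂ m : Fin s → Fin (d + 1), {g | ∑ i, (m i : ℕ) ≠ d → g m = 0} := by
    ext g
    simp only [Kc, Set.mem_ofPred_eq, Set.mem_inter_iff, Set.mem_iInter]
  rw [h2]
  refine IsClosed.inter (isClosed_iInter fun m => ?_) (isClosed_iInter fun m => ?_)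
  · exact isClosed_Icc.preimage (continuous_apply m)
  · by_cases h : ∑ i, (m i : ℕ) = d
    · have : {g : (Fin s → Fin (d + 1)) → ℝ | ∑ i, (m i : ℕ) ≠ d → g m = 0} = Set.univ := by
        ext g
        simp [h]
      rw [this]
      exact isClosed_univ
    · have : {g : (Fin s → Fin (d + 1)) → ℝ | ∑ i, (m i : ℕ) ≠ d → g m = 0} =
          (fun g : (Fin s → Fin (d + 1)) → ℝ => g m) ⁻¹' {0} := by
        ext g
        simp [h]
      rw [this]
      exact isClosed_singleton.preimage (continuous_apply m)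

private theorem ff_cont (d s : ℕ) : Continuous fun p : ((Fin s → Fin (d + 1)) → ℝ) ×
    (Fin s → ℝ) × (Fin s → ℝ) => ff p.1 p.2.1 p.2.2 := by
  unfold ff
  fun_prop

private theorem ff_smul {d s : ℕ} {g : (Fin s → Fin (d + 1)) → ℝ} (hg : g ∈ Kc d s)
    (α x : Fin s → ℝ) (c : ℝ) : ff g α (fun i => c * x i) = c ^ d * ff g α x := by
  unfold ff
  rw [mul_add, mul_sum, mul_sum]
  congr 1
  · refine sum_congr rfl fun m _ => ?_
    by_cases h : ∑ i, (m i : ℕ) = d
    · have h1 : ∏ i, (c * x i) ^ (m i : ℕ) = c ^ d * ∏ i, x i ^ (m i : ℕ) := by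
        simp only [mul_pow]
        rw [prod_mul_distrib, prod_pow_eq_pow_sum, h]
      rw [h1]
      ring
    · rw [hg.2 m h]
      ring
  · refine sum_congr rfl fun i _ => ?_
    rw [mul_pow]
    ring

/-- the polynomial with the coefficients `g` -/
private noncomputable def Gp {d s : ℕ} (g : (Fin s → Fin (d + 1)) → ℝ) : MvPolynomial (Fin s) ℝ :=
  ∑ m : Fin s → Fin (d + 1), monomial (mo m) (g m)

private noncomputable def Pp {d s : ℕ} (g : (Fin s → Fin (d + 1)) → ℝ) (α : Fin s → ℝ) :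
    MvPolynomial (Fin s) ℝ := Gp g + ∑ i, C (α i) * X i ^ d

private theorem eval_Gp {d s : ℕ} (g : (Fin s → Fin (d + 1)) → ℝ) (x : Fin s → ℝ) :
    eval x (Gp g) = ∑ m : Fin s → Fin (d + 1), g m * ∏ i, x i ^ (m i : ℕ) := by
  unfold Gp
  rw [map_sum]
  refine sum_congr rfl fun m _ => ?_
  rw [eval_monomial, Finsupp.prod_fintype _ _ (by intro i; simp)]
  rfl

private theorem eval_Pp {d s : ℕ} (g : (Fin s → Fin (d + 1)) → ℝ) (α x : Fin s → ℝ) :
    eval x (Pp g α) = ff g α x := by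
  unfold Pp ff
  rw [map_add, eval_Gp, map_sum]
  congr 1
  refine sum_congr rfl fun i _ => ?_
  simp

private theorem hom_Gp {d s : ℕ} {g : (Fin s → Fin (d + 1)) → ℝ} (hg : g ∈ Kc d s) :
    (Gp g).IsHomogeneous d := by
  unfold Gp
  refine IsHomogeneous.sum _ _ _ fun m _ => ?_
  by_cases h : ∑ i, (m i : ℕ) = d
  · refine isHomogeneous_monomial _ ?_
    rw [Finsupp.degree_eq_sum]
    exact h
  · rw [hg.2 m h, monomial_zero]
    exact isHomogeneous_zero _ _ _

private theorem hom_Pp {d s : ℕ} {g : (Fin s → Fin (d + 1)) → ℝ} (hg : g ∈ Kc d s)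
    (α : Fin s → ℝ) : (Pp g α).IsHomogeneous d := by
  unfold Pp
  refine (hom_Gp hg).add (IsHomogeneous.sum _ _ _ fun i _ => ?_)
  exact isHomogeneous_C_mul_X_pow _ _ _

private theorem pderiv_Pp {d s : ℕ} (g : (Fin s → Fin (d + 1)) → ℝ) (α x : Fin s → ℝ)
    (j : Fin s) : eval x (pderiv j (Pp g α)) = eval x (pderiv j (Gp g)) +
      d * α j * x j ^ (d - 1) := by
  unfold Pp
  rw [map_add, map_add, map_sum, map_sum]
  congr 1
  rw [sum_eq_single j]
  · rw [pderiv_C_mul, pderiv_pow, pderiv_X_self]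
    simp
    ring
  · intro i _ hi
    rw [pderiv_C_mul, pderiv_pow, pderiv_X_of_ne hi]
    simp
  · intro h
    exact absurd (mem_univ j) h

/-- a strict sign change with constant `η`, within `rho` of `y` -/
private def ChgN {d s : ℕ} (rho η : ℝ) (y : Fin s → ℝ) (g : (Fin s → Fin (d + 1)) → ℝ)
    (α : Fin s → ℝ) : Prop :=
  ∃ (σ : Fin s → ℤ) (j : Fin s) (z z' : Fin s → ℝ), Sgn σ ∧
    (∀ i, η ≤ z i ∧ z i ≤ 1) ∧ (∀ i, η ≤ z' i ∧ z' i ≤ 1) ∧ (∀ i, i ≠ j → z i = z' i) ∧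
    (∀ i, |(σ i : ℝ) * z i - y i| ≤ rho ∧ |(σ i : ℝ) * z' i - y i| ≤ rho) ∧
    ff g α (fun i => (σ i : ℝ) * z i) ≤ -η ∧ η ≤ ff g α (fun i => (σ i : ℝ) * z' i)

private theorem ChgN.mono {d s : ℕ} {rho η η' : ℝ} (h : η ≤ η') {y : Fin s → ℝ}
    {g : (Fin s → Fin (d + 1)) → ℝ} {α : Fin s → ℝ} (hc : ChgN rho η' y g α) :
    ChgN rho η y g α := by
  obtain ⟨σ, j, z, z', h1, h2, h3, h4, h5, h6, h7⟩ := hc
  exact ⟨σ, j, z, z', h1, fun i => ⟨h.trans (h2 i).1, (h2 i).2⟩,
    fun i => ⟨h.trans (h3 i).1, (h3 i).2⟩, h4, h5, by linarith, by linarith⟩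

private def Bad (d s : ℕ) (rho η : ℝ) : Set (((Fin s → Fin (d + 1)) → ℝ) × (Fin s → ℝ)) :=
  {p | p.1 ∈ Kc d s ∧ ∃ y : Fin s → ℝ, ‖y‖ = 1 / 2 ∧ ff p.1 p.2 y = 0 ∧
    ¬ ChgN rho η y p.1 p.2}

private theorem null_of (d s : ℕ) (hd : 2 ≤ d) (hs : 2 ≤ s) (rho : ℝ) (hrho : 0 < rho)
    {g : (Fin s → Fin (d + 1)) → ℝ}
    (hg : g ∈ Kc d s) : MeasureTheory.volume {α : Fin s → ℝ | ∀ η > 0,
      (g, α) ∈ closure (Bad d s rho η)} = 0 := by
  have hsub : {α : Fin s → ℝ | ∀ η > 0, (g, α) ∈ closure (Bad d s rho η)} ⊆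
      (⋃ i : Fin s, {α : Fin s → ℝ | α i = - eval (Pi.single i 1) (Gp g)}) ∪
      {α : Fin s → ℝ | ∃ x : Fin s → ℝ, x ≠ 0 ∧
        ∀ i, eval x (pderiv i (Gp g)) + d * α i * x i ^ (d - 1) = 0} := by
    intro α hα
    by_contra hcon
    rw [Set.mem_union, not_or] at hcon
    obtain ⟨hc1, hc2⟩ := hcon
    have hpure : ∀ i : Fin s, eval (Pi.single i 1) (Pp g α) ≠ 0 := by
      intro i h0
      apply hc1
      rw [Set.mem_iUnion]
      refine ⟨i, ?_⟩
      have h1 : eval (Pi.single i 1) (Pp g α) = eval (Pi.single i 1) (Gp g) + α i := by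
        unfold Pp
        rw [map_add, map_sum]
        congr 1
        rw [sum_eq_single i]
        · simp
        · intro k _ hk
          have : (Pi.single i (1 : ℝ) : Fin s → ℝ) k = 0 := Pi.single_eq_of_ne hk 1
          rw [map_mul, map_pow, eval_C, eval_X, this, zero_pow (by omega), mul_zero]
        · intro h
          exact absurd (mem_univ i) h
      rw [h1] at h0
      show α i = _
      linarith
    have hseq : ∀ n : ℕ, ∃ (p : ((Fin s → Fin (d + 1)) → ℝ) × (Fin s → ℝ)) (y : Fin s → ℝ),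
        dist p (g, α) < 1 / ((n : ℝ) + 1) ∧ ‖y‖ = 1 / 2 ∧ ff p.1 p.2 y = 0 ∧
        ¬ ChgN rho (1 / ((n : ℝ) + 1)) y p.1 p.2 := by
      intro n
      have hn : (0 : ℝ) < 1 / ((n : ℝ) + 1) := by positivity
      obtain ⟨p, hp, hd⟩ := Metric.mem_closure_iff.1 (hα _ hn) _ hn
      obtain ⟨-, y, hy, hy0, hyc⟩ := hp
      exact ⟨p, y, by rw [dist_comm]; exact hd, hy, hy0, hyc⟩
    choose p y hpd hy hy0 hyc using hseq
    have hy' : ∀ n, y n ∈ Metric.sphere (0 : Fin s → ℝ) (1 / 2) := by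
      intro n
      rw [mem_sphere_zero_iff_norm]
      exact hy n
    obtain ⟨x, hx, φ, hφ, hxl⟩ := (isCompact_sphere (0 : Fin s → ℝ) (1 / 2)).tendsto_subseq hy'
    rw [mem_sphere_zero_iff_norm] at hx
    have hinv : Filter.Tendsto (fun n : ℕ => 1 / ((n : ℝ) + 1)) Filter.atTop (nhds 0) :=
      tendsto_one_div_add_atTop_nhds_zero_nat
    have hpl : Filter.Tendsto p Filter.atTop (nhds (g, α)) := by
      rw [tendsto_iff_dist_tendsto_zero]
      exact squeeze_zero (fun n => dist_nonneg) (fun n => (hpd n).le) hinv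
    have hpφ : Filter.Tendsto (fun n => p (φ n)) Filter.atTop (nhds (g, α)) :=
      hpl.comp hφ.tendsto_atTop
    have hx0 : ff g α x = 0 := by
      have h2 : Filter.Tendsto (fun n => ((p (φ n)).1, (p (φ n)).2, y (φ n))) Filter.atTop
          (nhds (g, α, x)) :=
        (hpφ.fst_nhds).prodMk_nhds ((hpφ.snd_nhds).prodMk_nhds hxl)
      have h4 := ((ff_cont d s).tendsto (g, α, x)).comp h2
      have h5 : (fun n => ff (p (φ n)).1 (p (φ n)).2 (y (φ n))) = fun _ => (0 : ℝ) := by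
        funext n
        exact hy0 (φ n)
      have h6 : Filter.Tendsto (fun n => ff (p (φ n)).1 (p (φ n)).2 (y (φ n))) Filter.atTop
          (nhds (ff g α x)) := h4
      rw [h5] at h6
      exact tendsto_nhds_unique h6 tendsto_const_nhds
    have hxne : x ≠ 0 := by
      rintro rfl
      rw [norm_zero] at hx
      norm_num at hx
    have h2 : ∃ j, eval x (pderiv j (Pp g α)) ≠ 0 := by
      by_contra h3
      push Not at h3
      apply hc2
      refine ⟨x, hxne, fun i => ?_⟩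
      rw [← pderiv_Pp]
      exact h3 i
    obtain ⟨j, hj⟩ := h2
    obtain ⟨σ, eta, j', z, z', hσ, heta, hz, hz', hzz, hnear, hneg, hpos⟩ :=
      sign_change_near d s hs (Pp g α) (hom_Pp hg α) hpure x
        (fun i => by rw [← hx]; exact norm_le_pi_norm x i)
        (by rw [eval_Pp]; exact hx0) j hj (rho / 2) (by positivity)
    rw [eval_Pp] at hneg hpos
    have c1 : ∀ w : Fin s → ℝ, Filter.Tendsto (fun n => ff (p (φ n)).1 (p (φ n)).2 w)
        Filter.atTop (nhds (ff g α w)) := by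
      intro w
      have hc : Continuous fun q : ((Fin s → Fin (d + 1)) → ℝ) × (Fin s → ℝ) =>
          ff q.1 q.2 w :=
        (ff_cont d s).comp (by fun_prop :
          Continuous fun q : ((Fin s → Fin (d + 1)) → ℝ) × (Fin s → ℝ) => (q.1, q.2, w))
      exact (hc.tendsto (g, α)).comp hpφ
    have e1 : ∀ᶠ n in Filter.atTop, ff (p (φ n)).1 (p (φ n)).2 (fun i => (σ i : ℝ) * z i) <
        -(eta / 2) := (c1 _).eventually (gt_mem_nhds (by linarith))
    have e2 : ∀ᶠ n in Filter.atTop, eta / 2 <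
        ff (p (φ n)).1 (p (φ n)).2 (fun i => (σ i : ℝ) * z' i) :=
      (c1 _).eventually (lt_mem_nhds (by linarith))
    have e3 : ∀ᶠ n in Filter.atTop, dist (y (φ n)) x < rho / 2 :=
      (Metric.tendsto_nhds.1 hxl) _ (by positivity)
    have e4 : ∀ᶠ n in Filter.atTop, 1 / (((φ n : ℕ) : ℝ) + 1) < eta / 2 :=
      (hinv.comp hφ.tendsto_atTop).eventually (gt_mem_nhds (by positivity))
    obtain ⟨n, h5, h6, h7, h8⟩ := (e1.and (e2.and (e3.and e4))).exists
    have hcoord : ∀ i, |y (φ n) i - x i| ≤ rho / 2 := by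
      intro i
      have := (dist_le_pi_dist (y (φ n)) x i).trans h7.le
      rwa [Real.dist_eq] at this
    have htri : ∀ (u : ℝ) (i : Fin s), |u - x i| ≤ rho / 2 → |u - y (φ n) i| ≤ rho := by
      intro u i hu
      have h9 : u - y (φ n) i = (u - x i) - (y (φ n) i - x i) := by ring
      rw [h9]
      refine (abs_sub _ _).trans ?_
      linarith [hcoord i]
    refine hyc (φ n) ⟨σ, j', z, z', hσ, fun i => ⟨?_, (hz i).2⟩, fun i => ⟨?_, (hz' i).2⟩, hzz,
      fun i => ⟨htri _ i (hnear i).1, htri _ i (hnear i).2⟩, ?_, ?_⟩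
    · linarith [(hz i).1]
    · linarith [(hz' i).1]
    · linarith
    · linarith
  refine MeasureTheory.measure_mono_null hsub (MeasureTheory.measure_union_null ?_ ?_)
  · rw [MeasureTheory.measure_iUnion_null_iff]
    intro i
    rw [MeasureTheory.volume_pi]
    exact MeasureTheory.Measure.pi_hyperplane (fun _ => MeasureTheory.volume) i _
  · exact sing_null d s hd (Gp g) (hom_Gp hg)

open Classical in
theorem real_excC (d s : ℕ) (hd : 2 ≤ d) (hs : 2 ≤ s) (rho eps : ℝ) (hrho : 0 < rho)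
    (heps : 0 < eps) :
    ∃ eta : ℝ, 0 < eta ∧ eta ≤ 1 ∧ ∃ H1 : ℕ, ∀ H : ℕ, H1 ≤ H → ∀ G : Pol s, Cb d (2 * H) G →
    (((box s H).filter fun a : Fin s → ℤ => ∃ y : Fin s → ℝ, ‖y‖ = 1 / 2 ∧
      evR (fm d G a) y = 0 ∧ ∀ σ : Fin s → ℤ, Sgn σ →
        ¬ PosC eta rho H (fun i => (σ i : ℝ) * y i) (twist σ (fm d G a))).card : ℝ) ≤
      eps * (H : ℝ) ^ s := by
  obtain ⟨η, hη, -, H1, hH1⟩ := soft s (Kc d s) (Kc_compact d s) (Bad d s rho)
    (fun η η' _ h p hp => ⟨hp.1, hp.2.choose, hp.2.choose_spec.1, hp.2.choose_spec.2.1,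
      fun hc => hp.2.choose_spec.2.2 (hc.mono h)⟩)
    (fun g hg => null_of d s hd hs rho hrho hg) eps heps
  refine ⟨min η 1, lt_min hη one_pos, min_le_right _ _, max H1 1, fun H hH G hG => ?_⟩
  have hHpos : 0 < H := lt_of_lt_of_le one_pos ((le_max_right _ _).trans hH)
  have hH' : (0 : ℝ) < H := by exact_mod_cast hHpos
  set g : (Fin s → Fin (d + 1)) → ℝ := fun m => ((coeff (mo m) G : ℤ) : ℝ) / H with hgdef
  have hgK : g ∈ Kc d s := by
    refine ⟨fun m => ?_, fun m hm => ?_⟩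
    · rw [Set.mem_Icc, ← abs_le]
      simp only [hgdef]
      rw [abs_div, abs_of_pos hH', div_le_iff₀ hH']
      have h1 := hG.2 (mo m)
      have h2 : ((|coeff (mo m) G| : ℤ) : ℝ) ≤ ((2 * H : ℕ) : ℤ) := by exact_mod_cast h1
      push_cast at h2
      exact h2
    · simp only [hgdef]
      have h1 : coeff (mo m) G = 0 := by
        refine hG.1.coeff_eq_zero ?_
        rw [Finsupp.degree_eq_sum]
        exact hm
      rw [h1]
      simp
  have hev : ∀ (a : Fin s → ℤ) (x : Fin s → ℝ),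
      evR (fm d G a) x = H * ff g (fun i => (a i : ℝ) / H) x := by
    intro a x
    rw [evR_fm, evR_coeff hG.1]
    unfold ff
    rw [mul_add, mul_sum, mul_sum]
    congr 1
    · refine sum_congr rfl fun m _ => ?_
      simp only [hgdef]
      field_simp
    · refine sum_congr rfl fun i _ => ?_
      field_simp
  refine le_trans ?_ (hH1 H ((le_max_left _ _).trans hH) g hgK)
  refine Nat.cast_le.2 (card_le_card fun a ha => ?_)
  rw [mem_filter] at ha ⊢
  obtain ⟨haH, y, hy, hy0, hyc⟩ := ha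
  refine ⟨haH, hgK, y, hy, ?_, ?_⟩
  · have h1 : evR (fm d G a) y = 0 := hy0
    rw [hev] at h1
    exact (mul_eq_zero.1 h1).resolve_left hH'.ne'
  · intro hc
    obtain ⟨σ, j, z, z', h1, h2, h3, h4, h7, h5, h6⟩ := hc.mono (min_le_left η 1)
    have habs : ∀ (i : Fin s) (u : ℝ), |(σ i : ℝ) * u - y i| ≤ rho →
        |u - (σ i : ℝ) * y i| ≤ rho := by
      intro i u hu
      rcases h1 i with h | h
      · rw [h] at hu ⊢
        simpa using hu
      · rw [h] at hu ⊢
        have e : (((-1 : ℤ) : ℝ) * u - y i) = -(u - ((-1 : ℤ) : ℝ) * y i) := by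
          push_cast
          ring
        rw [e, abs_neg] at hu
        exact hu
    refine hyc σ h1 ⟨j, z, z', h2, h3, h4, fun i => ⟨habs i _ (h7 i).1, habs i _ (h7 i).2⟩, ?_, ?_⟩
    · rw [evR_twist, hev]
      have := mul_le_mul_of_nonneg_left h5 hH'.le
      simp only at this
      linarith
    · rw [evR_twist, hev]
      have := mul_le_mul_of_nonneg_left h6 hH'.le
      simp only at this
      linarith

end Pool.Agent.Lib.MP_e426f4_ag.WAD
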