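import Pool.Agent.Lib.MP_e426f4_ag.WAD.Defs
import Pool.Agent.Lib.MP_e426f4_ag.DP.Basic

/-!
# TwistC: changes of signs

`nuC_congr`: the conditions are the same.  `nuC_twist`: `x ↦ σ x mod W N` is a bijection of the sets counted (see `nuF_twist` in `DP/Basic.lean`).
`smallC_twist`: if `x` is a zero of `twist σ F` as in `SmallC`, then `σ x` is a zero of `F`.
-/

set_option autoImplicit false

namespace Pool.Agent.Lib.MP_e426f4_ag.WAD

open Finset MvPolynomial
open Pool.Agent.Lib.MP_e426f4_ag.DP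

theorem nuC_congr {s : ℕ} (W N : ℕ) (F : Pol s) (r r' : Fin s → ℤ)
    (h : ∀ i, r i ≡ r' i [ZMOD N]) : nuC W N r F = nuC W N r' F := by
  classical
  unfold nuC
  congr 2
  refine Finset.filter_congr fun x _ => ?_
  refine and_congr_right fun _ => forall_congr' fun i => ?_
  exact ⟨fun h1 => h1.trans (h i), fun h1 => h1.trans (h i).symm⟩

theorem nuC_twist {s : ℕ} (W N : ℕ) (hW : 1 ≤ W) (hN : 1 ≤ N) {σ : Fin s → ℤ} (hσ : Sgn σ)
    (F : Pol s) (r : Fin s → ℤ) :
    nuC W N r F ≤ nuC W N (fun i => σ i * r i) (twist σ F) := by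
  classical
  have hM : 0 < W * N := Nat.mul_pos hW hN
  obtain ⟨M, hMdef⟩ : ∃ M : ℕ, M = W * N := ⟨_, rfl⟩
  have hWM : (W : ℤ) ∣ (M : ℤ) := by
    rw [hMdef]
    push_cast
    exact dvd_mul_right _ _
  have hNM : (N : ℤ) ∣ (M : ℤ) := by
    rw [hMdef]
    push_cast
    exact dvd_mul_left _ _
  unfold nuC
  rw [← hMdef] at hM ⊢
  have hM0 : (0 : ℤ) < M := by exact_mod_cast hM
  rw [Nat.cast_le]
  have hr : ∀ (x : Fin s → ℕ) (i : Fin s), ((((σ i * x i) % M : ℤ)).toNat : ℤ) = (σ i * x i) % M :=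
    fun x i => Int.toNat_of_nonneg (Int.emod_nonneg _ hM0.ne')
  refine Finset.card_le_card_of_injOn (fun x i => ((σ i * x i) % M : ℤ).toNat) ?_ ?_
  · intro x hx
    rw [Finset.mem_coe, Finset.mem_filter, Fintype.mem_piFinset] at hx
    rw [Finset.mem_coe, Finset.mem_filter, Fintype.mem_piFinset]
    refine ⟨fun i => ?_, ?_, fun i => ?_⟩
    · rw [Finset.mem_range]
      have h1 := Int.emod_lt_of_pos (σ i * x i) hM0
      rw [← hr x i] at h1
      exact_mod_cast h1
    · have h1 : evZ (twist σ F) (fun i => σ i * (x i : ℤ)) = evZ F (fun i => (x i : ℤ)) := by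
        rw [evZ_twist]
        congr 1
        funext i
        rw [← mul_assoc, sgn_sq hσ, one_mul]
      have h2 : evN (twist σ F) (fun i => ((σ i * x i) % M : ℤ).toNat) ≡
          evZ (twist σ F) (fun i => σ i * (x i : ℤ)) [ZMOD W] := by
        unfold evN
        refine evZ_congr (twist σ F) _ _ _ fun i => ?_
        rw [hr x i]
        exact (Int.mod_modEq _ _).of_dvd hWM
      rw [h1] at h2
      exact Int.modEq_zero_iff_dvd.1 (h2.trans (Int.modEq_zero_iff_dvd.2 hx.2.1))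
    · have h1 : ((((σ i * x i) % M : ℤ).toNat : ℕ) : ℤ) ≡ σ i * x i [ZMOD N] := by
        rw [hr x i]
        exact (Int.mod_modEq _ _).of_dvd hNM
      exact h1.trans (Int.ModEq.mul_left _ (hx.2.2 i))
  · intro x hx y hy hxy
    rw [Finset.mem_coe, Finset.mem_filter, Fintype.mem_piFinset] at hx hy
    funext i
    have h1 : ((σ i * x i) % M : ℤ).toNat = ((σ i * y i) % M : ℤ).toNat := congrFun hxy i
    have h2 : (σ i * x i) % (M : ℤ) = (σ i * y i) % M := by
      rw [← hr x i, ← hr y i, h1]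
    have h3 : (x i : ℤ) % M = (y i : ℤ) % M := by
      have h4 : σ i * (σ i * x i) ≡ σ i * (σ i * y i) [ZMOD M] := Int.ModEq.mul_left _ h2
      rw [← mul_assoc, ← mul_assoc, sgn_sq hσ, one_mul, one_mul] at h4
      exact h4
    have h5 := Finset.mem_range.1 (hx.1 i)
    have h6 := Finset.mem_range.1 (hy.1 i)
    rw [Int.emod_eq_of_lt (by positivity) (by exact_mod_cast h5),
      Int.emod_eq_of_lt (by positivity) (by exact_mod_cast h6)] at h3
    exact_mod_cast h3

theorem smallC_twist {s : ℕ} (e H N : ℕ) (rho : ℝ) {σ : Fin s → ℤ} (hσ : Sgn σ) (F : Pol s)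
    (r : Fin s → ℤ) (c : Fin s → ℝ) (h : SmallC e H N rho r c (twist σ F)) :
    SmallC e H N rho (fun i => σ i * r i) (fun i => (σ i : ℝ) * c i) F := by
  obtain ⟨x, hx, hx1, hx2, hx3, t, ht, hx4⟩ := h
  refine ⟨fun i => σ i * x i, ?_, ?_, fun i => ?_, fun i => ?_, t, ht, fun i => ?_⟩
  · intro h
    apply hx
    funext i
    have h1 := congrFun h i
    have h2 : σ i * (σ i * x i) = 0 := by
      have : σ i * x i = 0 := h1
      rw [this, mul_zero]
    rw [← mul_assoc, sgn_sq hσ, one_mul] at h2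
    exact h2
  · rw [← evZ_twist]
    exact hx1
  · rw [abs_mul, sgn_abs hσ, one_mul]
    exact hx2 i
  · exact Int.ModEq.mul_left _ (hx3 i)
  · have h1 : |(σ i : ℝ)| = 1 := by
      have := sgn_abs hσ i
      exact_mod_cast this
    have h2 : ((σ i * x i : ℤ) : ℝ) - t * ((σ i : ℝ) * c i) = (σ i : ℝ) * ((x i : ℝ) - t * c i) := by
      push_cast
      ring
    rw [h2, abs_mul, h1, one_mul]
    exact hx4 i

end Pool.Agent.Lib.MP_e426f4_ag.WAD
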