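import Pool.Agent.Lib.MP_e426f4_ag.WAD.FinalC
import Pool.Agent.Lib.MP_e426f4_ag.WAD.RealExcC
import Pool.Agent.Lib.MP_e426f4_ag.WAD.LocExcC
import Pool.Agent.Lib.MP_e426f4_ag.WAD.ApxAll
import Pool.Agent.Lib.MP_e426f4_ag.WAD.TwistC
import Pool.Agent.Lib.MP_e426f4_ag.WAD.Near

/-!
# UniC: weak approximation up to `w` for almost all members of every coset, uniformly in `G` (compare `DP/Uni.lean`)

`N = N0 w`, `rho = 1/(10 w)`.  `eta` from `real_excC` (`rho`, `eps/3`), `c0` from `loc_excC` (`N`, `eps/3`), `om` from `final_C` (`eta`, `2 rho`, `c0`,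
`eps/(3 · #cells)`), the cells being the `(σ, c, r)`, `σ ∈ {±1}^s`, `c ∈ C` (`cells s rho`), `r ∈ [0, N)^s`.  Exceptional sets: `A` of `real_excC`,
`B` of `loc_excC`, `E (σ, c, r) = {a | PosC eta (2 rho) H c (twist σ F), c0 om!^(s-1) ≤ nuC om! N r (twist σ F), ¬ SmallC e' H N (4 rho) r c (twist σ F)}`
(`final_C` for `twist σ G`, `twist_fm`, `Cb_twist`; `a ↦ (σ_i^d a_i)`, see `uni_card` in `DP/Uni.lean`).
Let `a` be in none of them, `F = fm d G a` with zeros over all `ℚ_p`, and let `y`, `z` be as in `WAx`.  `y/2` is a zero of norm `1/2`, so there is `σ` with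
`PosC eta rho H (σ y/2) (twist σ F)`; choose `c ∈ C` with `|c_i - σ_i y_i/2| ≤ rho`: `PosC eta (2 rho) H c (twist σ F)`.  `apx_all` gives `r`, and
`a ∉ B` gives `c0 om!^(s-1) ≤ nuC om! N r F ≤ nuC om! N (σ r) (twist σ F)`; replace `σ r` by its residue `r'` in `[0, N)^s` (`nuC_congr`).  As `a ∉ E (σ, c, r')`
we have `SmallC e' H N (4 rho) r' c (twist σ F)`, so `smallC_twist` gives `SmallC e' H N (4 rho) (σ r') (σ c) F`, with `σ r' ≡ r mod N`
(so also with `r`), `|σ_i c_i - y_i/2| ≤ rho`, and `near_all`.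
-/

set_option autoImplicit false

namespace Pool.Agent.Lib.MP_e426f4_ag.WAD

open Finset MvPolynomial
open Pool.Agent.Lib.MP_e426f4_ag.DP
open Pool.Agent.Lib.MP_e426f4_ag.DG (box)

/-- multiplication by signs is a map of the box to itself -/
private theorem uniC_card (d s H : ℕ) {σ : Fin s → ℤ} (hσ : Sgn σ) (P Q : (Fin s → ℤ) → Prop)
    [DecidablePred P] [DecidablePred Q] (h : ∀ a, P a → Q fun i => σ i ^ d * a i) :
    ((box s H).filter P).card ≤ ((box s H).filter Q).card := by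
  refine Finset.card_le_card_of_injOn (fun a i => σ i ^ d * a i) ?_ ?_
  · intro a ha
    have ha' := Finset.mem_filter.1 (Finset.mem_coe.1 ha)
    refine Finset.mem_coe.2 (Finset.mem_filter.2 ⟨(mem_box s H _).2 fun i => ?_, h a ha'.2⟩)
    rw [abs_mul, abs_pow, sgn_abs hσ, one_pow, one_mul]
    exact (mem_box s H a).1 ha'.1 i
  · intro a _ b _ hab
    funext i
    have h1 : σ i ^ d * a i = σ i ^ d * b i := congrFun hab i
    have h2 : σ i ^ d ≠ 0 := by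
      refine pow_ne_zero _ fun h0 => ?_
      have h3 := sgn_sq hσ i
      rw [h0] at h3
      norm_num at h3
    exact mul_left_cancel₀ h2 h1

private theorem sgn_sqR {s : ℕ} {σ : Fin s → ℤ} (hσ : Sgn σ) (i : Fin s) :
    (σ i : ℝ) * (σ i : ℝ) = 1 := by exact_mod_cast sgn_sq hσ i

/-- the last step for one form -/
private theorem uniC_one {d s w e' H om : ℕ} (hw : 1 ≤ w) (F : Pol s) (hF : F.IsHomogeneous d)
    (eta rho c0 : ℝ) (hrho : 10 * rho ≤ 1 / (w : ℝ)) (Cs : Finset (Fin s → ℝ))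
    (hCs : ∀ y : Fin s → ℝ, (∀ i, |y i| ≤ 1) → ∃ c ∈ Cs, ∀ i, |c i - y i| ≤ rho)
    (hA : ∀ y : Fin s → ℝ, ‖y‖ = 1 / 2 → evR F y = 0 → ∃ σ : Fin s → ℤ, Sgn σ ∧
      PosC eta rho H (fun i => (σ i : ℝ) * y i) (twist σ F))
    (hB : ∀ r : Fin s → ℤ, (∀ p : ℕ, p.Prime → ApxP p ((N0 w).factorization p) r F) →
      c0 * ((om.factorial : ℕ) : ℝ) ^ (s - 1) ≤ nuC om.factorial (N0 w) r F)
    (hE : ∀ σ : Fin s → ℤ, Sgn σ → ∀ c ∈ Cs, ∀ r : Fin s → ℤ,
      (∀ i, 0 ≤ r i ∧ r i < (N0 w : ℤ)) → PosC eta (2 * rho) H c (twist σ F) →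
      c0 * ((om.factorial : ℕ) : ℝ) ^ (s - 1) ≤ nuC om.factorial (N0 w) r (twist σ F) →
      SmallC e' H (N0 w) (4 * rho) r c (twist σ F))
    (hz : ∀ (p : ℕ) [Fact p.Prime], Zer ℚ_[p] F) : WAx w e' H F := by
  intro y z hy hy0 hz'
  have hN := N0_pos w
  have hNZ : (0 : ℤ) < (N0 w : ℤ) := by exact_mod_cast hN
  have hy2 : ‖fun i => (1 / 2 : ℝ) * y i‖ = 1 / 2 := by
    have h1 : (fun i => (1 / 2 : ℝ) * y i) = (1 / 2 : ℝ) • y := by
      funext i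
      rfl
    rw [h1, norm_smul, hy, mul_one]
    norm_num
  have hy20 : evR F (fun i => (1 / 2 : ℝ) * y i) = 0 := by
    rw [evR_smul hF]
    have h1 : evR F y = 0 := hy0
    rw [h1, mul_zero]
  obtain ⟨σ, hσ, hpos⟩ := hA _ hy2 hy20
  have hyi : ∀ i, |y i| ≤ 1 := by
    intro i
    have h1 := norm_le_pi_norm y i
    rw [hy] at h1
    exact h1
  have hσa : ∀ i, |(σ i : ℝ)| = 1 := by
    intro i
    have h1 := sgn_abs hσ i
    have h2 : ((|σ i| : ℤ) : ℝ) = 1 := by rw [h1]; norm_num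
    rwa [Int.cast_abs] at h2
  obtain ⟨c, hc, hcy⟩ := hCs (fun i => (σ i : ℝ) * ((1 / 2 : ℝ) * y i)) (by
    intro i
    rw [abs_mul, hσa, one_mul, abs_mul]
    have h1 := hyi i
    have h2 : |(1 / 2 : ℝ)| = 1 / 2 := by norm_num
    rw [h2]
    linarith)
  have hpos2 : PosC eta (2 * rho) H c (twist σ F) := by
    obtain ⟨j, v, v', h1, h2, h3, h4, h5, h6⟩ := hpos
    refine ⟨j, v, v', h1, h2, h3, fun i => ?_, h5, h6⟩
    have h7 := h4 i
    have h8 := hcy i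
    rw [abs_le] at h8
    constructor
    · have h9 := abs_le.1 h7.1
      rw [abs_le]
      constructor <;> linarith
    · have h9 := abs_le.1 h7.2
      rw [abs_le]
      constructor <;> linarith
  obtain ⟨r, hr1, hr2⟩ := apx_all w (N0 w) hN F hF hz z hz'
  have hnu := hB r hr1
  have hnu2 : c0 * ((om.factorial : ℕ) : ℝ) ^ (s - 1) ≤
      nuC om.factorial (N0 w) (fun i => (σ i * r i) % (N0 w : ℤ)) (twist σ F) := by
    refine hnu.trans ((nuC_twist _ _ (Nat.factorial_pos om) hN hσ F r).trans (le_of_eq ?_))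
    exact nuC_congr _ _ _ _ _ fun i => (Int.mod_modEq _ _).symm
  have hS := hE σ hσ c hc (fun i => (σ i * r i) % (N0 w : ℤ)) (fun i =>
    ⟨Int.emod_nonneg _ hNZ.ne', Int.emod_lt_of_pos _ hNZ⟩) hpos2 hnu2
  have hS2 := smallC_twist e' H (N0 w) (4 * rho) hσ F _ _ hS
  have hS3 : SmallC e' H (N0 w) (4 * rho) r (fun i => (σ i : ℝ) * c i) F := by
    obtain ⟨x, h1, h2, h3, h4, h5⟩ := hS2
    refine ⟨x, h1, h2, h3, fun i => (h4 i).trans ?_, h5⟩
    have h6 : σ i * ((σ i * r i) % (N0 w : ℤ)) ≡ σ i * (σ i * r i) [ZMOD (N0 w : ℤ)] :=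
      (Int.mod_modEq _ _).mul_left _
    rwa [← mul_assoc, sgn_sq hσ i, one_mul] at h6
  refine near_all w e' H hw rho hrho F r (fun i => (σ i : ℝ) * c i) y (fun i => ?_) z hr2 hS3
  have h1 : (σ i : ℝ) * c i - y i / 2 = (σ i : ℝ) * (c i - (σ i : ℝ) * ((1 / 2 : ℝ) * y i)) := by
    have h2 := sgn_sqR hσ i
    have h3 : (σ i : ℝ) * (c i - (σ i : ℝ) * ((1 / 2 : ℝ) * y i)) =
        (σ i : ℝ) * c i - ((σ i : ℝ) * (σ i : ℝ)) * ((1 / 2 : ℝ) * y i) := by ring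
    rw [h3, h2]
    ring
  rw [h1, abs_mul, hσa, one_mul]
  exact hcy i

open Classical in
theorem uni_C (d s u l e e' : ℕ) (hP : Par d s u l e e') (w : ℕ) (hw : 1 ≤ w) (eps : ℝ)
    (heps : 0 < eps) :
    ∃ H0 : ℕ, ∀ H : ℕ, H0 ≤ H → ∀ G : Pol s, Cb d (2 * H) G →
    (((box s H).filter fun a : Fin s → ℤ =>
      (∀ (p : ℕ) [Fact p.Prime], Zer ℚ_[p] (fm d G a)) ∧
      ¬ WAx w e' H (fm d G a)).card : ℝ) ≤ eps * (H : ℝ) ^ s := by
  have hd := hP.hd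
  have hs := hP.hs
  have heps3 : 0 < eps / 3 := by positivity
  have hwR : (1 : ℝ) ≤ w := by exact_mod_cast hw
  obtain ⟨rho, hrho⟩ : ∃ rho : ℝ, rho = 1 / (10 * (w : ℝ)) := ⟨_, rfl⟩
  have hrho0 : 0 < rho := by rw [hrho]; positivity
  have hrho1 : 10 * rho ≤ 1 / (w : ℝ) := by
    rw [hrho]
    apply le_of_eq
    field_simp
  obtain ⟨eta, heta, heta1, H1, h1⟩ := real_excC d s (by omega) (by omega) rho (eps / 3) hrho0 heps3
  obtain ⟨c0, hc0, h2⟩ := loc_excC d s (N0 w) hd (by omega) (N0_pos w) (eps / 3) heps3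
  obtain ⟨Cs, hCs⟩ := cells s rho hrho0
  obtain ⟨Sg, hSg⟩ : ∃ Sg : Finset (Fin s → ℤ), Sg = Fintype.piFinset fun _ => {1, -1} := ⟨_, rfl⟩
  obtain ⟨Rs, hRs⟩ : ∃ Rs : Finset (Fin s → ℤ),
    Rs = Fintype.piFinset fun _ => Finset.Ico 0 (N0 w : ℤ) := ⟨_, rfl⟩
  have hSg1 : ∀ σ, σ ∈ Sg ↔ Sgn σ := by
    intro σ
    rw [hSg, Fintype.mem_piFinset]
    unfold Sgn
    refine forall_congr' fun i => ?_
    simp
  have hRs1 : ∀ r, r ∈ Rs ↔ ∀ i, 0 ≤ r i ∧ r i < (N0 w : ℤ) := by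
    intro r
    rw [hRs, Fintype.mem_piFinset]
    refine forall_congr' fun i => ?_
    rw [Finset.mem_Ico]
  obtain ⟨Ce, hCe⟩ : ∃ Ce : Finset ((Fin s → ℤ) × (Fin s → ℝ) × (Fin s → ℤ)),
    Ce = Sg ×ˢ (Cs ×ˢ Rs) := ⟨_, rfl⟩
  obtain ⟨om, hom, H2, h3⟩ := final_C d s u l e e' (N0 w) hP eta (2 * rho) c0
    (eps / (3 * ((Ce.card : ℝ) + 1))) heta heta1 (by positivity) (N0_pos w) hc0 (by positivity)
  obtain ⟨H3, h4⟩ := h2 om hom
  refine ⟨max H1 (max H2 H3), fun H hH G hG => ?_⟩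
  have hH1 : H1 ≤ H := (le_max_left _ _).trans hH
  have hH2 : H2 ≤ H := (le_max_left _ _).trans ((le_max_right _ _).trans hH)
  have hH3 : H3 ≤ H := (le_max_right _ _).trans ((le_max_right _ _).trans hH)
  have k1 := h1 H hH1 G hG
  have k2 := h4 H hH3 G hG.1
  have e4 : 2 * (2 * rho) = 4 * rho := by ring
  rw [e4] at h3
  obtain ⟨E, hE⟩ : ∃ E : (Fin s → ℤ) × (Fin s → ℝ) × (Fin s → ℤ) → Finset (Fin s → ℤ), E = fun q =>
      (box s H).filter fun a : Fin s → ℤ => PosC eta (2 * rho) H q.2.1 (twist q.1 (fm d G a)) ∧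
        c0 * ((om.factorial : ℕ) : ℝ) ^ (s - 1) ≤
          nuC om.factorial (N0 w) q.2.2 (twist q.1 (fm d G a)) ∧
        ¬ SmallC e' H (N0 w) (4 * rho) q.2.2 q.2.1 (twist q.1 (fm d G a)) := ⟨_, rfl⟩
  have k3 : ∀ q ∈ Ce, ((E q).card : ℝ) ≤ eps / (3 * ((Ce.card : ℝ) + 1)) * (H : ℝ) ^ s := by
    rintro ⟨σ, c, r⟩ hq
    rw [hCe, Finset.mem_product] at hq
    have hσ' : Sgn σ := (hSg1 σ).1 hq.1
    have k4 := h3 H hH2 (twist σ G) (Cb_twist hσ' hG) r c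
    refine le_trans ?_ k4
    rw [Nat.cast_le, hE]
    refine uniC_card d s H hσ' _ _ fun a ha => ?_
    rw [← twist_fm]
    exact ha
  obtain ⟨A, hA⟩ : ∃ A : Finset (Fin s → ℤ), A = (box s H).filter fun a : Fin s → ℤ =>
      ∃ y : Fin s → ℝ, ‖y‖ = 1 / 2 ∧ evR (fm d G a) y = 0 ∧ ∀ σ : Fin s → ℤ, Sgn σ →
        ¬ PosC eta rho H (fun i => (σ i : ℝ) * y i) (twist σ (fm d G a)) := ⟨_, rfl⟩
  obtain ⟨B, hB⟩ : ∃ B : Finset (Fin s → ℤ), B = (box s H).filter fun a : Fin s → ℤ =>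
      ∃ r : Fin s → ℤ, (∀ p : ℕ, p.Prime → ApxP p ((N0 w).factorization p) r (fm d G a)) ∧
      nuC om.factorial (N0 w) r (fm d G a) < c0 * ((om.factorial : ℕ) : ℝ) ^ (s - 1) := ⟨_, rfl⟩
  rw [← hA] at k1
  rw [← hB] at k2
  have hsub : ((box s H).filter fun a : Fin s → ℤ =>
      (∀ (p : ℕ) [Fact p.Prime], Zer ℚ_[p] (fm d G a)) ∧ ¬ WAx w e' H (fm d G a)) ⊆
      A ∪ (B ∪ Ce.biUnion E) := by
    intro a ha
    rw [Finset.mem_filter] at ha
    obtain ⟨ha1, ha2, ha3⟩ := ha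
    by_contra hcon
    rw [Finset.mem_union, Finset.mem_union, Finset.mem_biUnion, not_or, not_or] at hcon
    obtain ⟨hcA, hcB, hcE⟩ := hcon
    apply ha3
    refine uniC_one (om := om) (d := d) hw (fm d G a) (hom_fm d G hG.1 a) eta rho c0 hrho1 Cs hCs
      ?_ ?_ ?_ ha2
    · intro y hy hy0
      by_contra hno
      apply hcA
      rw [hA, Finset.mem_filter]
      refine ⟨ha1, y, hy, hy0, fun σ hσ hp => hno ⟨σ, hσ, hp⟩⟩
    · intro r hr
      by_contra hno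
      apply hcB
      rw [hB, Finset.mem_filter]
      exact ⟨ha1, r, hr, not_le.1 hno⟩
    · intro σ hσ c hc r hr hp hn
      by_contra hno
      apply hcE
      refine ⟨(σ, c, r), ?_, ?_⟩
      · rw [hCe]
        exact Finset.mem_product.2 ⟨(hSg1 σ).2 hσ, Finset.mem_product.2 ⟨hc, (hRs1 r).2 hr⟩⟩
      · rw [hE]
        exact Finset.mem_filter.2 ⟨ha1, hp, hn, hno⟩
  have k5 : ((Ce.biUnion E).card : ℝ) ≤ eps / 3 * (H : ℝ) ^ s := by
    have k6 : ((Ce.biUnion E).card : ℝ) ≤ ∑ q ∈ Ce, ((E q).card : ℝ) := by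
      exact_mod_cast Finset.card_biUnion_le
    refine k6.trans ((Finset.sum_le_card_nsmul _ _ _ k3).trans ?_)
    rw [nsmul_eq_mul]
    have k7 : (Ce.card : ℝ) * (eps / (3 * ((Ce.card : ℝ) + 1)) * (H : ℝ) ^ s) =
        ((Ce.card : ℝ) / ((Ce.card : ℝ) + 1)) * (eps / 3 * (H : ℝ) ^ s) := by
      field_simp
    rw [k7]
    refine mul_le_of_le_one_left (by positivity) ?_
    rw [div_le_one (by positivity)]
    linarith
  have k8 : (((box s H).filter fun a : Fin s → ℤ =>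
      (∀ (p : ℕ) [Fact p.Prime], Zer ℚ_[p] (fm d G a)) ∧ ¬ WAx w e' H (fm d G a)).card : ℝ) ≤
      (A.card : ℝ) + ((B.card : ℝ) + ((Ce.biUnion E).card : ℝ)) := by
    have k9 := (Finset.card_le_card hsub).trans ((Finset.card_union_le _ _).trans
      (Nat.add_le_add_left (Finset.card_union_le _ _) _))
    exact_mod_cast k9
  linarith

end Pool.Agent.Lib.MP_e426f4_ag.WAD
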